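import Pool.Agent.Lib.MP_bd65ca_an.Pg.Defs

/-!
# The Turán problem for polygons: basic facts
-/

open MeasureTheory FourierTransform Pointwise Set
open scoped RealInnerProductSpace

namespace Pool.Agent.MPbd65ca.Pg

variable {k : ℕ} {g : ℤ → E 2}

theorem dt_swap (a b : E 2) : dt b a = -dt a b := by
  unfold dt
  ring

theorem dt_self (a : E 2) : dt a a = 0 := by
  unfold dt
  ring

theorem dt_add_left (a b c : E 2) : dt (a + b) c = dt a c + dt b c := by
  simp only [dt, PiLp.add_apply]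
  ring

theorem dt_add_right (a b c : E 2) : dt a (b + c) = dt a b + dt a c := by
  simp only [dt, PiLp.add_apply]
  ring

theorem dt_sub_left (a b c : E 2) : dt (a - b) c = dt a c - dt b c := by
  simp only [dt, PiLp.sub_apply]
  ring

theorem dt_sub_right (a b c : E 2) : dt a (b - c) = dt a b - dt a c := by
  simp only [dt, PiLp.sub_apply]
  ring

theorem dt_neg_left (a b : E 2) : dt (-a) b = -dt a b := by
  simp only [dt, PiLp.neg_apply]
  ring

theorem dt_neg_right (a b : E 2) : dt a (-b) = -dt a b := by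
  simp only [dt, PiLp.neg_apply]
  ring

theorem dt_smul_left (r : ℝ) (a b : E 2) : dt (r • a) b = r * dt a b := by
  simp only [dt, PiLp.smul_apply, smul_eq_mul]
  ring

theorem dt_smul_right (r : ℝ) (a b : E 2) : dt a (r • b) = r * dt a b := by
  simp only [dt, PiLp.smul_apply, smul_eq_mul]
  ring

theorem dt_zero_left (a : E 2) : dt 0 a = 0 := by
  simp [dt]

theorem dt_zero_right (a : E 2) : dt a 0 = 0 := by
  simp [dt]

theorem dt_sum_right {ι : Type*} (s : Finset ι) (a : E 2) (f : ι → E 2) :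
    dt a (∑ i ∈ s, f i) = ∑ i ∈ s, dt a (f i) := by
  classical
  induction s using Finset.induction_on with
  | empty => simp [dt_zero_right]
  | insert i s hi ih => rw [Finset.sum_insert hi, Finset.sum_insert hi, dt_add_right, ih]

theorem dt_sum_left {ι : Type*} (s : Finset ι) (a : E 2) (f : ι → E 2) :
    dt (∑ i ∈ s, f i) a = ∑ i ∈ s, dt (f i) a := by
  classical
  induction s using Finset.induction_on with
  | empty => simp [dt_zero_left]
  | insert i s hi ih => rw [Finset.sum_insert hi, Finset.sum_insert hi, dt_add_left, ih]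

theorem dt_comb (a b c : E 2) : dt b c • a + dt c a • b + dt a b • c = 0 := by
  ext i
  fin_cases i <;> simp [dt] <;> ring

theorem inner_rot (a b u : E 2) : ⟪a, u⟫ • b - ⟪b, u⟫ • a = dt a b • (!₂[-u 1, u 0] : E 2) := by
  ext i
  fin_cases i <;> simp [dt, PiLp.inner_apply, Fin.sum_univ_two] <;> ring

theorem norm_rot (u : E 2) : ‖(!₂[-u 1, u 0] : E 2)‖ = ‖u‖ := by
  rw [EuclideanSpace.norm_eq, EuclideanSpace.norm_eq, Fin.sum_univ_two, Fin.sum_univ_two]
  simp [add_comm]

/-- Sums over a period do not depend on the period. -/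
theorem sum_window {M : Type*} [AddCommMonoid M] (k : ℕ) (f : ℤ → M) (hf : ∀ j, f (j + k) = f j)
    (i : ℤ) : ∑ l ∈ Finset.range k, f (i + l) = ∑ l ∈ Finset.range k, f l := by
  have step : ∀ i : ℤ, ∑ l ∈ Finset.range k, f (i + 1 + l) = ∑ l ∈ Finset.range k, f (i + l) := by
    intro i
    cases k with
    | zero => simp
    | succ k =>
      rw [Finset.sum_range_succ, Finset.sum_range_succ' (fun l : ℕ => f (i + l))]
      congr 1
      · refine Finset.sum_congr rfl fun l _ => ?_
        congr 1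
        push_cast
        ring
      · have h1 := hf i
        have h2 : i + 1 + (k : ℤ) = i + ((k + 1 : ℕ) : ℤ) := by push_cast; ring
        rw [h2, h1]
        simp
  induction i using Int.induction_on with
  | zero => simp
  | succ i ih => rw [step, ih]
  | pred i ih =>
    have h1 := step (-(i : ℤ) - 1)
    rw [sub_add_cancel] at h1
    rw [← h1, ih]

theorem Zon.vx_succ (h : Zon k g) (j : ℤ) : vx k g (j + 1) = vx k g j + g j := by
  have h1 : ∑ l ∈ Finset.range k, g (j + 1 + l) = ∑ l ∈ Finset.range k, g (j + l) - (2 : ℝ) • g j := by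
    obtain ⟨n, hn⟩ : ∃ n, k = n + 1 := ⟨k - 1, by have := h.hk; omega⟩
    subst hn
    rw [Finset.sum_range_succ, Finset.sum_range_succ' (fun l : ℕ => g (j + l))]
    have h2 := h.anti j
    have h3 : j + 1 + (n : ℤ) = j + ((n + 1 : ℕ) : ℤ) := by push_cast; ring
    rw [h3, h2]
    have h4 : ∀ l : ℕ, g (j + 1 + l) = g (j + ((l + 1 : ℕ) : ℤ)) := by
      intro l
      congr 1
      push_cast
      ring
    rw [Finset.sum_congr rfl fun l _ => h4 l]
    simp only [Nat.cast_zero, add_zero, two_smul]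
    abel
  unfold vx
  rw [h1, smul_sub, smul_smul]
  norm_num

theorem Zon.vx_anti (h : Zon k g) (j : ℤ) : vx k g (j + k) = -vx k g j := by
  unfold vx
  rw [← smul_neg, ← Finset.sum_neg_distrib]
  congr 1
  refine Finset.sum_congr rfl fun l _ => ?_
  rw [← h.anti]
  congr 1
  ring

theorem Zon.Yf_anti (h : Zon k g) (j : ℤ) (u : E 2) : Yf g (j + k) u = -Yf g j u := by
  unfold Yf
  rw [h.anti, inner_neg_left]

theorem Zon.tau_per (h : Zon k g) (j : ℤ) : tau g (j + k) = tau g j := by
  unfold tau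
  have h1 : j + k - 1 = j - 1 + k := by ring
  rw [h1, h.anti, h.anti, dt_neg_left, dt_neg_right, neg_neg]

theorem Zon.tau_pos (h : Zon k g) (j : ℤ) : 0 < tau g j :=
  h.pos (j - 1) j (by omega) (by have := h.hk; omega)

theorem Zon.gam_per (h : Zon k g) (j : ℤ) : gam g (j + k) = gam g j := by
  unfold gam
  have h1 : j + k - 1 = j - 1 + k := by ring
  have h2 : j + k + 1 = j + 1 + k := by ring
  rw [h1, h2, h.anti, h.anti, dt_neg_left, dt_neg_right, neg_neg, h.tau_per, h.tau_per]

theorem Zon.bq_per (h : Zon k g) (j : ℤ) : bq g (j + k) = bq g j := by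
  unfold bq
  have h2 : j + k + 1 = j + 1 + k := by ring
  rw [h2, h.tau_per, h.tau_per, h.gam_per]

theorem Zon.bq_pos (h : Zon k g) (j : ℤ) : 0 < bq g j := by
  unfold bq
  have h1 := h.tau_pos j
  have h2 := h.tau_pos (j + 1)
  positivity

theorem Zon.gam_rel (h : Zon k g) (j : ℤ) :
    (tau g j)⁻¹ • g (j - 1) + (tau g (j + 1))⁻¹ • g (j + 1) = gam g j • g j := by
  have h1 := h.tau_pos j
  have h2 := h.tau_pos (j + 1)
  have h3 := dt_comb (g (j - 1)) (g j) (g (j + 1))
  have e1 : dt (g j) (g (j + 1)) = tau g (j + 1) := by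
    unfold tau
    rw [add_sub_cancel_right]
  have e2 : dt (g (j - 1)) (g j) = tau g j := rfl
  have e3 : dt (g (j + 1)) (g (j - 1)) = -dt (g (j - 1)) (g (j + 1)) := dt_swap _ _
  rw [e1, e2, e3] at h3
  have h4 : tau g (j + 1) • g (j - 1) + tau g j • g (j + 1) =
      dt (g (j - 1)) (g (j + 1)) • g j := by
    rw [neg_smul] at h3
    have := eq_neg_of_add_eq_zero_left h3
    rw [← sub_eq_zero]
    rw [← h3]
    abel
  unfold gam
  have h5 := congrArg (fun v => (tau g j * tau g (j + 1))⁻¹ • v) h4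
  simp only [smul_add, smul_smul] at h5
  have e4 : (tau g j * tau g (j + 1))⁻¹ * tau g (j + 1) = (tau g j)⁻¹ := by
    field_simp
  have e5 : (tau g j * tau g (j + 1))⁻¹ * tau g j = (tau g (j + 1))⁻¹ := by
    field_simp
  rw [e4, e5] at h5
  rw [h5, div_eq_inv_mul]

theorem Zon.ph_zc (h : Zon k g) (u : E 2) : Ph k (zc k g u) := by
  intro j
  unfold zc
  rw [h.vx_anti, inner_neg_right, AddChar.map_neg_eq_inv]

theorem cr_per {z : ℤ → Circle} (hz : Ph k z) (j : ℤ) : cr z (j + k) = cr z j := by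
  unfold cr
  rw [hz j, Circle.coe_inv_eq_conj, Complex.conj_re]

/-- The zonogon in terms of any period. -/
theorem Zon.mem_zg (h : Zon k g) (i : ℤ) (y : E 2) : y ∈ zg k g ↔
    ∃ lam : ℕ → ℝ, (∀ l, |lam l| ≤ 1 / 2) ∧ y = ∑ l ∈ Finset.range k, lam l • g (i + l) := by
  have step : ∀ i : ℤ, (∃ lam : ℕ → ℝ, (∀ l, |lam l| ≤ 1 / 2) ∧
      y = ∑ l ∈ Finset.range k, lam l • g (i + 1 + l)) ↔
      ∃ lam : ℕ → ℝ, (∀ l, |lam l| ≤ 1 / 2) ∧ y = ∑ l ∈ Finset.range k, lam l • g (i + l) := by
    intro i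
    obtain ⟨n, hn⟩ : ∃ n, k = n + 1 := ⟨k - 1, by have := h.hk; omega⟩
    subst hn
    have e3 : i + 1 + (n : ℤ) = i + ((n + 1 : ℕ) : ℤ) := by push_cast; ring
    have e4 : ∀ l : ℕ, g (i + 1 + l) = g (i + ((l + 1 : ℕ) : ℤ)) := by
      intro l
      congr 1
      push_cast
      ring
    constructor
    · rintro ⟨lam, h1, h2⟩
      refine ⟨fun l => if l = 0 then -lam n else lam (l - 1), fun l => ?_, ?_⟩
      · by_cases hl : l = 0
        · simp only [hl, if_true, abs_neg]
          exact h1 n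
        · simp only [hl, if_false]
          exact h1 _
      · rw [Finset.sum_range_succ' (fun l : ℕ => (if l = 0 then -lam n else lam (l - 1)) • g (i + l)),
          h2, Finset.sum_range_succ, e3, h.anti]
        congr 1
        · refine Finset.sum_congr rfl fun l _ => ?_
          rw [e4]
          simp
        · simp
    · rintro ⟨lam, h1, h2⟩
      refine ⟨fun l => if l = n then -lam 0 else lam (l + 1), fun l => ?_, ?_⟩
      · by_cases hl : l = n
        · simp only [hl, if_true, abs_neg]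
          exact h1 0
        · simp only [hl, if_false]
          exact h1 _
      · rw [Finset.sum_range_succ (fun l : ℕ => (if l = n then -lam 0 else lam (l + 1)) •
          g (i + 1 + l)), h2, Finset.sum_range_succ', e3, h.anti]
        congr 1
        · refine Finset.sum_congr rfl fun l hl => ?_
          rw [e4, if_neg (Finset.mem_range.1 hl).ne]
        · simp
  have all : ∀ i : ℤ, (∃ lam : ℕ → ℝ, (∀ l, |lam l| ≤ 1 / 2) ∧
      y = ∑ l ∈ Finset.range k, lam l • g (i + l)) ↔ y ∈ zg k g := by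
    intro i
    induction i using Int.induction_on with
    | zero =>
      simp only [zero_add]
      rfl
    | succ i ih => rw [step, ih]
    | pred i ih =>
      have h1 := step (-(i : ℤ) - 1)
      rw [sub_add_cancel] at h1
      rw [← h1, ih]
  exact (all i).symm

/-- Every integer is equivalent to one of `0, ..., k - 1`. -/
theorem exists_range (k : ℕ) (hk : 0 < k) (j : ℤ) : ∃ (i : ℕ) (m : ℤ), i < k ∧ j = i + m * k := by
  refine ⟨(j % k).toNat, j / k, ?_, ?_⟩
  · have h1 := Int.emod_lt_of_pos j (by exact_mod_cast hk : (0 : ℤ) < k)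
    have h2 := Int.emod_nonneg j (by exact_mod_cast hk.ne' : (k : ℤ) ≠ 0)
    omega
  · have h2 := Int.emod_nonneg j (by exact_mod_cast hk.ne' : (k : ℤ) ≠ 0)
    rw [Int.toNat_of_nonneg h2]
    have := Int.emod_add_mul_ediv j k
    linarith [mul_comm (k : ℤ) (j / k)]

/-- A periodic function of the integers takes its values on `0, ..., k - 1`. -/
theorem per_mul {M : Type*} (k : ℕ) (f : ℤ → M) (hf : ∀ j, f (j + k) = f j) (j m : ℤ) :
    f (j + m * k) = f j := by
  induction m using Int.induction_on with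
  | zero => simp
  | succ m ih =>
    have : j + ((m : ℤ) + 1) * k = j + m * k + k := by ring
    rw [this, hf, ih]
  | pred m ih =>
    have : j + -(m : ℤ) * k = j + (-(m : ℤ) - 1) * k + k := by ring
    rw [this, hf] at ih
    exact ih

theorem exists_per {M : Type*} (k : ℕ) (hk : 0 < k) (f : ℤ → M) (hf : ∀ j, f (j + k) = f j)
    (j : ℤ) : ∃ i : ℕ, i < k ∧ f j = f i := by
  obtain ⟨i, m, hi, hj⟩ := exists_range k hk j
  exact ⟨i, hi, by rw [hj, per_mul k f hf]⟩

theorem Zon.abs_Yf_per (h : Zon k g) (u : E 2) (j : ℤ) : |Yf g (j + k) u| = |Yf g j u| := by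
  rw [h.Yf_anti, abs_neg]

theorem Zon.norm_per (h : Zon k g) (j : ℤ) : ‖g (j + k)‖ = ‖g j‖ := by
  rw [h.anti, norm_neg]

theorem Zon.norm_le (h : Zon k g) : ∃ L : ℝ, 0 < L ∧ (∀ j, ‖g j‖ ≤ L) ∧
    ∀ (u : E 2) (j : ℤ), |Yf g j u| ≤ L * ‖u‖ := by
  set L : ℝ := 1 + ∑ i ∈ Finset.range k, ‖g i‖ with hL
  have h1 : ∀ j, ‖g j‖ ≤ L := by
    intro j
    obtain ⟨i, hi, hj⟩ := exists_per k (by have := h.hk; omega) (fun j => ‖g j‖) h.norm_per j
    rw [hj]
    have := Finset.single_le_sum (f := fun i : ℕ => ‖g i‖) (fun i _ => norm_nonneg _)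
      (Finset.mem_range.2 hi)
    linarith
  have h0 : 0 < L := by
    have : 0 ≤ ∑ i ∈ Finset.range k, ‖g i‖ := Finset.sum_nonneg fun i _ => norm_nonneg _
    linarith
  refine ⟨L, h0, h1, fun u j => ?_⟩
  unfold Yf
  exact (abs_real_inner_le_norm _ _).trans (mul_le_mul_of_nonneg_right (h1 j) (norm_nonneg _))

theorem abs_dt_mul_norm_le (a b u : E 2) :
    |dt a b| * ‖u‖ ≤ (‖a‖ + ‖b‖) * max |⟪a, u⟫| |⟪b, u⟫| := by
  have h1 := inner_rot a b u
  have h2 : ‖dt a b • (!₂[-u 1, u 0] : E 2)‖ = |dt a b| * ‖u‖ := by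
    rw [norm_smul, norm_rot, Real.norm_eq_abs]
  rw [← h2, ← h1]
  refine (norm_sub_le _ _).trans ?_
  rw [norm_smul, norm_smul, Real.norm_eq_abs, Real.norm_eq_abs]
  have h3 := le_max_left |⟪a, u⟫| |⟪b, u⟫|
  have h4 := le_max_right |⟪a, u⟫| |⟪b, u⟫|
  have h5 := mul_le_mul_of_nonneg_right h3 (norm_nonneg b)
  have h6 := mul_le_mul_of_nonneg_right h4 (norm_nonneg a)
  linarith

/-- Two of the linear forms are not small at the same time. -/
theorem Zon.two_forms (h : Zon k g) : ∃ c0 : ℝ, 0 < c0 ∧ ∀ (u : E 2) (i l : ℤ), i < l →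
    l < i + k → c0 * ‖u‖ ≤ max |Yf g i u| |Yf g l u| := by
  obtain ⟨L, hL0, hL, -⟩ := h.norm_le
  have hk := h.hk
  -- the smallest determinant
  set s := (Finset.range k ×ˢ Finset.range k).filter (fun p : ℕ × ℕ => 0 < p.2) with hs
  have hne : s.Nonempty := by
    refine ⟨(0, 1), ?_⟩
    rw [hs, Finset.mem_filter, Finset.mem_product, Finset.mem_range, Finset.mem_range]
    exact ⟨⟨by omega, by omega⟩, by norm_num⟩
  obtain ⟨p, hp, hmin⟩ := Finset.exists_min_image s
    (fun p : ℕ × ℕ => dt (g p.1) (g (p.1 + p.2))) hne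
  rw [hs, Finset.mem_filter, Finset.mem_product, Finset.mem_range, Finset.mem_range] at hp
  set D : ℝ := dt (g p.1) (g (p.1 + p.2)) with hD
  have hD0 : 0 < D := h.pos _ _ (by have := hp.2; omega) (by have := hp.1.2; omega)
  refine ⟨D / (2 * L), by positivity, fun u i l h1 h2 => ?_⟩
  have h3 : D ≤ dt (g i) (g l) := by
    obtain ⟨m, hm⟩ : ∃ m : ℕ, l = i + m := ⟨(l - i).toNat, by omega⟩
    subst hm
    obtain ⟨i', hi', hi⟩ := exists_per k (by omega) (fun j => dt (g j) (g (j + m))) (fun j => by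
      have e : j + k + (m : ℤ) = j + m + k := by ring
      rw [e, h.anti, h.anti, dt_neg_left, dt_neg_right, neg_neg]) i
    rw [hi]
    refine hmin (i', m) ?_
    rw [hs, Finset.mem_filter, Finset.mem_product, Finset.mem_range, Finset.mem_range]
    exact ⟨⟨hi', by omega⟩, by omega⟩
  have h4 := abs_dt_mul_norm_le (g i) (g l) u
  have h5 : 0 ≤ max |Yf g i u| |Yf g l u| := le_max_of_le_left (abs_nonneg _)
  have h6 : D * ‖u‖ ≤ 2 * L * max |Yf g i u| |Yf g l u| := by
    calc D * ‖u‖ ≤ |dt (g i) (g l)| * ‖u‖ :=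
          mul_le_mul_of_nonneg_right (h3.trans (le_abs_self _)) (norm_nonneg _)
      _ ≤ (‖g i‖ + ‖g l‖) * max |Yf g i u| |Yf g l u| := h4
      _ ≤ 2 * L * max |Yf g i u| |Yf g l u| :=
          mul_le_mul_of_nonneg_right (by linarith [hL i, hL l]) h5
  rw [div_mul_eq_mul_div, div_le_iff₀ (by positivity)]
  linarith

end Pool.Agent.MPbd65ca.Pg
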