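import Pool.Agent.Lib.MP_bd65ca_an.Pg.Defs
import Pool.Agent.Lib.MP_bd65ca_an.Bump

/-!
# The Turán problem for polygons: the bump
-/

open MeasureTheory FourierTransform Pointwise Set Filter Topology
open scoped RealInnerProductSpace

namespace Pool.Agent.MPbd65ca.Pg

open scoped ContDiff SchwartzMap Convolution in
open BumpAux in
theorem exists_bump2 (d : ℕ) {ρ : ℝ} (hρ : 0 < ρ) : ∃ Ψ : E d → ℝ, Continuous Ψ ∧
    (∀ x, 0 ≤ Ψ x) ∧ Integrable Ψ ∧ 0 < Ψ 0 ∧ (∃ C, ∀ x, Ψ x * (1 + ‖x‖) ^ 4 ≤ C) ∧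
    Tendsto Ψ (cocompact (E d)) (𝓝 0) ∧
    Vanish (Metric.closedBall 0 ρ) (fun x => (Ψ x : ℂ)) ∧
    Vanish (Metric.closedBall 0 ρ) (fun x => ((Ψ x ^ 2 : ℝ) : ℂ)) := by
  let φ : ContDiffBump (0 : E d) := ⟨ρ / 8, ρ / 4, by linarith, by linarith⟩
  have hcs : HasCompactSupport (fun x => (φ x : ℂ)) :=
    φ.hasCompactSupport.comp_left (g := fun r : ℝ => (r : ℂ)) (by simp)
  have hsm : ContDiff ℝ ∞ (fun x => (φ x : ℂ)) :=
    Complex.ofRealCLM.contDiff.comp φ.contDiff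
  let f : 𝓢(E d, ℂ) := hcs.toSchwartzMap hsm
  have hf : ∀ x, f x = (φ x : ℂ) := fun x => rfl
  have hf0 : ∀ x, ρ / 4 < ‖x‖ → f x = 0 := by
    intro x hx
    rw [hf, φ.zero_of_le_dist (by rw [dist_zero_right]; exact hx.le)]
    simp
  let g : 𝓢(E d, ℂ) := sq f
  let h : 𝓢(E d, ℂ) := sq g
  have hg0 : ∀ x, ρ / 2 < ‖x‖ → g x = 0 := fun x hx => sq_eq_zero hf0 (by linarith)
  have hh0 : ∀ x, ρ < ‖x‖ → h x = 0 := fun x hx => sq_eq_zero hg0 (by linarith)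
  have hreal : ∀ x, (((𝓕 f) x).re : ℂ) = (𝓕 f) x := by
    intro x
    have h1 : (starRingEnd ℂ) ((𝓕 f) x) = (𝓕 f) x := fourier_real (φ := φ) (fun x => φ.neg x) x
    exact Complex.conj_eq_iff_re.1 h1
  let Ψ : E d → ℝ := fun x => ((𝓕 f) x).re ^ 2
  have hΨg : (fun x => (Ψ x : ℂ)) = fun x => (𝓕 g) x := by
    funext x
    change (((((𝓕 f) x).re ^ 2 : ℝ)) : ℂ) = (𝓕 (sq f)) x
    rw [fourier_sq]
    push_cast
    rw [hreal, pow_two]
  have hΨh : (fun x => ((Ψ x ^ 2 : ℝ) : ℂ)) = fun x => (𝓕 h) x := by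
    funext x
    change ((Ψ x ^ 2 : ℝ) : ℂ) = (𝓕 (sq g)) x
    rw [fourier_sq]
    have h1 : (Ψ x : ℂ) = (𝓕 g) x := congrFun hΨg x
    push_cast
    rw [h1, pow_two]
  have hΨre : Ψ = fun x => ((𝓕 g) x).re := by
    funext x
    have h1 : (Ψ x : ℂ) = (𝓕 g) x := congrFun hΨg x
    rw [← h1, Complex.ofReal_re]
  have hΨ2re : (fun x => Ψ x ^ 2) = fun x => ((𝓕 h) x).re := by
    funext x
    have h1 : ((Ψ x ^ 2 : ℝ) : ℂ) = (𝓕 h) x := congrFun hΨh x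
    rw [← h1, Complex.ofReal_re]
  have hcont : Continuous Ψ := by
    rw [hΨre]
    exact Complex.continuous_re.comp (𝓕 g).continuous
  have hint : Integrable Ψ := by
    rw [hΨre]
    exact (𝓕 g).integrable.re
  have h00 : 0 < Ψ 0 := by
    have h0 : 0 < ((𝓕 f) 0).re := by
      have h1 : (𝓕 f) 0 = ((∫ x, φ x : ℝ) : ℂ) := by
        have h2 : (𝓕 f) 0 = 𝓕 (fun x => (φ x : ℂ)) 0 := rfl
        rw [h2, Real.fourier_eq', ← integral_complex_ofReal]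
        simp
      rw [h1, Complex.ofReal_re]
      exact φ.integral_pos
    exact pow_pos h0 2
  refine ⟨Ψ, hcont, fun x => sq_nonneg _, hint, h00, ?_, ?_, ?_, ?_⟩
  · refine ⟨2 ^ 4 * (Finset.Iic ((4 : ℕ), (0 : ℕ))).sup
      (fun m => SchwartzMap.seminorm ℝ m.1 m.2) (𝓕 g), fun x => ?_⟩
    have h1 := SchwartzMap.one_add_le_sup_seminorm_apply (𝕜 := ℝ) (m := ((4 : ℕ), (0 : ℕ)))
      (k := 4) (n := 0) le_rfl le_rfl (𝓕 g) x
    rw [norm_iteratedFDeriv_zero] at h1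
    refine le_trans ?_ h1
    have h2 : Ψ x ≤ ‖(𝓕 g) x‖ := by
      rw [hΨre]
      exact (Complex.abs_re_le_norm _).trans' (le_abs_self _)
    have h3 : 0 ≤ (1 + ‖x‖) ^ 4 := by positivity
    rw [mul_comm]
    exact mul_le_mul_of_nonneg_left h2 h3
  · rw [hΨre]
    have h1 := (𝓕 g).tendsto_cocompact
    have h2 := (Complex.continuous_re.tendsto (0 : ℂ)).comp h1
    rw [Complex.zero_re] at h2
    exact h2
  · refine ⟨?_, fun ξ hξ => ?_⟩
    · rw [hΨg]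
      exact (𝓕 g).integrable
    · rw [hΨg, fourier_fourier]
      apply hg0
      rw [Metric.mem_closedBall, dist_zero_right, not_le] at hξ
      rw [norm_neg]
      linarith
  · refine ⟨?_, fun ξ hξ => ?_⟩
    · rw [hΨh]
      exact (𝓕 h).integrable
    · rw [hΨh, fourier_fourier]
      apply hh0
      rw [Metric.mem_closedBall, dist_zero_right, not_le] at hξ
      rw [norm_neg]
      linarith

end Pool.Agent.MPbd65ca.Pg
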