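import Pool.Agent.Lib.MP_bd65ca_an.Pg.Basic

/-!
# The Turán problem for polygons: the functions with small spectrum in a cone
-/

open MeasureTheory FourierTransform Pointwise Set
open scoped RealInnerProductSpace

namespace Pool.Agent.MPbd65ca.Pg

variable {k : ℕ} {g : ℤ → E 2}

theorem continuous_chi : Continuous chi := by
  unfold chi
  apply intervalIntegral.continuous_parametric_intervalIntegral_of_continuous'
  unfold Function.uncurry
  fun_prop

/-- closed form -/
theorem Chi_closed {y : ℝ} (hy : y ≠ 0) : (y : ℂ) * chi y - Complex.I =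
    (1 - Complex.exp ((2 * Real.pi * y : ℝ) * Complex.I)) / ((2 * Real.pi * y : ℝ) : ℂ) := by
  have hyC : (y : ℂ) ≠ 0 := Complex.ofReal_ne_zero.2 hy
  have hpi : (Real.pi : ℂ) ≠ 0 := Complex.ofReal_ne_zero.2 Real.pi_ne_zero
  have hF : ∀ w ∈ Set.uIcc (0 : ℝ) 1, HasDerivAt
      (fun w : ℝ => -Complex.exp ((2 * Real.pi * (w * y) : ℝ) * Complex.I) /
          (2 * Real.pi * (y : ℂ) ^ 2) - Complex.I * (1 - (w : ℂ)) *
          Complex.exp ((2 * Real.pi * (w * y) : ℝ) * Complex.I) / y)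
      (((2 * Real.pi * (1 - w) : ℝ) : ℂ) *
        Complex.exp ((2 * Real.pi * (w * y) : ℝ) * Complex.I)) w := by
    intro w _
    have h1 : HasDerivAt (fun w : ℝ => ((2 * Real.pi * (w * y) : ℝ) : ℂ) * Complex.I)
        ((2 * Real.pi * y : ℂ) * Complex.I) w := by
      have h2 : HasDerivAt (fun w : ℝ => ((w : ℝ) : ℂ)) 1 w := Complex.ofRealCLM.hasDerivAt
      have h3 := (h2.mul_const ((2 * Real.pi * y : ℂ) * Complex.I))
      rw [one_mul] at h3
      refine h3.congr_of_eventuallyEq (Filter.Eventually.of_forall fun v => ?_)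
      show ((2 * Real.pi * (v * y) : ℝ) : ℂ) * Complex.I =
        (v : ℂ) * ((2 * Real.pi * y : ℂ) * Complex.I)
      push_cast
      ring
    have h4 := h1.cexp
    have h5 : HasDerivAt (fun w : ℝ => Complex.I * (1 - (w : ℂ))) (Complex.I * (-1)) w := by
      have h2 : HasDerivAt (fun w : ℝ => ((w : ℝ) : ℂ)) 1 w := Complex.ofRealCLM.hasDerivAt
      exact (h2.const_sub 1).const_mul Complex.I
    have h6 := ((h4.neg).div_const (2 * Real.pi * (y : ℂ) ^ 2)).sub
      ((h5.mul h4).div_const (y : ℂ))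
    have h7 : (((2 * Real.pi * (1 - w) : ℝ) : ℂ) *
        Complex.exp ((2 * Real.pi * (w * y) : ℝ) * Complex.I)) =
        -(Complex.exp ((2 * Real.pi * (w * y) : ℝ) * Complex.I) *
          ((2 * Real.pi * y : ℂ) * Complex.I)) / (2 * Real.pi * (y : ℂ) ^ 2) -
        (Complex.I * (-1) * Complex.exp ((2 * Real.pi * (w * y) : ℝ) * Complex.I) +
          Complex.I * (1 - (w : ℂ)) * (Complex.exp ((2 * Real.pi * (w * y) : ℝ) * Complex.I) *
            ((2 * Real.pi * y : ℂ) * Complex.I))) / (y : ℂ) := by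
      generalize Complex.exp ((2 * Real.pi * (w * y) : ℝ) * Complex.I) = X
      have hI : Complex.I * Complex.I = -1 := Complex.I_mul_I
      push_cast
      field_simp
      linear_combination (2 * (Real.pi : ℂ) * (y : ℂ) * (1 - (w : ℂ)) * X) * hI
    rw [h7]
    exact h6
  have hint : IntervalIntegrable (fun w : ℝ => ((2 * Real.pi * (1 - w) : ℝ) : ℂ) *
        Complex.exp ((2 * Real.pi * (w * y) : ℝ) * Complex.I)) volume 0 1 := by
    apply Continuous.intervalIntegrable
    fun_prop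
  have h := intervalIntegral.integral_eq_sub_of_hasDerivAt hF hint
  unfold chi
  rw [h]
  simp only [Complex.ofReal_one, Complex.ofReal_zero, one_mul, zero_mul, mul_zero,
    Complex.exp_zero, sub_self, sub_zero, mul_one]
  push_cast
  field_simp
  ring

theorem Chi_norm_one_sub (t : ℝ) : ‖1 - Complex.exp ((t : ℝ) * Complex.I)‖ ≤ |t| := by
  rw [norm_sub_rev, mul_comm]
  have := Real.norm_exp_I_mul_ofReal_sub_one_le (x := t)
  simpa using this

theorem Chi_norm_one_sub_two (t : ℝ) : ‖1 - Complex.exp ((t : ℝ) * Complex.I)‖ ≤ 2 := by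
  refine (norm_sub_le _ _).trans ?_
  rw [norm_one, Complex.norm_exp_ofReal_mul_I]
  norm_num

theorem Chi_sub_le_one (y : ℝ) : ‖(y : ℂ) * chi y - Complex.I‖ ≤ 1 := by
  by_cases hy : y = 0
  · subst hy
    simp
  · rw [Chi_closed hy, norm_div]
    have h1 := Chi_norm_one_sub (2 * Real.pi * y)
    have h2 : ‖((2 * Real.pi * y : ℝ) : ℂ)‖ = |2 * Real.pi * y| := by
      rw [Complex.norm_real, Real.norm_eq_abs]
    rw [h2]
    have h3 : 0 < |2 * Real.pi * y| := abs_pos.2 (by positivity)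
    rw [div_le_one h3]
    exact h1

theorem norm_chi_sub_le (y : ℝ) : ‖(y : ℂ) * chi y - Complex.I‖ ≤ 2 / (1 + |y|) := by
  have h0 : 0 ≤ |y| := abs_nonneg y
  rcases le_or_gt |y| 1 with hy | hy
  · refine (Chi_sub_le_one y).trans ?_
    rw [le_div_iff₀ (by linarith)]
    linarith
  · have hy0 : y ≠ 0 := by
      rintro rfl
      rw [abs_zero] at hy
      linarith
    rw [Chi_closed hy0, norm_div]
    have h1 := Chi_norm_one_sub_two (2 * Real.pi * y)
    have h2 : ‖((2 * Real.pi * y : ℝ) : ℂ)‖ = 2 * Real.pi * |y| := by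
      rw [Complex.norm_real, Real.norm_eq_abs, abs_mul, abs_of_pos (by positivity)]
    rw [h2, div_le_div_iff₀ (by positivity) (by linarith)]
    have hpi := Real.pi_gt_three
    have h3 : ‖1 - Complex.exp ((2 * Real.pi * y : ℝ) * Complex.I)‖ * (1 + |y|) ≤
        2 * (1 + |y|) := mul_le_mul_of_nonneg_right h1 (by linarith)
    refine h3.trans ?_
    nlinarith

theorem Chi_norm_le_pi (y : ℝ) : ‖chi y‖ ≤ Real.pi := by
  unfold chi
  have h1 : ∀ w ∈ Set.Ioc (0 : ℝ) 1, ‖((2 * Real.pi * (1 - w) : ℝ) : ℂ) *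
      Complex.exp ((2 * Real.pi * (w * y) : ℝ) * Complex.I)‖ ≤ 2 * Real.pi * (1 - w) := by
    intro w hw
    have hw1 : 0 ≤ 1 - w := by linarith [hw.2]
    rw [norm_mul, Complex.norm_exp_ofReal_mul_I, mul_one, Complex.norm_real, Real.norm_eq_abs,
      abs_of_nonneg (by positivity)]
  have h2 : IntervalIntegrable (fun w : ℝ => 2 * Real.pi * (1 - w)) volume 0 1 := by
    apply Continuous.intervalIntegrable
    fun_prop
  refine (intervalIntegral.norm_integral_le_of_norm_le zero_le_one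
    (Filter.Eventually.of_forall h1) h2).trans (le_of_eq ?_)
  rw [intervalIntegral.integral_const_mul, intervalIntegral.integral_sub]
  · simp
    ring
  · exact intervalIntegrable_const
  · exact intervalIntegral.intervalIntegrable_id

theorem norm_chi_le (y : ℝ) : ‖chi y‖ ≤ 6 / (1 + |y|) := by
  have h0 : 0 ≤ |y| := abs_nonneg y
  rw [le_div_iff₀ (by linarith)]
  have h1 := Chi_norm_le_pi y
  have h2 : |y| * ‖chi y‖ ≤ 2 := by
    have h3 : ‖(y : ℂ) * chi y‖ = |y| * ‖chi y‖ := by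
      rw [norm_mul, Complex.norm_real, Real.norm_eq_abs]
    rw [← h3]
    have h4 : (y : ℂ) * chi y = ((y : ℂ) * chi y - Complex.I) + Complex.I := by ring
    rw [h4]
    refine (norm_add_le _ _).trans ?_
    rw [Complex.norm_I]
    linarith [Chi_sub_le_one y]
  have hpi := Real.pi_lt_four
  nlinarith

theorem continuous_hb (g : ℤ → E 2) (c R : ℝ) (j : ℤ) : Continuous (hb g c R j) := by
  unfold hb Yf
  have h1 : Continuous fun u : E 2 => chi (-⟪g (j - 1), u⟫) :=
    continuous_chi.comp (continuous_const.inner continuous_id).neg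
  have h2 : Continuous fun u : E 2 => chi ⟪g (j + 1), u⟫ :=
    continuous_chi.comp (continuous_const.inner continuous_id)
  have h3 : Continuous fun u : E 2 =>
      Complex.exp ((2 * Real.pi * (⟪nu g c j, u⟫ / R) : ℝ) * Complex.I) := by
    have h4 : Continuous fun u : E 2 => (⟪nu g c j, u⟫ : ℝ) := continuous_const.inner continuous_id
    fun_prop
  exact ((continuous_const.mul h1).mul h2).mul h3

theorem norm_hb_le (g : ℤ → E 2) (c R : ℝ) (j : ℤ) (u : E 2) :
    ‖hb g c R j u‖ ≤ 18 * |bq g j| / ((1 + |Yf g (j - 1) u|) * (1 + |Yf g (j + 1) u|)) := by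
  unfold hb
  rw [norm_mul, norm_mul, norm_mul, Complex.norm_exp_ofReal_mul_I, mul_one, Complex.norm_real,
    Real.norm_eq_abs, abs_mul]
  have h1 := norm_chi_le (-(Yf g (j - 1) u))
  have h2 := norm_chi_le (Yf g (j + 1) u)
  rw [abs_neg] at h1
  have h3 : |-(1 / 2 : ℝ)| = 1 / 2 := by norm_num
  rw [h3]
  have hb0 : 0 ≤ 1 / 2 * |bq g j| := by positivity
  have h4 : 1 / 2 * |bq g j| * ‖chi (-(Yf g (j - 1) u))‖ * ‖chi (Yf g (j + 1) u)‖ ≤
      1 / 2 * |bq g j| * (6 / (1 + |Yf g (j - 1) u|)) * (6 / (1 + |Yf g (j + 1) u|)) := by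
    apply mul_le_mul (mul_le_mul_of_nonneg_left h1 hb0) h2 (norm_nonneg _)
    have : 0 ≤ |Yf g (j - 1) u| := abs_nonneg _
    positivity
  refine h4.trans (le_of_eq ?_)
  have h5 : (1 + |Yf g (j - 1) u|) ≠ 0 := by
    have : 0 ≤ |Yf g (j - 1) u| := abs_nonneg _
    positivity
  have h6 : (1 + |Yf g (j + 1) u|) ≠ 0 := by
    have : 0 ≤ |Yf g (j + 1) u| := abs_nonneg _
    positivity
  field_simp
  ring

end Pool.Agent.MPbd65ca.Pg
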