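import Pool.Agent.Lib.MP_bd65ca_an.Pg.Inner

/-!
# The Turán problem for polygons: the body near the middles of the sides
-/

open MeasureTheory FourierTransform Pointwise Set Filter Topology
open scoped RealInnerProductSpace

namespace Pool.Agent.MPbd65ca.Pg

variable {k : ℕ} {g : ℤ → E 2}

theorem Coef_dt_le (a b : E 2) : |dt a b| ≤ 2 * ‖a‖ * ‖b‖ := by
  unfold dt
  have h1 : ∀ (v : E 2) (i : Fin 2), |v i| ≤ ‖v‖ := fun v i => PiLp.norm_apply_le v i
  have h2 := abs_sub (a 0 * b 1) (a 1 * b 0)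
  rw [abs_mul, abs_mul] at h2
  have h3 := mul_le_mul (h1 a 0) (h1 b 1) (abs_nonneg _) (norm_nonneg a)
  have h4 := mul_le_mul (h1 a 1) (h1 b 0) (abs_nonneg _) (norm_nonneg a)
  linarith

/-- A positive periodic function has a positive lower bound. -/
theorem Coef_min (k : ℕ) (hk : 0 < k) (f : ℤ → ℝ) (hf : ∀ j, f (j + k) = f j)
    (hpos : ∀ j, 0 < f j) : ∃ D : ℝ, 0 < D ∧ ∀ j, D ≤ f j := by
  obtain ⟨i, hi, hmin⟩ := Finset.exists_min_image (Finset.range k) (fun i : ℕ => f i)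
    ⟨0, Finset.mem_range.2 hk⟩
  refine ⟨f i, hpos _, fun j => ?_⟩
  obtain ⟨l, hl, hj⟩ := exists_per k hk f hf j
  rw [hj]
  exact hmin l (Finset.mem_range.2 hl)

/-- Small vectors are combinations of the two neighbouring sides with small coefficients. -/
theorem Zon.exists_coeff (h : Zon k g) : ∃ c : ℝ, 0 < c ∧ ∀ (j : ℤ) (ξ : E 2), ‖ξ‖ ≤ 1 →
    ∃ α β : ℝ, |α| ≤ c ∧ |β| ≤ c ∧ ξ = α • (-g (j - 1)) + β • g (j + 1) := by
  have hk := h.hk
  obtain ⟨L, hL0, hL, -⟩ := h.norm_le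
  have hpos : ∀ j, 0 < dt (g (j - 1)) (g (j + 1)) := fun j =>
    h.pos _ _ (by omega) (by omega)
  obtain ⟨D, hD0, hD⟩ := Coef_min k (by omega) (fun j => dt (g (j - 1)) (g (j + 1)))
    (fun j => by
      have e1 : j + k - 1 = j - 1 + k := by ring
      have e2 : j + k + 1 = j + 1 + k := by ring
      rw [e1, e2, h.anti, h.anti, dt_neg_left, dt_neg_right, neg_neg]) hpos
  refine ⟨2 * L / D, by positivity, fun j ξ hξ => ?_⟩
  set p := g (j - 1) with hp
  set q := g (j + 1) with hq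
  have hDj : D ≤ dt p q := hD j
  have hdt : 0 < dt p q := hpos j
  have key : ∀ v : E 2, ‖v‖ ≤ L → |dt v ξ / dt p q| ≤ 2 * L / D := by
    intro v hv
    rw [abs_div, abs_of_pos hdt]
    have h1 := Coef_dt_le v ξ
    have h2 : 2 * ‖v‖ * ‖ξ‖ ≤ 2 * L := by
      have := mul_le_mul hv hξ (norm_nonneg _) hL0.le
      linarith
    exact div_le_div₀ (by positivity) (h1.trans h2) hD0 hDj
  refine ⟨dt q ξ / dt p q, dt p ξ / dt p q, key q (hL _), key p (hL _), ?_⟩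
  have h3 := dt_comb p q ξ
  have h4 : dt p q • ξ = dt q ξ • (-p) + dt p ξ • q := by
    have e : dt ξ p = -dt p ξ := dt_swap _ _
    rw [e, neg_smul] at h3
    have := eq_neg_of_add_eq_zero_right h3
    rw [this, smul_neg]
    abel
  have h5 := congrArg (fun v => (dt p q)⁻¹ • v) h4
  simp only [smul_add, smul_smul] at h5
  rw [inv_mul_cancel₀ hdt.ne', one_smul] at h5
  rw [div_eq_inv_mul, div_eq_inv_mul]
  exact h5

/-- The spectra of the terms of the middles of the sides lie in the body. -/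
theorem Zon.exists_nu (h : Zon k g) : ∃ c T₀ : ℝ, 0 ≤ c ∧ 0 < T₀ ∧ ∀ R : ℝ, 1 ≤ R →
    ∀ T : ℝ, T₀ ≤ T → ∀ (j : ℤ) (p : ℝ × ℝ), p ∈ Icc (0 : ℝ × ℝ) 1 →
      Metric.closedBall (vx k g j + vx k g (j + 1) + T⁻¹ • (R⁻¹ • nu g c j +
        p.1 • (-g (j - 1)) + p.2 • g (j + 1))) (1 / R / T) ⊆ (zg k g + zg k g) \ {0} := by
  have hk := h.hk
  obtain ⟨L, hL0, hL, -⟩ := h.norm_le
  obtain ⟨c, hc0, hc⟩ := h.exists_coeff
  obtain ⟨δ, hδ0, hδ⟩ := Coef_min k (by omega) (fun j => ‖vx k g j + vx k g (j + 1)‖)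
    (fun j => by
      have e1 : j + k + 1 = j + 1 + k := by ring
      rw [e1, h.vx_anti, h.vx_anti, ← neg_add, norm_neg])
    (fun j => by
      rw [norm_pos_iff]
      have := h.sum_ne j (m := 1) (by omega)
      exact_mod_cast this)
  refine ⟨c, 1 + (2 * c + 1) + 2 * L * (2 * c + 1) / δ, hc0.le, by positivity, ?_⟩
  intro R hR T hT j p hp y hy
  have hq0 : 0 ≤ 2 * L * (2 * c + 1) / δ := by positivity
  have hT0 : 0 < T := by linarith
  have hR0 : 0 < R := by linarith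
  have hT1 : 2 * c + 1 ≤ T := by linarith
  have hT2 : 2 * L * (2 * c + 1) < δ * T := by
    have : 2 * L * (2 * c + 1) / δ < T := by linarith
    rwa [div_lt_iff₀ hδ0, mul_comm T δ] at this
  obtain ⟨hp0, hp1⟩ := hp
  have hp01 : 0 ≤ p.1 := hp0.1
  have hp02 : 0 ≤ p.2 := hp0.2
  have hp11 : p.1 ≤ 1 := hp1.1
  have hp12 : p.2 ≤ 1 := hp1.2
  set m := vx k g j + vx k g (j + 1) with hm
  set ce := m + T⁻¹ • (R⁻¹ • nu g c j + p.1 • (-g (j - 1)) + p.2 • g (j + 1)) with hce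
  set ξ := y - ce with hξ
  have hξ1 : ‖(R * T) • ξ‖ ≤ 1 := by
    rw [Metric.mem_closedBall, dist_eq_norm] at hy
    rw [norm_smul, Real.norm_eq_abs, abs_of_pos (by positivity)]
    calc R * T * ‖ξ‖ ≤ R * T * (1 / R / T) := mul_le_mul_of_nonneg_left hy (by positivity)
      _ = 1 := by field_simp
  obtain ⟨α, β, hα, hβ, hαβ⟩ := hc j _ hξ1
  rw [abs_le] at hα hβ
  set A := T⁻¹ * (R⁻¹ * (c + α) + p.1) with hA
  set B := T⁻¹ * (R⁻¹ * (c + β) + p.2) with hB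
  have hTi : 0 < T⁻¹ := by positivity
  have hRi : 0 < R⁻¹ := by positivity
  have hRi1 : R⁻¹ ≤ 1 := inv_le_one_of_one_le₀ hR
  have hbd : ∀ z t : ℝ, 0 ≤ z → z ≤ 2 * c → 0 ≤ t → t ≤ 1 → 0 ≤ T⁻¹ * (R⁻¹ * z + t) ∧
      T⁻¹ * (R⁻¹ * z + t) ≤ T⁻¹ * (2 * c + 1) := by
    intro z t h0 h1 h2 h3
    refine ⟨by positivity, mul_le_mul_of_nonneg_left ?_ hTi.le⟩
    have : R⁻¹ * z ≤ 1 * z := mul_le_mul_of_nonneg_right hRi1 h0
    linarith
  obtain ⟨hA0, hA1⟩ := hbd (c + α) p.1 (by linarith [hα.1]) (by linarith [hα.2]) hp01 hp11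
  obtain ⟨hB0, hB1⟩ := hbd (c + β) p.2 (by linarith [hβ.1]) (by linarith [hβ.2]) hp02 hp12
  rw [← hA] at hA0 hA1
  rw [← hB] at hB0 hB1
  have hTT : T⁻¹ * (2 * c + 1) ≤ 1 := by
    rw [inv_mul_le_iff₀ hT0]
    linarith
  have hξ2 : ξ = (T⁻¹ * R⁻¹) • (α • (-g (j - 1)) + β • g (j + 1)) := by
    rw [← hαβ, smul_smul]
    have : T⁻¹ * R⁻¹ * (R * T) = 1 := by field_simp
    rw [this, one_smul]
  have hyeq : y = m + A • (-g (j - 1)) + B • g (j + 1) := by
    have e1 : y = ce + ξ := by rw [hξ]; abel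
    rw [e1, hξ2, hce, hA, hB]
    unfold nu
    module
  have hhalf : (1 / 2 : ℝ) • y ∈ zg k g := by
    have := h.side_mem j (a := A / 2) (b := B / 2) (by linarith) (by linarith) (by linarith)
      (by linarith)
    rw [hyeq]
    convert this using 1
    module
  refine ⟨?_, ?_⟩
  · refine ⟨_, hhalf, _, hhalf, ?_⟩
    change (1 / 2 : ℝ) • y + (1 / 2 : ℝ) • y = y
    module
  · intro h0
    rw [mem_singleton_iff] at h0
    have e1 : m = -(A • (-g (j - 1)) + B • g (j + 1)) := by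
      rw [h0] at hyeq
      have : m + (A • (-g (j - 1)) + B • g (j + 1)) = 0 := by
        rw [← add_assoc]
        exact hyeq.symm
      exact eq_neg_of_add_eq_zero_left this
    have e2 : ‖m‖ ≤ A * L + B * L := by
      rw [e1, norm_neg]
      refine (norm_add_le _ _).trans ?_
      rw [norm_smul, norm_smul, norm_neg, Real.norm_eq_abs, Real.norm_eq_abs, abs_of_nonneg hA0,
        abs_of_nonneg hB0]
      exact add_le_add (mul_le_mul_of_nonneg_left (hL _) hA0)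
        (mul_le_mul_of_nonneg_left (hL _) hB0)
    have e3 : δ ≤ ‖m‖ := hδ j
    have e4 : A * L + B * L ≤ 2 * (T⁻¹ * (2 * c + 1)) * L := by
      have e5 := mul_le_mul_of_nonneg_right hA1 hL0.le
      have e6 := mul_le_mul_of_nonneg_right hB1 hL0.le
      linarith
    have e5 : δ ≤ 2 * (T⁻¹ * (2 * c + 1)) * L := e3.trans (e2.trans e4)
    have e6 : 2 * (T⁻¹ * (2 * c + 1)) * L = T⁻¹ * (2 * L * (2 * c + 1)) := by ring
    rw [e6, le_inv_mul_iff₀ hT0] at e5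
    linarith [mul_comm T δ]

end Pool.Agent.MPbd65ca.Pg
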