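import Pool.Agent.Lib.MP_bd65ca_an.Pg.Basic

/-!
# The Turán problem for polygons: the sum over the vertices
-/

open MeasureTheory FourierTransform Pointwise Set
open scoped RealInnerProductSpace

namespace Pool.Agent.MPbd65ca.Pg

variable {k : ℕ} {g : ℤ → E 2}

/-- The term of the vertex `j`. -/
noncomputable def xk (g : ℤ → E 2) (z : ℤ → Circle) (u : E 2) (j : ℤ) : ℝ :=
  tau g j / (Yf g (j - 1) u * Yf g j u) * cr z j

/-- The weight of the vertex `j`. -/
noncomputable def Nk (g : ℤ → E 2) (u : E 2) (j : ℤ) : ℝ :=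
  (Yf g (j - 1) u ^ 2 + Yf g j u ^ 2) / tau g j ^ 2

/-- The term of the side `j`. -/
noncomputable def Sk (g : ℤ → E 2) (z : ℤ → Circle) (u : E 2) (j : ℤ) : ℝ :=
  (cr z j - cr z (j + 1)) / Yf g j u

private theorem QuadA_pred (h : Zon k g) (u : E 2) (j : ℤ) :
    Yf g (j + k - 1) u = -Yf g (j - 1) u := by
  rw [← h.Yf_anti]
  congr 1
  ring

theorem Zon.xk_per (h : Zon k g) {z : ℤ → Circle} (hz : Ph k z) (u : E 2) (j : ℤ) :
    xk g z u (j + k) = xk g z u j := by
  unfold xk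
  rw [h.tau_per, QuadA_pred h, h.Yf_anti, cr_per hz, neg_mul_neg]

theorem Zon.Nk_per (h : Zon k g) (u : E 2) (j : ℤ) : Nk g u (j + k) = Nk g u j := by
  unfold Nk
  rw [h.tau_per, QuadA_pred h, h.Yf_anti, neg_sq, neg_sq]

theorem Zon.Sk_per (h : Zon k g) {z : ℤ → Circle} (hz : Ph k z) (u : E 2) (j : ℤ) :
    Sk g z u (j + k) = -Sk g z u j := by
  unfold Sk
  have h1 : j + k + 1 = j + 1 + k := by ring
  rw [h1, cr_per hz, cr_per hz, h.Yf_anti, div_neg]

private theorem QuadA_step (n : ℕ) (Y : ℤ → ℝ) (hY : ∀ j, Y (j + (n + 1 : ℕ)) = -Y j) (i : ℤ) :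
    ∏ l ∈ Finset.range (n + 1), Y (i + 1 + l) = -∏ l ∈ Finset.range (n + 1), Y (i + l) := by
  rw [Finset.prod_range_succ, Finset.prod_range_succ' (fun l : ℕ => Y (i + l))]
  have h1 : i + 1 + (n : ℤ) = i + ((n + 1 : ℕ) : ℤ) := by push_cast; ring
  have h2 : ∀ l : ℕ, Y (i + 1 + l) = Y (i + ((l + 1 : ℕ) : ℤ)) := by
    intro l
    congr 1
    push_cast
    ring
  rw [h1, hY, Finset.prod_congr rfl fun l _ => h2 l]
  simp

private theorem QuadA_win (h : Zon k g) (u : E 2) (j : ℕ) :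
    ∏ l ∈ Finset.range k, Yf g ((j : ℤ) - 1 + l) u =
      -((-1) ^ j * ∏ l ∈ Finset.range k, Yf g l u) := by
  obtain ⟨n, hn⟩ : ∃ n, k = n + 1 := ⟨k - 1, by have := h.hk; omega⟩
  subst hn
  have hY : ∀ j : ℤ, Yf g (j + (n + 1 : ℕ)) u = -Yf g j u := fun j => h.Yf_anti j u
  induction j with
  | zero =>
    have h1 := QuadA_step n (fun j => Yf g j u) hY (-1)
    simp only [neg_add_cancel, zero_add] at h1
    rw [pow_zero, one_mul, h1, neg_neg]
    simp
  | succ j ih =>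
    have h1 := QuadA_step n (fun j => Yf g j u) hY ((j : ℤ) - 1)
    simp only [sub_add_cancel] at h1
    have h2 : (((j + 1 : ℕ) : ℤ) - 1) = j := by push_cast; ring
    rw [h2, h1, ih, pow_succ]
    ring

theorem Zon.Zt_eq (h : Zon k g) {z : ℤ → Circle} (hz : Ph k z) {u : E 2}
    (hu : ∀ j, Yf g j u ≠ 0) :
    Zt k g z u = -(∏ l ∈ Finset.range k, Yf g l u) * ∑ j ∈ Finset.range k, xk g z u j := by
  unfold Zt
  rw [Finset.mul_sum]
  refine Finset.sum_congr rfl fun j _ => ?_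
  have h1 := QuadA_win h u j
  obtain ⟨n, hn⟩ : ∃ n, k = n + 2 := ⟨k - 2, by have := h.hk; omega⟩
  have h2 : ∏ l ∈ Finset.range k, Yf g ((j : ℤ) - 1 + l) u =
      (∏ l ∈ Finset.range (k - 2), Yf g (j + 1 + l) u) * Yf g j u * Yf g (j - 1) u := by
    subst hn
    rw [Finset.prod_range_succ', Finset.prod_range_succ']
    have e0 : (j : ℤ) - 1 + ((0 : ℕ) : ℤ) = j - 1 := by simp
    have e1 : (j : ℤ) - 1 + ((0 + 1 : ℕ) : ℤ) = j := by simp
    have e2 : ∀ l : ℕ, Yf g ((j : ℤ) - 1 + ((l + 1 + 1 : ℕ) : ℤ)) u =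
        Yf g ((j : ℤ) + 1 + l) u := by
      intro l
      congr 1
      push_cast
      ring
    rw [e0, e1, Finset.prod_congr rfl fun l _ => e2 l]
    simp
  rw [h2] at h1
  have h3 := hu j
  have h4 := hu (j - 1)
  unfold xk
  have h5 : ((-1 : ℝ) ^ j) * (-1) ^ j = 1 := by
    rw [← mul_pow]
    norm_num
  set P := ∏ l ∈ Finset.range (k - 2), Yf g (j + 1 + l) u with hP
  set W := ∏ l ∈ Finset.range k, Yf g l u with hW
  have h6 : (-1) ^ j * P = -W / (Yf g (j - 1) u * Yf g j u) := by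
    rw [eq_div_iff (mul_ne_zero h4 h3)]
    have : (-1) ^ j * P * (Yf g (j - 1) u * Yf g j u) =
        (-1) ^ j * (P * Yf g j u * Yf g (j - 1) u) := by ring
    rw [this, h1]
    linear_combination (-W) * h5
  calc (-1) ^ j * tau g j * P * cr z j = ((-1) ^ j * P) * (tau g j * cr z j) := by ring
    _ = _ := by
      rw [h6]
      ring

/-- On a singular line the neighbouring cosines are equal on the zero set. -/
theorem Zon.Zt_line (h : Zon k g) {z : ℤ → Circle} (hz : Ph k z) {u : E 2} (hu : u ≠ 0) {j : ℤ}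
    (hj : Yf g j u = 0) (h0 : Zt k g z u = 0) : cr z j = cr z (j + 1) := by
  obtain ⟨c0, hc0, htwo⟩ := h.two_forms
  have hnz : ∀ l : ℤ, j < l → l < j + k → Yf g l u ≠ 0 := by
    intro l h1 h2 h3
    have h4 := htwo u j l h1 h2
    rw [hj, h3, abs_zero, max_self] at h4
    have h5 : 0 < c0 * ‖u‖ := mul_pos hc0 (norm_pos_iff.2 hu)
    linarith
  obtain ⟨n, hn⟩ : ∃ n, k = n + 3 := ⟨k - 3, by have := h.hk; omega⟩
  have hn1 : 1 ≤ n := by have := h.hk; omega
  subst hn
  have hk2 : n + 3 - 2 = n + 1 := by omega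
  set T : ℤ → ℝ := fun i => (-1 : ℝ) ^ i * tau g i *
    (∏ l ∈ Finset.range (n + 1), Yf g (i + 1 + l) u) * cr z i with hT
  have hm1 : (-1 : ℝ) ≠ 0 := by norm_num
  have hTper : ∀ i, T (i + (n + 3 : ℕ)) = T i := by
    intro i
    simp only [hT]
    rw [h.tau_per, cr_per hz]
    have e1 : ∏ l ∈ Finset.range (n + 1), Yf g (i + (n + 3 : ℕ) + 1 + l) u =
        (-1) ^ (n + 1) * ∏ l ∈ Finset.range (n + 1), Yf g (i + 1 + l) u := by
      have e2 : ∀ l : ℕ, Yf g (i + (n + 3 : ℕ) + 1 + l) u = (-1) * Yf g (i + 1 + l) u := by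
        intro l
        have e3 : i + (n + 3 : ℕ) + 1 + (l : ℤ) = i + 1 + l + (n + 3 : ℕ) := by ring
        rw [e3, h.Yf_anti]
        ring
      rw [Finset.prod_congr rfl fun l _ => e2 l, Finset.prod_mul_distrib, Finset.prod_const,
        Finset.card_range]
    rw [e1, zpow_add₀ hm1, zpow_natCast]
    have e4 : ((-1 : ℝ) ^ (n + 3)) * (-1) ^ (n + 1) = 1 := by
      rw [← pow_add]
      have : n + 3 + (n + 1) = 2 * (n + 2) := by ring
      rw [this, pow_mul]
      norm_num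
    linear_combination ((-1 : ℝ) ^ i * tau g i *
      (∏ l ∈ Finset.range (n + 1), Yf g (i + 1 + l) u) * cr z i) * e4
  have hZ : Zt (n + 3) g z u = ∑ l ∈ Finset.range (n + 3), T l := by
    unfold Zt
    refine Finset.sum_congr rfl fun l _ => ?_
    simp only [hT]
    rw [zpow_natCast, hk2]
  rw [hZ, ← sum_window (n + 3) T hTper j] at h0
  -- only two terms are left
  have hzero : ∀ l : ℕ, 2 ≤ l → l < n + 3 → T (j + l) = 0 := by
    intro l h1 h2
    simp only [hT]
    have e1 : ∏ l' ∈ Finset.range (n + 1), Yf g (j + l + 1 + l') u = 0 := by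
      refine Finset.prod_eq_zero (i := n + 2 - l) (Finset.mem_range.2 (by omega)) ?_
      have e2 : j + (l : ℤ) + 1 + ((n + 2 - l : ℕ) : ℤ) = j + (n + 3 : ℕ) := by
        rw [Nat.cast_sub (by omega)]
        push_cast
        ring
      rw [e2, h.Yf_anti, hj, neg_zero]
    rw [e1]
    ring
  have hsum : ∑ l ∈ Finset.range (n + 3), T (j + l) = T j + T (j + 1) := by
    have e1 : n + 3 = 2 + (n + 1) := by ring
    rw [e1, Finset.sum_range_add]
    have e2 : ∑ x ∈ Finset.range (n + 1), T (j + ((2 + x : ℕ) : ℤ)) = 0 := by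
      refine Finset.sum_eq_zero fun x hx => ?_
      exact hzero (2 + x) (by omega) (by have := Finset.mem_range.1 hx; omega)
    rw [e2, Finset.sum_range_succ, Finset.sum_range_one]
    simp
  rw [hsum] at h0
  simp only [hT] at h0
  set Q := ∏ l ∈ Finset.range n, Yf g (j + 2 + l) u with hQd
  have hQ : Q ≠ 0 := by
    rw [hQd, Finset.prod_ne_zero_iff]
    intro l hl
    have := Finset.mem_range.1 hl
    exact hnz _ (by omega) (by push_cast; omega)
  have p1 : ∏ l ∈ Finset.range (n + 1), Yf g (j + 1 + l) u = Q * Yf g (j + 1) u := by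
    rw [Finset.prod_range_succ']
    have e2 : ∀ l : ℕ, Yf g (j + 1 + ((l + 1 : ℕ) : ℤ)) u = Yf g (j + 2 + l) u := by
      intro l
      congr 1
      push_cast
      ring
    rw [Finset.prod_congr rfl fun l _ => e2 l]
    simp [hQd]
  have p2 : ∏ l ∈ Finset.range (n + 1), Yf g (j + 1 + 1 + l) u = Q * -Yf g (j - 1) u := by
    rw [Finset.prod_range_succ, ← h.Yf_anti]
    have e2 : ∀ l : ℕ, Yf g (j + 1 + 1 + l) u = Yf g (j + 2 + l) u := by
      intro l
      congr 1
      ring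
    rw [Finset.prod_congr rfl fun l _ => e2 l]
    congr 2
    push_cast
    ring
  rw [p1, p2, zpow_add_one₀ hm1] at h0
  have hrel : (tau g j)⁻¹ * Yf g (j - 1) u + (tau g (j + 1))⁻¹ * Yf g (j + 1) u = 0 := by
    have e1 := congrArg (fun v => ⟪v, u⟫) (h.gam_rel j)
    simp only [inner_add_left, real_inner_smul_left] at e1
    have e2 : ⟪g j, u⟫ = 0 := hj
    rw [e2, mul_zero] at e1
    exact e1
  have ht1 := h.tau_pos j
  have ht2 := h.tau_pos (j + 1)
  have hrel2 : tau g (j + 1) * Yf g (j - 1) u = -(tau g j * Yf g (j + 1) u) := by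
    field_simp at hrel
    linarith
  have hY1 : Yf g (j + 1) u ≠ 0 := hnz _ (by omega) (by push_cast; omega)
  have hs : ((-1 : ℝ) ^ j) ≠ 0 := zpow_ne_zero j hm1
  have key : (-1 : ℝ) ^ j * (Q * (tau g j * (Yf g (j + 1) u * (cr z j - cr z (j + 1))))) = 0 := by
    linear_combination h0 - (-1 : ℝ) ^ j * Q * cr z (j + 1) * hrel2
  have k1 := (mul_eq_zero.1 key).resolve_left hs
  have k2 := (mul_eq_zero.1 k1).resolve_left hQ
  have k3 := (mul_eq_zero.1 k2).resolve_left ht1.ne'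
  have k4 := (mul_eq_zero.1 k3).resolve_left hY1
  linarith

end Pool.Agent.MPbd65ca.Pg
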