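import Pool.Agent.Lib.MP_bd65ca_an.Pg.Tri
import Pool.Agent.Lib.MP_bd65ca_an.Pg.QuadA
import Pool.Agent.Lib.MP_bd65ca_an.CosT

/-!
# The Turán problem for polygons: the cosine transform of the polygon
-/

open MeasureTheory FourierTransform Pointwise Set
open scoped RealInnerProductSpace

namespace Pool.Agent.MPbd65ca.Pg

variable {k : ℕ} {g : ℤ → E 2}

theorem CosZ_dense {w : E 2} (hw : w ≠ 0) : Dense {x : E 2 | ⟪x, w⟫ ≠ 0} := by
  intro x
  by_cases hx : ⟪x, w⟫ = 0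
  · rw [Metric.mem_closure_iff]
    intro ε hε
    have hw' : 0 < ‖w‖ := norm_pos_iff.2 hw
    refine ⟨x + (ε / (2 * ‖w‖)) • w, ?_, ?_⟩
    · show ⟪x + (ε / (2 * ‖w‖)) • w, w⟫ ≠ 0
      rw [inner_add_left, hx, zero_add, real_inner_smul_left, real_inner_self_eq_norm_sq]
      positivity
    · rw [dist_eq_norm, sub_add_cancel_left, norm_neg, norm_smul, Real.norm_eq_abs,
        abs_of_pos (by positivity)]
      have : ε / (2 * ‖w‖) * ‖w‖ = ε / 2 := by
        field_simp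
      rw [this]
      linarith
  · exact subset_closure hx

theorem CosZ_open (w : E 2) : IsOpen {x : E 2 | ⟪x, w⟫ ≠ 0} := by
  have h1 : Continuous fun x : E 2 => ⟪x, w⟫ := by fun_prop
  exact isOpen_ne_fun h1 continuous_const

theorem CosZ_cr (k : ℕ) (g : ℤ → E 2) (x : E 2) (j : ℤ) :
    cr (zc k g x) j = Real.cos (2 * Real.pi * ⟪x, vx k g j⟫) := by
  unfold cr zc
  rw [Real.fourierChar_apply, Complex.exp_ofReal_mul_I_re]

theorem CosZ_vdet {a b : E 2} (h : 0 < dt a b) : vdet ![a, b] = dt a b := by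
  unfold vdet
  rw [Matrix.det_fin_two]
  simp only [Matrix.of_apply, Matrix.cons_val_zero, Matrix.cons_val_one]
  have h1 : a 0 * b 1 - a 1 * b 0 = dt a b := rfl
  rw [h1, abs_of_pos h]

theorem CosZ_li {a b : E 2} (h : 0 < dt a b) : LinearIndependent ℝ ![a, b] := by
  rw [LinearIndependent.pair_iff]
  intro s t hst
  have h1 : dt (s • a + t • b) b = 0 := by
    rw [hst, dt_zero_left]
  have h2 : dt a (s • a + t • b) = 0 := by
    rw [hst, dt_zero_right]
  rw [dt_add_left, dt_smul_left, dt_smul_left, dt_self, mul_zero, add_zero] at h1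
  rw [dt_add_right, dt_smul_right, dt_smul_right, dt_self, mul_zero, zero_add] at h2
  exact ⟨(mul_eq_zero.1 h1).resolve_right h.ne', (mul_eq_zero.1 h2).resolve_right h.ne'⟩

/-- The cosine transform of a triangle. -/
theorem CosZ_tri {a b : E 2} (h : 0 < dt a b) {x : E 2} (ha : ⟪x, a⟫ ≠ 0) (hb : ⟪x, b⟫ ≠ 0)
    (hab : ⟪x, a⟫ ≠ ⟪x, b⟫) :
    ∫ y in spx 0 ![a, b], Real.cos (2 * Real.pi * ⟪x, y⟫) =
      ((2 * Real.pi) ^ 2)⁻¹ * (-(dt a b / (⟪x, a⟫ * ⟪x, b⟫)) +
        dt a b / (⟪x, a⟫ * (⟪x, b⟫ - ⟪x, a⟫)) * Real.cos (2 * Real.pi * ⟪x, a⟫) -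
        dt a b / (⟪x, b⟫ * (⟪x, b⟫ - ⟪x, a⟫)) * Real.cos (2 * Real.pi * ⟪x, b⟫)) := by
  have hg : good ![a, b] x := by
    constructor
    · intro i
      fin_cases i
      · exact ha
      · exact hb
    · intro i l hil
      fin_cases i <;> fin_cases l
      · exact absurd rfl hil
      · exact hab
      · exact hab.symm
      · exact absurd rfl hil
  rw [spx_cos 0 ![a, b] (CosZ_li h) x hg, Fintype.sum_option, Fin.sum_univ_two]
  have e0 : cf ![a, b] x none = dt a b / (⟪x, a⟫ * ⟪x, b⟫) := by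
    show vdet ![a, b] * (∏ i, -⟪x, ![a, b] i⟫)⁻¹ = _
    rw [CosZ_vdet h, Fin.prod_univ_two]
    simp only [Matrix.cons_val_zero, Matrix.cons_val_one]
    rw [neg_mul_neg, div_eq_mul_inv]
  have er0 : (Finset.univ : Finset (Fin 2)).erase 0 = {1} := by decide
  have er1 : (Finset.univ : Finset (Fin 2)).erase 1 = {0} := by decide
  have e1 : cf ![a, b] x (some 0) = -(dt a b / (⟪x, a⟫ * (⟪x, b⟫ - ⟪x, a⟫))) := by
    show vdet ![a, b] * (⟪x, ![a, b] 0⟫ * ∏ l ∈ Finset.univ.erase (0 : Fin 2),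
      (⟪x, ![a, b] 0⟫ - ⟪x, ![a, b] l⟫))⁻¹ = _
    rw [CosZ_vdet h, er0, Finset.prod_singleton]
    simp only [Matrix.cons_val_zero, Matrix.cons_val_one]
    rw [← div_eq_mul_inv, ← neg_sub ⟪x, b⟫ ⟪x, a⟫, mul_neg, div_neg]
  have e2 : cf ![a, b] x (some 1) = dt a b / (⟪x, b⟫ * (⟪x, b⟫ - ⟪x, a⟫)) := by
    show vdet ![a, b] * (⟪x, ![a, b] 1⟫ * ∏ l ∈ Finset.univ.erase (1 : Fin 2),
      (⟪x, ![a, b] 1⟫ - ⟪x, ![a, b] l⟫))⁻¹ = _
    rw [CosZ_vdet h, er1, Finset.prod_singleton]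
    simp only [Matrix.cons_val_zero, Matrix.cons_val_one]
    rw [← div_eq_mul_inv]
  have p0 : Real.cos (ph x (vt 0 ![a, b] none)) = -1 := by
    have : ph x (vt 0 ![a, b] none) = -Real.pi := by
      simp only [ph, vt, inner_zero_right]
      push_cast
      ring
    rw [this, Real.cos_neg, Real.cos_pi]
  have p1 : Real.cos (ph x (vt 0 ![a, b] (some 0))) = -Real.cos (2 * Real.pi * ⟪x, a⟫) := by
    have : ph x (vt 0 ![a, b] (some 0)) = 2 * Real.pi * ⟪x, a⟫ - Real.pi := by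
      simp only [ph, vt, zero_add, Matrix.cons_val_zero]
      push_cast
      ring
    rw [this, Real.cos_sub_pi]
  have p2 : Real.cos (ph x (vt 0 ![a, b] (some 1))) = -Real.cos (2 * Real.pi * ⟪x, b⟫) := by
    have : ph x (vt 0 ![a, b] (some 1)) = 2 * Real.pi * ⟪x, b⟫ - Real.pi := by
      simp only [ph, vt, zero_add, Matrix.cons_val_one]
      push_cast
      ring
    rw [this, Real.cos_sub_pi]
  rw [e0, e1, e2, p0, p1, p2]
  congr 1
  ring

/-- The generic case. -/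
theorem CosZ_generic (h : Zon k g) {x : E 2} (ha : ∀ j : ℤ, ⟪x, vx k g j⟫ ≠ 0)
    (hY : ∀ j : ℤ, ⟪x, g j⟫ ≠ 0) :
    cosT (zg k g) x * ∏ l ∈ Finset.range k, Yf g l x =
      -(1 / (2 * Real.pi ^ 2)) * Zt k g (zc k g x) x := by
  have hk := h.hk
  have hYf : ∀ j : ℤ, Yf g j x = ⟪x, g j⟫ := fun j => real_inner_comm _ _
  have hYf0 : ∀ j : ℤ, Yf g j x ≠ 0 := fun j => by rw [hYf]; exact hY j
  have hYa : ∀ j : ℤ, ⟪x, vx k g (j + 1)⟫ - ⟪x, vx k g j⟫ = Yf g j x := by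
    intro j
    rw [h.vx_succ, inner_add_right, hYf]
    ring
  have hD : ∀ j : ℤ, 0 < dt (vx k g j) (vx k g (j + 1)) := fun j =>
    h.dt_vx_vx (by omega) (by omega)
  -- the triangles
  have htri : ∀ j : ℤ, ∫ y in spx 0 ![vx k g j, vx k g (j + 1)],
      Real.cos (2 * Real.pi * ⟪x, y⟫) = ((2 * Real.pi) ^ 2)⁻¹ *
        (-(dt (vx k g j) (vx k g (j + 1)) / (⟪x, vx k g j⟫ * ⟪x, vx k g (j + 1)⟫)) +
        dt (vx k g j) (vx k g (j + 1)) / (⟪x, vx k g j⟫ * Yf g j x) * cr (zc k g x) j -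
        dt (vx k g j) (vx k g (j + 1)) / (⟪x, vx k g (j + 1)⟫ * Yf g j x) *
          cr (zc k g x) (j + 1)) := by
    intro j
    have hne : ⟪x, vx k g j⟫ ≠ ⟪x, vx k g (j + 1)⟫ := by
      intro he
      have := hYa j
      rw [he, sub_self] at this
      exact hYf0 j this.symm
    rw [CosZ_tri (hD j) (ha j) (ha (j + 1)) hne, hYa, CosZ_cr, CosZ_cr]
  -- the constant terms
  have hx0 : ‖x‖ ^ 2 ≠ 0 := by
    intro h0
    have : x = 0 := by
      rw [← norm_eq_zero]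
      exact pow_eq_zero_iff (two_ne_zero) |>.1 h0
    exact ha 0 (by rw [this, inner_zero_left])
  have hconst : ∑ j ∈ Finset.range k,
      dt (vx k g (j : ℤ)) (vx k g ((j : ℤ) + 1)) /
        (⟪x, vx k g (j : ℤ)⟫ * ⟪x, vx k g ((j : ℤ) + 1)⟫) = 0 := by
    have h1 : ∀ j : ℕ, dt (vx k g (j : ℤ)) (vx k g ((j : ℤ) + 1)) /
        (⟪x, vx k g (j : ℤ)⟫ * ⟪x, vx k g ((j : ℤ) + 1)⟫) =
        (‖x‖ ^ 2)⁻¹ * (dt x (vx k g ((j + 1 : ℕ) : ℤ)) / ⟪x, vx k g ((j + 1 : ℕ) : ℤ)⟫ -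
          dt x (vx k g (j : ℤ)) / ⟪x, vx k g (j : ℤ)⟫) := by
      intro j
      push_cast
      have h2 := ha (j : ℤ)
      have h3 := ha ((j : ℤ) + 1)
      have h4 : dt (vx k g (j : ℤ)) (vx k g ((j : ℤ) + 1)) * ‖x‖ ^ 2 =
          ⟪x, vx k g (j : ℤ)⟫ * dt x (vx k g ((j : ℤ) + 1)) -
          ⟪x, vx k g ((j : ℤ) + 1)⟫ * dt x (vx k g (j : ℤ)) := by
        rw [← real_inner_self_eq_norm_sq]
        simp only [dt, PiLp.inner_apply, Fin.sum_univ_two, RCLike.inner_apply, conj_trivial]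
        ring
      rw [div_sub_div _ _ h3 h2, eq_comm, inv_mul_eq_div, div_div,
        div_eq_div_iff (mul_ne_zero (mul_ne_zero h3 h2) hx0) (mul_ne_zero h2 h3)]
      linear_combination (-(⟪x, vx k g (j : ℤ)⟫ * ⟪x, vx k g ((j : ℤ) + 1)⟫)) * h4
    rw [Finset.sum_congr rfl fun j _ => h1 j, ← Finset.mul_sum,
      Finset.sum_range_sub (fun j : ℕ => dt x (vx k g (j : ℤ)) / ⟪x, vx k g (j : ℤ)⟫)]
    have h5 : vx k g (k : ℤ) = -vx k g ((0 : ℕ) : ℤ) := by
      have := h.vx_anti 0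
      rw [zero_add] at this
      rw [this]
      rfl
    rw [h5, dt_neg_right, inner_neg_right, neg_div_neg_eq, sub_self, mul_zero]
  -- the shift of the second cosine
  have hshift : ∑ j ∈ Finset.range k, dt (vx k g (j : ℤ)) (vx k g ((j : ℤ) + 1)) /
      (⟪x, vx k g ((j : ℤ) + 1)⟫ * Yf g (j : ℤ) x) * cr (zc k g x) ((j : ℤ) + 1) =
      ∑ j ∈ Finset.range k, dt (vx k g ((j : ℤ) - 1)) (vx k g (j : ℤ)) /
      (⟪x, vx k g (j : ℤ)⟫ * Yf g ((j : ℤ) - 1) x) * cr (zc k g x) (j : ℤ) := by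
    have h1 := sum_window k (fun j : ℤ => dt (vx k g (j - 1)) (vx k g j) /
      (⟪x, vx k g j⟫ * Yf g (j - 1) x) * cr (zc k g x) j) (fun j => by
        have e1 : j + (k : ℤ) - 1 = j - 1 + k := by ring
        rw [e1, h.vx_anti, h.vx_anti, h.Yf_anti, cr_per (h.ph_zc x), dt_neg_left, dt_neg_right,
          neg_neg, inner_neg_right, neg_mul_neg]) 1
    rw [← h1]
    refine Finset.sum_congr rfl fun j _ => ?_
    have e1 : (1 : ℤ) + j = j + 1 := by ring
    simp only [e1, add_sub_cancel_right]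
  -- the coefficient of the vertex
  have hcoef : ∀ j : ℤ, dt (vx k g j) (vx k g (j + 1)) / (⟪x, vx k g j⟫ * Yf g j x) *
      cr (zc k g x) j - dt (vx k g (j - 1)) (vx k g j) / (⟪x, vx k g j⟫ * Yf g (j - 1) x) *
      cr (zc k g x) j = xk g (zc k g x) x j := by
    intro j
    have e1 : dt (vx k g j) (vx k g (j + 1)) = dt (vx k g j) (g j) := by
      rw [h.vx_succ, dt_add_right, dt_self, zero_add]
    have e2 : dt (vx k g (j - 1)) (vx k g j) = dt (vx k g j) (g (j - 1)) := by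
      have := h.vx_succ (j - 1)
      rw [sub_add_cancel] at this
      have e3 : vx k g (j - 1) = vx k g j - g (j - 1) := by
        rw [this]
        abel
      rw [e3, dt_sub_left, dt_self, dt_swap (vx k g j) (g (j - 1))]
      ring
    have e4 := congrArg (fun v => ⟪x, v⟫) (dt_comb (vx k g j) (g (j - 1)) (g j))
    simp only [inner_add_right, real_inner_smul_right, inner_zero_right] at e4
    rw [← hYf, ← hYf, dt_swap (vx k g j) (g j)] at e4
    have e5 : dt (g (j - 1)) (g j) = tau g j := rfl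
    rw [e5] at e4
    have hY1 := hYf0 j
    have hY2 := hYf0 (j - 1)
    have ha1 := ha j
    rw [e1, e2]
    unfold xk
    rw [← sub_mul]
    congr 1
    rw [div_sub_div _ _ (mul_ne_zero ha1 hY1) (mul_ne_zero ha1 hY2),
      div_eq_div_iff (mul_ne_zero (mul_ne_zero ha1 hY1) (mul_ne_zero ha1 hY2))
        (mul_ne_zero hY2 hY1)]
    linear_combination (-(⟪x, vx k g j⟫ * Yf g j x * Yf g (j - 1) x)) * e4
  have hsum : cosT (zg k g) x = 2 * (((2 * Real.pi) ^ 2)⁻¹ *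
      ∑ j ∈ Finset.range k, xk g (zc k g x) x j) := by
    rw [h.cosT_sum x, Finset.sum_congr rfl fun (j : ℕ) _ => htri (j : ℤ), ← Finset.mul_sum,
      Finset.sum_sub_distrib, Finset.sum_add_distrib, Finset.sum_neg_distrib, hconst, neg_zero,
      zero_add, hshift, ← Finset.sum_sub_distrib]
    congr 2
    exact Finset.sum_congr rfl fun (j : ℕ) _ => hcoef (j : ℤ)
  rw [hsum, h.Zt_eq (h.ph_zc x) hYf0]
  have hpi : Real.pi ≠ 0 := Real.pi_ne_zero
  field_simp

theorem Zon.cosT_zg (h : Zon k g) (x : E 2) :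
    cosT (zg k g) x * ∏ l ∈ Finset.range k, Yf g l x =
      -(1 / (2 * Real.pi ^ 2)) * Zt k g (zc k g x) x := by
  have hk := h.hk
  have hV : ∀ j : ℤ, vx k g j ≠ 0 := by
    intro j h0
    have := h.dt_vx_vx (i := j) (l := j + 1) (by omega) (by omega)
    rw [h0, dt_zero_left] at this
    exact lt_irrefl _ this
  have hg : ∀ j : ℤ, g j ≠ 0 := by
    intro j h0
    have := h.pos j (j + 1) (by omega) (by omega)
    rw [h0, dt_zero_left] at this
    exact lt_irrefl _ this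
  have hdense : Dense (⋂ j : ℤ, ({x : E 2 | ⟪x, vx k g j⟫ ≠ 0} ∩ {x : E 2 | ⟪x, g j⟫ ≠ 0})) := by
    refine dense_iInter_of_isOpen (fun j => (CosZ_open _).inter (CosZ_open _)) (fun j => ?_)
    exact (CosZ_dense (hV j)).inter_of_isOpen_left (CosZ_dense (hg j)) (CosZ_open _)
  have hYc : ∀ j : ℤ, Continuous fun x : E 2 => Yf g j x := by
    intro j
    unfold Yf
    fun_prop
  have hc1 : Continuous fun x : E 2 => cosT (zg k g) x * ∏ l ∈ Finset.range k, Yf g l x := by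
    refine (cosT_props (isCompact_zg k g) (neg_mem_zg k g)).1.mul ?_
    exact continuous_finsetProd _ fun l _ => hYc l
  have hc2 : Continuous fun x : E 2 => -(1 / (2 * Real.pi ^ 2)) * Zt k g (zc k g x) x := by
    refine continuous_const.mul ?_
    unfold Zt
    refine continuous_finsetSum _ fun j _ => ?_
    refine (continuous_const.mul (continuous_finsetProd _ fun l _ => hYc _)).mul ?_
    simp only [CosZ_cr]
    fun_prop
  have heq := Continuous.ext_on hdense hc1 hc2 (fun y hy => by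
    rw [Set.mem_iInter] at hy
    exact CosZ_generic h (fun j => (hy j).1) (fun j => (hy j).2))
  exact congrFun heq x

end Pool.Agent.MPbd65ca.Pg
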