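import Pool.Agent.Lib.MP_bd65ca_an.Pg.SelA

/-!
# The Turán problem for polygons: compactness
-/

open MeasureTheory FourierTransform Pointwise Set Filter Topology
open scoped RealInnerProductSpace

namespace Pool.Agent.MPbd65ca.Pg

variable {k : ℕ} {g : ℤ → E 2}

theorem compact_add {X : Type*} [TopologicalSpace X] {K : Set X} (hK : IsCompact K) {f q : X → ℝ}
    (hf : Continuous f) (hq : Continuous q) (hpos : ∀ x ∈ K, q x = 0 → 0 < f x) :
    ∃ C ε : ℝ, 0 ≤ C ∧ 0 < ε ∧ ∀ x ∈ K, ε ≤ f x + C * q x ^ 2 := by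
  rcases K.eq_empty_or_nonempty with rfl | hne
  · exact ⟨0, 1, le_rfl, one_pos, fun x hx => absurd hx (Set.notMem_empty x)⟩
  have hcont : ∀ n : ℕ, Continuous fun x => f x + (n : ℝ) * q x ^ 2 := fun n =>
    hf.add ((hq.pow 2).const_mul _)
  obtain ⟨n, hn⟩ := hK.elim_directed_cover (fun n : ℕ => {x | 0 < f x + (n : ℝ) * q x ^ 2})
    (fun n => isOpen_lt continuous_const (hcont n)) (by
      intro x hx
      rw [Set.mem_iUnion]
      by_cases h0 : q x = 0
      · refine ⟨0, ?_⟩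
        have h1 := hpos x hx h0
        simpa using h1
      · have h1 : 0 < q x ^ 2 := by positivity
        obtain ⟨n, hn⟩ := exists_nat_gt (-(f x) / q x ^ 2)
        refine ⟨n, ?_⟩
        rw [div_lt_iff₀ h1] at hn
        show 0 < f x + (n : ℝ) * q x ^ 2
        linarith) (by
      refine (monotone_nat_of_le_succ fun n => ?_).directed_le
      intro x hx
      have h1 : 0 < f x + (n : ℝ) * q x ^ 2 := hx
      show 0 < f x + ((n + 1 : ℕ) : ℝ) * q x ^ 2
      have h2 : 0 ≤ q x ^ 2 := sq_nonneg _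
      push_cast
      nlinarith)
  obtain ⟨x₀, hx₀, hmin⟩ := hK.exists_isMinOn hne (hcont n).continuousOn
  exact ⟨n, f x₀ + (n : ℝ) * q x₀ ^ 2, Nat.cast_nonneg n, hn hx₀, fun x hx => hmin hx⟩

/-- The inequality for all phases in a ball. -/
theorem exists_cpt (k : ℕ) (g : ℤ → E 2) {c R CE c2 : ℝ} (hR : 0 < R) {Φ : E 2 → ℝ}
    (hΦ : Continuous Φ) {M : ℝ} {a : E 2 → Ix → ℂ} (ha : Continuous a)
    (hpos : ∀ u z, Ph k z → Zt k g z u = 0 →
        0 < Φ u * (hp k g c R z u + ip k g (a u) z + ez k g R CE c2 u) + M) (S : ℝ) :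
    ∃ C ε : ℝ, 0 ≤ C ∧ 0 < ε ∧ ∀ u z, ‖u‖ ≤ S → Ph k z →
      ε ≤ Φ u * (hp k g c R z u + ip k g (a u) z + ez k g R CE c2 u) + M +
        C * Zt k g z u ^ 2 := by
  have hK : IsCompact ({z : ℤ → Circle | Ph k z} ×ˢ Metric.closedBall (0 : E 2) S) :=
    (isCompact_Ph k).prod (isCompact_closedBall 0 S)
  have hf : Continuous fun p : (ℤ → Circle) × E 2 =>
      Φ p.2 * (hp k g c R p.1 p.2 + ip k g (a p.2) p.1 + ez k g R CE c2 p.2) + M := by
    have h1 : Continuous fun p : (ℤ → Circle) × E 2 => ip k g (a p.2) p.1 :=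
      (continuous_ip k g).comp (continuous_fst.prodMk (ha.comp continuous_snd))
    exact ((hΦ.comp continuous_snd).mul (((continuous_hp k g c R).add h1).add
      ((continuous_ez k g hR CE c2).comp continuous_snd))).add continuous_const
  obtain ⟨C, ε, hC, hε, h⟩ := compact_add hK hf (continuous_Zt k g)
    (fun p hp h0 => hpos p.2 p.1 hp.1 h0)
  refine ⟨C, ε, hC, hε, fun u z hu hz => ?_⟩
  exact h (z, u) ⟨hz, by simpa using hu⟩

end Pool.Agent.MPbd65ca.Pg
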