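import Pool.Agent.Lib.MP_bd65ca_an.Perturb

/-!
# The Turán problem for polygons: definitions

The sides of a centrally symmetric polygon, its vertices, the sum over the vertices which describes
its Fourier transform, and the functions which occur in the perturbation.
-/

open MeasureTheory FourierTransform Pointwise Set
open scoped RealInnerProductSpace

namespace Pool.Agent.MPbd65ca.Pg

/-- The determinant of two vectors of the plane. -/
def dt (a b : E 2) : ℝ := a 0 * b 1 - a 1 * b 0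

/-- The sides `g 0, ..., g (k - 1)` of half of a centrally symmetric polygon with `2 k ≥ 8` sides, in
their angular order, extended to all integers by `g (j + k) = -g j`. -/
structure Zon (k : ℕ) (g : ℤ → E 2) : Prop where
  hk : 4 ≤ k
  anti : ∀ j : ℤ, g (j + k) = -g j
  pos : ∀ i l : ℤ, i < l → l < i + k → 0 < dt (g i) (g l)

/-- The vertices of the polygon. -/
noncomputable def vx (k : ℕ) (g : ℤ → E 2) (j : ℤ) : E 2 :=
  (-(1 / 2) : ℝ) • ∑ l ∈ Finset.range k, g (j + l)

/-- The polygon with the sides `g`, as a zonogon. -/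
def zg (k : ℕ) (g : ℤ → E 2) : Set (E 2) :=
  {y | ∃ lam : ℕ → ℝ, (∀ l, |lam l| ≤ 1 / 2) ∧ y = ∑ l ∈ Finset.range k, lam l • g l}

/-- The linear form of the side `g j`. -/
noncomputable def Yf (g : ℤ → E 2) (j : ℤ) (u : E 2) : ℝ := ⟪g j, u⟫

/-- The determinant of the two sides which meet in the vertex `j`. -/
def tau (g : ℤ → E 2) (j : ℤ) : ℝ := dt (g (j - 1)) (g j)

/-- `g (j - 1) / tau j + g (j + 1) / tau (j + 1) = gam j * g j`. -/
noncomputable def gam (g : ℤ → E 2) (j : ℤ) : ℝ :=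
  dt (g (j - 1)) (g (j + 1)) / (tau g j * tau g (j + 1))

/-- The coefficient of the pair of the vertices `j` and `j + 1`. -/
noncomputable def bq (g : ℤ → E 2) (j : ℤ) : ℝ :=
  ((tau g j)⁻¹ ^ 2 + (tau g (j + 1))⁻¹ ^ 2 + gam g j ^ 2) * (tau g j * tau g (j + 1))

/-- Systems of phases of the vertices. -/
def Ph (k : ℕ) (z : ℤ → Circle) : Prop := ∀ j : ℤ, z (j + k) = (z j)⁻¹

/-- The cosine of the phase of the vertex `j`. -/
noncomputable def cr (z : ℤ → Circle) (j : ℤ) : ℝ := (z j : ℂ).re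

/-- The sum over the vertices, multiplied by the product of the linear forms. -/
noncomputable def Zt (k : ℕ) (g : ℤ → E 2) (z : ℤ → Circle) (u : E 2) : ℝ :=
  ∑ j ∈ Finset.range k, (-1) ^ j * tau g j *
    (∏ l ∈ Finset.range (k - 2), Yf g (j + 1 + l) u) * cr z j

/-- The phases of the vertices at the point `u`. -/
noncomputable def zc (k : ℕ) (g : ℤ → E 2) (u : E 2) (j : ℤ) : Circle :=
  Real.fourierChar ⟪u, vx k g j⟫

/-- The indices of the frequencies: `(p, q, α, β)` stands for `α V_p + β V_q`. -/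
abbrev Ix := ℤ × ℤ × ℤ × ℤ

/-- The monomial of an index. -/
noncomputable def mono (n : Ix) (z : ℤ → Circle) : Circle :=
  z n.1 ^ n.2.2.1 * z n.2.1 ^ n.2.2.2

/-- The frequency of an index. -/
noncomputable def fq (k : ℕ) (g : ℤ → E 2) (n : Ix) : E 2 :=
  (n.2.2.1 : ℝ) • vx k g n.1 + (n.2.2.2 : ℝ) • vx k g n.2.1

/-- The indices of the frequencies different from `0` in the interior of the body. -/
noncomputable def Fr (k : ℕ) (g : ℤ → E 2) : Finset Ix :=
  open Classical in
  (Finset.Icc (-2 : ℤ) (2 * k + 2) ×ˢ Finset.Icc (-2 : ℤ) (2 * k + 2) ×ˢ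
    Finset.Icc (-2 : ℤ) 2 ×ˢ Finset.Icc (-2 : ℤ) 2).filter
    (fun n => (1 / 2 : ℝ) • fq k g n ∈ interior (zg k g) ∧ fq k g n ≠ 0)

/-- The trigonometric polynomials of the frequencies in the interior. -/
noncomputable def ip (k : ℕ) (g : ℤ → E 2) (a : Ix → ℂ) (z : ℤ → Circle) : ℝ :=
  ∑ n ∈ Fr k g, (a n * (mono n z : ℂ)).re

/-- A function of one variable with spectrum in `[0, 1]`, close to `i / y`. -/
noncomputable def chi (y : ℝ) : ℂ :=
  ∫ ω in (0 : ℝ)..1, ((2 * Real.pi * (1 - ω) : ℝ) : ℂ) *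
    Complex.exp ((2 * Real.pi * (ω * y) : ℝ) * Complex.I)

/-- A vector which points from the middle of the side `j` into the polygon. -/
noncomputable def nu (g : ℤ → E 2) (c : ℝ) (j : ℤ) : E 2 := c • (g (j + 1) - g (j - 1))

/-- The function with the frequency in the middle of the side `j` of the body. -/
noncomputable def hb (g : ℤ → E 2) (c R : ℝ) (j : ℤ) (u : E 2) : ℂ :=
  ((-(1 / 2) * bq g j : ℝ) : ℂ) * chi (-(Yf g (j - 1) u)) * chi (Yf g (j + 1) u) *
    Complex.exp ((2 * Real.pi * (⟪nu g c j, u⟫ / R) : ℝ) * Complex.I)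

/-- The error terms. -/
noncomputable def eE (k : ℕ) (g : ℤ → E 2) (R : ℝ) (u : E 2) : ℝ :=
  (R * (1 + ‖u‖))⁻¹ + ∑ j ∈ Finset.range k, ((1 + ‖u‖ ^ 2) * (1 + |Yf g j u|))⁻¹

/-- The constant term. -/
noncomputable def ez (k : ℕ) (g : ℤ → E 2) (R CE c2 : ℝ) (u : E 2) : ℝ :=
  CE * eE k g R u - c2 / (1 + ‖u‖ ^ 2)

/-- The terms of the middles of the sides. -/
noncomputable def hp (k : ℕ) (g : ℤ → E 2) (c R : ℝ) (z : ℤ → Circle) (u : E 2) : ℝ :=
  ∑ j ∈ Finset.range k, (hb g c R j u * ((z j : ℂ) * (z (j + 1) : ℂ))).re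

end Pool.Agent.MPbd65ca.Pg
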