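import Pool.Agent.Lib.MP_bd65ca_an.Pg.EdgeC

/-!
# The Turán problem for polygons: symmetric polygons are zonogons
-/

open MeasureTheory FourierTransform Pointwise Set
open scoped RealInnerProductSpace

namespace Pool.Agent.MPbd65ca.Pg

theorem Vert.zon {k : ℕ} {x : ℤ → E 2} {W : Set (E 2)} (v : Vert k x W) (hW : IsBody W)
    (hk : 4 ≤ k) : Zon k (fun j => x (j + 1) - x j) ∧ zg k (fun j => x (j + 1) - x j) = W := by
  have hz : Zon k (fun j => x (j + 1) - x j) := by
    refine ⟨hk, fun j => ?_, fun i l h1 h2 => v.sides hW i l h1 h2⟩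
    have e : j + (k : ℤ) + 1 = j + 1 + k := by ring
    show x (j + k + 1) - x (j + k) = -(x (j + 1) - x j)
    rw [e, v.anti, v.anti]
    abel
  have hvx : ∀ j, vx k (fun j => x (j + 1) - x j) j = x j := by
    intro j
    have h1 : ∑ l ∈ Finset.range k, (x (j + l + 1) - x (j + l)) = x (j + k) - x j := by
      have h2 := Finset.sum_range_sub (fun l : ℕ => x (j + l)) k
      simp only [Nat.cast_zero, add_zero] at h2
      rw [← h2]
      refine Finset.sum_congr rfl fun l _ => ?_
      push_cast
      rw [add_assoc]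
    show (-(1 / 2) : ℝ) • ∑ l ∈ Finset.range k, (x (j + l + 1) - x (j + l)) = x j
    rw [h1, v.anti]
    ext i
    simp only [PiLp.smul_apply, PiLp.sub_apply, PiLp.neg_apply, smul_eq_mul]
    ring
  have hmem : ∀ j, x j ∈ W := by
    intro j
    apply extremePoints_subset (𝕜 := ℝ)
    rw [v.ext]
    exact mem_range_self j
  have h0 : (0 : E 2) ∈ W := by
    have h1 := hW.convex (hmem 0) (hW.neg_mem _ (hmem 0)) (by norm_num : (0 : ℝ) ≤ 1 / 2)
      (by norm_num : (0 : ℝ) ≤ 1 / 2) (by norm_num)
    rwa [smul_neg, add_neg_cancel] at h1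
  refine ⟨hz, Subset.antisymm ?_ ?_⟩
  · intro y hy
    obtain ⟨j, a, b, ha, hb, rfl⟩ := hz.exists_cone y
    rw [hz.cone_mem j ha hb] at hy
    rw [hvx, hvx]
    rcases eq_or_lt_of_le (add_nonneg ha hb) with h1 | h1
    · have ha' : a = 0 := by linarith
      have hb' : b = 0 := by linarith
      rw [ha', hb', zero_smul, zero_smul, add_zero]
      exact h0
    · have h2 : (a / (a + b)) • x j + (b / (a + b)) • x (j + 1) ∈ W :=
        hW.convex (hmem j) (hmem (j + 1)) (by positivity) (by positivity) (by field_simp)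
      have h3 := hW.convex h2 h0 (add_nonneg ha hb) (sub_nonneg.2 hy) (by ring)
      rw [smul_zero, add_zero, smul_add, smul_smul, smul_smul] at h3
      have e1 : (a + b) * (a / (a + b)) = a := by field_simp
      have e2 : (a + b) * (b / (a + b)) = b := by field_simp
      rwa [e1, e2] at h3
  · rw [← closure_convexHull_extremePoints hW.isCompact hW.convex, v.ext]
    refine closure_minimal (convexHull_min ?_ (convex_zg _ _)) (isCompact_zg _ _).isClosed
    rintro _ ⟨j, rfl⟩
    rw [← hvx j]
    exact hz.vx_mem j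

end Pool.Agent.MPbd65ca.Pg
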