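import Pool.Agent.Lib.MP_bd65ca_an.Pg.Half

/-!
# The Turán problem for polygons: the vertices of a symmetric polygon in their order
-/

open MeasureTheory FourierTransform Pointwise Set
open scoped RealInnerProductSpace

namespace Pool.Agent.MPbd65ca.Pg

variable {k : ℕ} {g : ℤ → E 2}

/-- The vertices of a symmetric polygon in their angular order, extended to all integers. -/
structure Vert (k : ℕ) (x : ℤ → E 2) (W : Set (E 2)) : Prop where
  hk : 2 ≤ k
  anti : ∀ j : ℤ, x (j + k) = -x j
  pos : ∀ i l : ℤ, i < l → l < i + k → 0 < dt (x i) (x l)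
  ext : extremePoints ℝ W = range x

/-- the origin is an interior point -/
theorem EdgeA_zero {W : Set (E 2)} (h : IsBody W) : (0 : E 2) ∈ interior W := by
  obtain ⟨p, hp⟩ := h.nonempty_interior
  have hn : -p ∈ W := h.neg_mem _ (interior_subset hp)
  have := h.convex.combo_interior_self_mem_interior hp hn (a := 1 / 2) (b := 1 / 2)
    (by norm_num) (by norm_num) (by norm_num)
  simpa using this

/-- extreme points are symmetric -/
theorem EdgeA_neg {W : Set (E 2)} (hW : IsBody W) {x : E 2} (hx : x ∈ extremePoints ℝ W) :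
    -x ∈ extremePoints ℝ W := by
  rw [mem_extremePoints_iff_left] at hx ⊢
  refine ⟨hW.neg_mem _ hx.1, fun a ha b hb hab => ?_⟩
  have h1 : x ∈ openSegment ℝ (-a) (-b) := by
    obtain ⟨s, t, hs, ht, hst, h⟩ := hab
    refine ⟨s, t, hs, ht, hst, ?_⟩
    rw [smul_neg, smul_neg, ← neg_add, h, neg_neg]
  have h2 := hx.2 _ (hW.neg_mem _ ha) _ (hW.neg_mem _ hb) h1
  rw [← h2, neg_neg]

/-- a nonzero point of a body -/
theorem EdgeA_ne {W : Set (E 2)} (hW : IsBody W) {x : E 2} (hx : x ∈ extremePoints ℝ W) :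
    x ≠ 0 := by
  rintro rfl
  obtain ⟨r, hr, hb⟩ := Metric.mem_nhds_iff.1 (mem_interior_iff_mem_nhds.1 (EdgeA_zero hW))
  have h1 : (!₂[r / 2, 0] : E 2) ∈ W := by
    apply hb
    rw [mem_ball_zero_iff, EuclideanSpace.norm_eq, Fin.sum_univ_two]
    simp only [Matrix.cons_val_zero, Matrix.cons_val_one, norm_zero]
    have : ‖r / 2‖ ^ 2 + 0 ^ 2 = (r / 2) ^ 2 := by
      rw [Real.norm_eq_abs, sq_abs]
      ring
    rw [this, Real.sqrt_sq (by positivity)]
    linarith
  rw [mem_extremePoints_iff_left] at hx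
  have h2 : (0 : E 2) ∈ openSegment ℝ (!₂[r / 2, 0] : E 2) (-(!₂[r / 2, 0] : E 2)) := by
    refine ⟨1 / 2, 1 / 2, by norm_num, by norm_num, by norm_num, ?_⟩
    rw [smul_neg, add_neg_cancel]
  have h3 := hx.2 _ h1 _ (hW.neg_mem _ h1) h2
  have h4 := congrArg (fun v : E 2 => v 0) h3
  simp at h4
  linarith

/-- a body is not contained in a line through the origin -/
theorem EdgeA_line {W : Set (E 2)} (hW : IsBody W) {p : E 2} (hp : p ≠ 0) :
    ¬ ∀ x ∈ extremePoints ℝ W, dt p x = 0 := by
  intro h
  have h1 : W ⊆ {z : E 2 | dt p z = 0} := by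
    rw [← closure_convexHull_extremePoints hW.isCompact hW.convex]
    refine closure_minimal (convexHull_min h ?_) ?_
    · intro a ha b hb s t _ _ _
      simp only [mem_ofPred_eq] at ha hb ⊢
      rw [dt_add_right, dt_smul_right, dt_smul_right, ha, hb]
      ring
    · refine isClosed_eq ?_ continuous_const
      unfold dt
      fun_prop
  obtain ⟨r, hr, hb⟩ := Metric.mem_nhds_iff.1 (mem_interior_iff_mem_nhds.1 (EdgeA_zero hW))
  have hp0 : 0 < ‖p‖ := norm_pos_iff.2 hp
  have h2 : ((r / (2 * ‖p‖)) • (!₂[-p 1, p 0] : E 2)) ∈ W := by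
    apply hb
    rw [mem_ball_zero_iff, norm_smul, norm_rot, Real.norm_eq_abs,
      abs_of_pos (by positivity)]
    have : r / (2 * ‖p‖) * ‖p‖ = r / 2 := by
      field_simp
    rw [this]
    linarith
  have h3 : dt p ((r / (2 * ‖p‖)) • (!₂[-p 1, p 0] : E 2)) = 0 := h1 h2
  rw [dt_smul_right] at h3
  have h4 : dt p (!₂[-p 1, p 0] : E 2) = p 0 ^ 2 + p 1 ^ 2 := by
    simp [dt]
    ring
  rw [h4] at h3
  have h5 : p 0 ^ 2 + p 1 ^ 2 = 0 := by
    rcases mul_eq_zero.1 h3 with h | h
    · exact absurd h (by positivity)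
    · exact h
  apply hp
  have h6 : p 0 = 0 := by nlinarith [sq_nonneg (p 0), sq_nonneg (p 1)]
  have h7 : p 1 = 0 := by nlinarith [sq_nonneg (p 0), sq_nonneg (p 1)]
  ext i
  fin_cases i
  · exact h6
  · exact h7

/-- two extreme points on a ray coincide -/
theorem EdgeA_ray {W : Set (E 2)} (hW : IsBody W) {x y : E 2} (hx : x ∈ extremePoints ℝ W)
    (hy : y ∈ extremePoints ℝ W) {t : ℝ} (h1 : 0 < x 0 + t * x 1) (h2 : 0 < y 0 + t * y 1)
    (h : dt x y = 0) : x = y := by
  have key : ∀ x y : E 2, x ∈ extremePoints ℝ W → y ∈ extremePoints ℝ W →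
      0 < x 0 + t * x 1 → 0 < y 0 + t * y 1 → dt x y = 0 →
      x 0 + t * x 1 ≤ y 0 + t * y 1 → x = y := by
    intro x y hx hy h1 h2 h h3
    unfold dt at h
    have e : x = ((x 0 + t * x 1) / (y 0 + t * y 1)) • y := by
      ext i
      fin_cases i
      · simp only [Fin.zero_eta, PiLp.smul_apply, smul_eq_mul]
        rw [div_mul_eq_mul_div, eq_div_iff h2.ne']
        linear_combination t * h
      · simp only [Fin.mk_one, PiLp.smul_apply, smul_eq_mul]
        rw [div_mul_eq_mul_div, eq_div_iff h2.ne']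
        linear_combination -h
    rcases h3.lt_or_eq with h3 | h3
    · exfalso
      rw [mem_extremePoints_iff_left] at hx
      have hs : x ∈ openSegment ℝ (0 : E 2) y := by
        refine ⟨1 - (x 0 + t * x 1) / (y 0 + t * y 1), (x 0 + t * x 1) / (y 0 + t * y 1), ?_, ?_,
          ?_, ?_⟩
        · rw [sub_pos, div_lt_one h2]
          exact h3
        · positivity
        · ring
        · rw [smul_zero, zero_add]
          exact e.symm
      have h4 := hx.2 0 (interior_subset (EdgeA_zero hW)) y hy.1 hs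
      rw [← h4] at h1
      simp at h1
    · rw [h3, div_self h2.ne', one_smul] at e
      exact e
  rcases le_total (x 0 + t * x 1) (y 0 + t * y 1) with h3 | h3
  · exact key x y hx hy h1 h2 h h3
  · exact (key y x hy hx h2 h1 (by rw [dt_swap, h, neg_zero]) h3).symm

/-- The vertices of a symmetric polygon can be ordered. -/
theorem exists_vert {W : Set (E 2)} (hW : IsBody W) (hfin : (extremePoints ℝ W).Finite) :
    ∃ (k : ℕ) (x : ℤ → E 2), Vert k x W ∧ (extremePoints ℝ W).ncard = 2 * k := by
  classical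
  obtain ⟨t, ht⟩ : ∃ t : ℝ, ∀ x ∈ extremePoints ℝ W, x 0 + t * x 1 ≠ 0 := by
    obtain ⟨t, ht⟩ := (hfin.image (fun x : E 2 => -x 0 / x 1)).infinite_compl.nonempty
    refine ⟨t, fun x hx h => ?_⟩
    by_cases h1 : x 1 = 0
    · apply EdgeA_ne hW hx
      ext i
      fin_cases i
      · simpa [h1] using h
      · simpa using h1
    · apply ht
      refine ⟨x, hx, ?_⟩
      simp only
      rw [div_eq_iff h1]
      linarith
  set P : Set (E 2) := {x | x ∈ extremePoints ℝ W ∧ 0 < x 0 + t * x 1} with hP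
  have hPfin : P.Finite := hfin.subset fun x hx => hx.1
  set r : E 2 → ℝ := fun x => (x 1 - t * x 0) / (x 0 + t * x 1) with hr
  have hdt : ∀ x y : E 2, 0 < x 0 + t * x 1 → 0 < y 0 + t * y 1 →
      dt x y * (1 + t ^ 2) = (x 0 + t * x 1) * (y 0 + t * y 1) * (r y - r x) := by
    intro x y h1 h2
    simp only [hr, dt]
    have h3 := h1.ne'
    have h4 := h2.ne'
    rw [div_sub_div _ _ h4 h3, mul_div_assoc', eq_div_iff (mul_ne_zero h4 h3)]
    ring
  have hinj : ∀ x ∈ P, ∀ y ∈ P, r x = r y → x = y := by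
    intro x hx y hy h
    refine EdgeA_ray hW hx.1 hy.1 hx.2 hy.2 ?_
    have h1 := hdt x y hx.2 hy.2
    rw [h, sub_self, mul_zero] at h1
    rcases mul_eq_zero.1 h1 with h2 | h2
    · exact h2
    · nlinarith [sq_nonneg t]
  have hpos : ∀ x ∈ P, ∀ y ∈ P, r x < r y → 0 < dt x y := by
    intro x hx y hy h
    have h1 := hdt x y hx.2 hy.2
    have h2 : 0 < (x 0 + t * x 1) * (y 0 + t * y 1) * (r y - r x) :=
      mul_pos (mul_pos hx.2 hy.2) (sub_pos.2 h)
    rw [← h1] at h2
    exact pos_of_mul_pos_left h2 (by positivity)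
  set S : Finset ℝ := hPfin.toFinset.image r with hS
  set k : ℕ := S.card with hk
  have hcard : P.ncard = k := by
    rw [hk, hS, Finset.card_image_of_injOn, Set.ncard_eq_toFinset_card _ hPfin]
    intro x hx y hy h
    have hx' : x ∈ P := by simpa using hx
    have hy' : y ∈ P := by simpa using hy
    exact hinj x hx' y hy' h
  have hex : ∀ i : ℕ, ∃ x : E 2, ∀ hi : i < k, x ∈ P ∧ r x = S.orderEmbOfFin rfl ⟨i, hi⟩ := by
    intro i
    by_cases hi : i < k
    · have h1 : S.orderEmbOfFin rfl ⟨i, hi⟩ ∈ hPfin.toFinset.image r :=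
        Finset.orderEmbOfFin_mem S rfl ⟨i, hi⟩
      rw [Finset.mem_image] at h1
      obtain ⟨x, hx, h2⟩ := h1
      exact ⟨x, fun _ => ⟨by simpa using hx, h2⟩⟩
    · exact ⟨0, fun h => absurd h hi⟩
  choose y hy using hex
  have hyP : ∀ i, i < k → y i ∈ P := fun i hi => (hy i hi).1
  have hymono : ∀ i l, i < l → l < k → 0 < dt (y i) (y l) := by
    intro i l hil hl
    have hi : i < k := hil.trans hl
    refine hpos _ (hyP i hi) _ (hyP l hl) ?_
    rw [(hy i hi).2, (hy l hl).2]
    exact (S.orderEmbOfFin rfl).strictMono (by exact hil)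
  have hysurj : ∀ x ∈ P, ∃ i, i < k ∧ y i = x := by
    intro x hx
    have h1 : r x ∈ S := by
      rw [hS, Finset.mem_image]
      exact ⟨x, by simpa using hx, rfl⟩
    have h2 : r x ∈ Set.range (S.orderEmbOfFin rfl) := by
      rw [Finset.range_orderEmbOfFin]
      exact h1
    obtain ⟨i, hi⟩ := h2
    refine ⟨i, i.2, hinj _ (hyP i i.2) _ hx ?_⟩
    rw [(hy i i.2).2]
    exact hi
  have hXP : ∀ x ∈ extremePoints ℝ W, x ∈ P ∨ -x ∈ P := by
    intro x hx
    rcases lt_or_gt_of_ne (ht x hx) with h | h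
    · right
      refine ⟨EdgeA_neg hW hx, ?_⟩
      simp only [PiLp.neg_apply]
      linarith
    · exact Or.inl ⟨hx, h⟩
  have hk2 : 2 ≤ k := by
    by_contra hlt
    have hne : ∃ p : E 2, p ≠ 0 ∧ ∀ i, i < k → y i = p := by
      rcases Nat.eq_zero_or_pos k with h0 | h0
      · refine ⟨!₂[1, 0], fun h => ?_, fun i hi => by omega⟩
        have := congrArg (fun v : E 2 => v 0) h
        simp at this
      · refine ⟨y 0, EdgeA_ne hW (hyP 0 h0).1, fun i hi => ?_⟩
        have : i = 0 := by omega
        rw [this]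
    obtain ⟨p, hp, hall⟩ := hne
    refine EdgeA_line hW hp fun x hx => ?_
    rcases hXP x hx with h | h
    · obtain ⟨i, hi, rfl⟩ := hysurj _ h
      rw [hall i hi, dt_self]
    · obtain ⟨i, hi, hix⟩ := hysurj _ h
      rw [hall i hi] at hix
      have : x = -p := by rw [hix, neg_neg]
      rw [this, dt_neg_right, dt_self, neg_zero]
  have hk0 : (k : ℤ) ≠ 0 := by
    have : 0 < k := by omega
    exact_mod_cast this.ne'
  set x : ℤ → E 2 := fun j => if Even (j / k) then y (j % k).toNat else -y (j % k).toNat with hx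
  have hxval : ∀ (i : ℕ) (m : ℤ), i < k → x (i + m * k) = if Even m then y i else -y i := by
    intro i m hi
    have h1 : ((i : ℤ) + m * k) / k = m := by
      rw [Int.add_mul_ediv_right _ _ hk0, Int.ediv_eq_zero_of_lt (by omega) (by exact_mod_cast hi),
        zero_add]
    have h2 : ((i : ℤ) + m * k) % k = i := by
      rw [Int.add_mul_emod_self_right, Int.emod_eq_of_lt (by omega) (by exact_mod_cast hi)]
    simp only [hx, h1, h2, Int.toNat_natCast]
  refine ⟨k, x, ⟨hk2, ?_, ?_, ?_⟩, ?_⟩
  · intro j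
    obtain ⟨i, m, hi, rfl⟩ := exists_range k (by omega) j
    have e : (i : ℤ) + m * k + k = i + (m + 1) * k := by ring
    rw [e, hxval i m hi, hxval i (m + 1) hi]
    by_cases hm : Even m
    · have h1 : ¬ Even (m + 1) := by
        rw [Int.even_add_one]
        exact not_not.2 hm
      rw [if_pos hm, if_neg h1]
    · have h1 : Even (m + 1) := by
        rw [Int.even_add_one]
        exact hm
      rw [if_neg hm, if_pos h1, neg_neg]
  · intro a b hab hb
    obtain ⟨i, m, hi, rfl⟩ := exists_range k (by omega) a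
    obtain ⟨d, hd⟩ : ∃ d : ℕ, b = (i : ℤ) + m * k + d := ⟨(b - (i + m * k)).toNat, by omega⟩
    subst hd
    have hd0 : 0 < d := by omega
    have hdk : d < k := by omega
    by_cases hc : i + d < k
    · have e : (i : ℤ) + m * k + d = ((i + d : ℕ) : ℤ) + m * k := by push_cast; ring
      rw [e, hxval i m hi, hxval (i + d) m hc]
      have h1 := hymono i (i + d) (by omega) hc
      by_cases hm : Even m
      · rw [if_pos hm, if_pos hm]
        exact h1
      · rw [if_neg hm, if_neg hm, dt_neg_left, dt_neg_right, neg_neg]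
        exact h1
    · obtain ⟨l, hl⟩ : ∃ l : ℕ, i + d = l + k := ⟨i + d - k, by omega⟩
      have e : (i : ℤ) + m * k + d = (l : ℤ) + (m + 1) * k := by
        have : ((i + d : ℕ) : ℤ) = ((l + k : ℕ) : ℤ) := by rw [hl]
        push_cast at this
        linear_combination this
      have hl1 : l < i := by omega
      have hlk : l < k := by omega
      rw [e, hxval i m hi, hxval l (m + 1) hlk]
      have h1 := hymono l i hl1 hi
      rw [dt_swap] at h1
      by_cases hm : Even m
      · have h2 : ¬ Even (m + 1) := by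
          rw [Int.even_add_one]
          exact not_not.2 hm
        rw [if_pos hm, if_neg h2, dt_neg_right]
        exact h1
      · have h2 : Even (m + 1) := by
          rw [Int.even_add_one]
          exact hm
        rw [if_neg hm, if_pos h2, dt_neg_left]
        exact h1
  · ext z
    constructor
    · intro hz
      rcases hXP z hz with h | h
      · obtain ⟨i, hi, rfl⟩ := hysurj _ h
        refine ⟨i + 0 * k, ?_⟩
        rw [hxval i 0 hi, if_pos (by decide)]
      · obtain ⟨i, hi, hix⟩ := hysurj _ h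
        refine ⟨i + 1 * k, ?_⟩
        rw [hxval i 1 hi, if_neg (by decide), hix, neg_neg]
    · rintro ⟨j, rfl⟩
      obtain ⟨i, m, hi, rfl⟩ := exists_range k (by omega) j
      rw [hxval i m hi]
      have h1 := (hyP i hi).1
      split_ifs
      · exact h1
      · exact EdgeA_neg hW h1
  · have h1 : extremePoints ℝ W = P ∪ (fun z : E 2 => -z) '' P := by
      ext z
      constructor
      · intro hz
        rcases hXP z hz with h | h
        · exact Or.inl h
        · exact Or.inr ⟨-z, h, neg_neg z⟩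
      · rintro (h | ⟨w, h, rfl⟩)
        · exact h.1
        · exact EdgeA_neg hW h.1
    have h2 : Disjoint P ((fun z : E 2 => -z) '' P) := by
      rw [Set.disjoint_left]
      rintro z h ⟨w, hw, rfl⟩
      have h3 := h.2
      have h4 := hw.2
      simp only [PiLp.neg_apply] at h3
      linarith
    rw [h1, Set.ncard_union_eq h2 hPfin (hPfin.image _),
      Set.ncard_image_of_injective _ neg_injective, hcard]
    ring

end Pool.Agent.MPbd65ca.Pg
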