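import Pool.Agent.Lib.MP_bd65ca_an.Pg.EdgeA

/-!
# The Turán problem for polygons: the sides of a symmetric polygon
-/

open MeasureTheory FourierTransform Pointwise Set
open scoped RealInnerProductSpace

namespace Pool.Agent.MPbd65ca.Pg

theorem EdgeB_zero_mem {W : Set (E 2)} (hW : IsBody W) : (0 : E 2) ∈ W := by
  obtain ⟨x, hx⟩ := hW.nonempty_interior
  have h1 := interior_subset hx
  have h2 := hW.neg_mem x h1
  have h3 := hW.convex h1 h2 (a := 1 / 2) (b := 1 / 2) (by norm_num) (by norm_num) (by norm_num)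
  rwa [smul_neg, add_neg_cancel] at h3

theorem EdgeB_key {W : Set (E 2)} (hW : IsBody W) {a b c : E 2} (hb : b ∈ extremePoints ℝ W)
    (ha : a ∈ W) (hc : c ∈ W) (h1 : 0 < dt a b) (h2 : 0 < dt b c) (h3 : 0 < dt a c) :
    dt a c < dt a b + dt b c := by
  by_contra hcon
  rw [not_lt] at hcon
  have hcomb : b = (dt b c / dt a c) • a + (dt a b / dt a c) • c := by
    have h4 := dt_comb a b c
    rw [dt_swap a c] at h4
    have h5 : dt a c • b = dt b c • a + dt a b • c := by
      rw [← sub_eq_zero, ← neg_eq_zero, ← h4, neg_smul]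
      abel
    have h6 := congrArg (fun v => (dt a c)⁻¹ • v) h5
    simp only [smul_add, smul_smul] at h6
    rw [inv_mul_cancel₀ h3.ne', one_smul] at h6
    refine h6.trans ?_
    rw [div_eq_inv_mul, div_eq_inv_mul]
  set α := dt b c / dt a c with hα
  set β := dt a b / dt a c with hβ
  have hα0 : 0 < α := div_pos h2 h3
  have hβ0 : 0 < β := div_pos h1 h3
  have hαβ : α + β ≤ 1 := by
    rw [hα, hβ, ← add_div, div_le_one h3]
    linarith
  have hα1 : 0 < 1 - α := by linarith
  have hy : (β / (1 - α)) • c ∈ W := by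
    have h7 : 0 ≤ β / (1 - α) := (div_pos hβ0 hα1).le
    have h8 : β / (1 - α) ≤ 1 := by
      rw [div_le_one hα1]
      linarith
    have h9 := hW.convex hc (EdgeB_zero_mem hW) h7 (sub_nonneg.2 h8) (by ring)
    rwa [smul_zero, add_zero] at h9
  have hseg : b ∈ openSegment ℝ a ((β / (1 - α)) • c) := by
    refine ⟨α, 1 - α, hα0, hα1, by ring, ?_⟩
    rw [smul_smul, mul_div_cancel₀ _ hα1.ne', ← hcomb]
  have hab := (mem_extremePoints.1 hb).2 a ha _ hy hseg
  rw [hab.1, dt_self] at h1
  exact lt_irrefl _ h1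

theorem EdgeB_mem {k : ℕ} {x : ℤ → E 2} {W : Set (E 2)} (v : Vert k x W) (i : ℤ) :
    x i ∈ extremePoints ℝ W := by
  rw [v.ext]
  exact ⟨i, rfl⟩

theorem EdgeB_dt (a b c : E 2) : dt (b - a) (c - a) = dt b c + dt a b - dt a c := by
  rw [dt_sub_left, dt_sub_right, dt_sub_right, dt_self, dt_swap a b]
  ring

/-- All the other vertices lie on one side of the line of an edge. -/
theorem Vert.edge {k : ℕ} {x : ℤ → E 2} {W : Set (E 2)} (v : Vert k x W) (hW : IsBody W)
    (j m : ℤ) (h1 : j + 1 < m) (h2 : m < j + 2 * k) :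
    0 < dt (x (j + 1) - x j) (x m - x j) := by
  have hk := v.hk
  have hp : 0 < dt (x j) (x (j + 1)) := v.pos j (j + 1) (by omega) (by omega)
  rw [EdgeB_dt]
  rcases lt_trichotomy m (j + k) with h | h | h
  · have h3 := EdgeB_key hW (EdgeB_mem v (j + 1)) (EdgeB_mem v j).1 (EdgeB_mem v m).1 hp
      (v.pos (j + 1) m h1 (by omega)) (v.pos j m (by omega) h)
    linarith
  · subst h
    rw [v.anti, dt_neg_right, dt_neg_right, dt_self, dt_swap (x j) (x (j + 1))]
    linarith
  · rcases lt_trichotomy m (j + k + 1) with h' | h' | h'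
    · omega
    · have h4 : m = j + 1 + k := by omega
      subst h4
      rw [v.anti, dt_neg_right, dt_neg_right, dt_self]
      linarith
    · have h5 : x m = x (m - 2 * k) := by
        have h6 := v.anti (m - k)
        have h7 := v.anti (m - 2 * k)
        rw [sub_add_cancel] at h6
        have h8 : m - 2 * (k : ℤ) + k = m - k := by ring
        rw [h8] at h7
        rw [h6, h7, neg_neg]
      rw [h5]
      have h3 := EdgeB_key hW (EdgeB_mem v j) (EdgeB_mem v (m - 2 * k)).1
        (EdgeB_mem v (j + 1)).1 (v.pos (m - 2 * k) j (by omega) (by omega)) hp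
        (v.pos (m - 2 * k) (j + 1) (by omega) (by omega))
      rw [dt_swap (x (m - 2 * k)) (x (j + 1)), dt_swap (x (m - 2 * k)) (x j)]
      linarith

end Pool.Agent.MPbd65ca.Pg
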