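import Pool.Agent.Lib.MP_bd65ca_an.Pg.EdgeB

/-!
# The Turán problem for polygons: the directions of the sides of a symmetric polygon
-/

open MeasureTheory FourierTransform Pointwise Set
open scoped RealInnerProductSpace

namespace Pool.Agent.MPbd65ca.Pg

theorem EdgeC_comb (w a b c : E 2) :
    dt b c * dt w a + dt c a * dt w b + dt a b * dt w c = 0 := by
  unfold dt
  ring

theorem EdgeC_per {k : ℕ} {x : ℤ → E 2} {W : Set (E 2)} (v : Vert k x W) (i : ℤ) :
    x (i + 2 * k) = x i := by
  have h1 : i + 2 * (k : ℤ) = (i + k) + k := by ring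
  rw [h1, v.anti, v.anti, neg_neg]

theorem EdgeC_valley {k : ℕ} {x : ℤ → E 2} {W : Set (E 2)} (v : Vert k x W) (hW : IsBody W)
    (i m : ℤ) (h1 : i + 2 ≤ m) (h2 : m + 1 ≤ i + k)
    (h3 : dt (x (i + 1) - x i) (x m) ≤ dt (x (i + 1) - x i) (x (m - 1)))
    (h4 : dt (x (i + 1) - x i) (x m) < dt (x (i + 1) - x i) (x (m + 1))) : False := by
  have hk := v.hk
  have e0 := EdgeC_per v i
  have hD := v.edge hW (m - 1) (m + 1) (by omega) (by omega)
  have hA := v.edge hW (m - 1) (i + 2 * k) (by omega) (by omega)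
  have hB := v.edge hW m (i + 2 * k) (by omega) (by omega)
  have hF := v.edge hW i m (by omega) (by omega)
  rw [e0] at hA hB
  rw [sub_add_cancel] at hD hA
  have key := EdgeC_comb (x (i + 1) - x i) (x m - x (m - 1)) (x (m + 1) - x m) (x i - x m)
  have r1 : dt (x m - x (m - 1)) (x (m + 1) - x m) =
      dt (x m - x (m - 1)) (x (m + 1) - x (m - 1)) := by
    simp only [dt_sub_left, dt_sub_right, dt_self]
    rw [dt_swap (x (m - 1)) (x m)]
    ring
  have r2 : dt (x i - x m) (x m - x (m - 1)) = -dt (x m - x (m - 1)) (x i - x (m - 1)) := by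
    simp only [dt_sub_left, dt_sub_right, dt_self]
    rw [dt_swap (x (m - 1)) (x m), dt_swap (x (m - 1)) (x i), dt_swap (x m) (x i)]
    ring
  have r3 : dt (x (i + 1) - x i) (x m - x (m - 1)) =
      dt (x (i + 1) - x i) (x m) - dt (x (i + 1) - x i) (x (m - 1)) := dt_sub_right _ _ _
  have r4 : dt (x (i + 1) - x i) (x (m + 1) - x m) =
      dt (x (i + 1) - x i) (x (m + 1)) - dt (x (i + 1) - x i) (x m) := dt_sub_right _ _ _
  have r5 : dt (x (i + 1) - x i) (x i - x m) = -dt (x (i + 1) - x i) (x m - x i) := by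
    rw [← dt_neg_right, neg_sub]
  rw [r1, r2, r3, r4, r5] at key
  set B := dt (x (m + 1) - x m) (x i - x m)
  set A := dt (x m - x (m - 1)) (x i - x (m - 1))
  set D := dt (x m - x (m - 1)) (x (m + 1) - x (m - 1))
  set F := dt (x (i + 1) - x i) (x m - x i)
  have q1 : B * (dt (x (i + 1) - x i) (x m) - dt (x (i + 1) - x i) (x (m - 1))) ≤ 0 :=
    mul_nonpos_of_nonneg_of_nonpos hB.le (by linarith)
  have q2 : 0 < A * (dt (x (i + 1) - x i) (x (m + 1)) - dt (x (i + 1) - x i) (x m)) :=
    mul_pos hA (by linarith)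
  have q3 : 0 < D * F := mul_pos hD hF
  linarith

theorem Vert.sides {k : ℕ} {x : ℤ → E 2} {W : Set (E 2)} (v : Vert k x W) (hW : IsBody W)
    (i l : ℤ) (h1 : i < l) (h2 : l < i + k) :
    0 < dt (x (i + 1) - x i) (x (l + 1) - x l) := by
  have hk := v.hk
  rw [dt_sub_right]
  by_contra hcon
  have hcon' : dt (x (i + 1) - x i) (x (l + 1)) ≤ dt (x (i + 1) - x i) (x l) := by linarith
  have hE : ∀ m : ℤ, i + 1 < m → m < i + 2 * k →
      dt (x (i + 1) - x i) (x i) < dt (x (i + 1) - x i) (x m) := by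
    intro m e1 e2
    have := v.edge hW i m e1 e2
    rw [dt_sub_right] at this
    linarith
  have hF4 : dt (x (i + 1) - x i) (x l) < dt (x (i + 1) - x i) (x (i + k)) := by
    have e1 := hE (l + k) (by omega) (by omega)
    rw [v.anti, dt_neg_right] at e1
    rw [v.anti, dt_neg_right]
    linarith
  have claim : ∀ n : ℕ, l + n + 1 ≤ i + k →
      dt (x (i + 1) - x i) (x (l + n + 1)) ≤ dt (x (i + 1) - x i) (x (l + n)) ∧
        dt (x (i + 1) - x i) (x (l + n + 1)) ≤ dt (x (i + 1) - x i) (x l) := by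
    intro n
    induction n with
    | zero =>
      intro _
      simp only [Nat.cast_zero, add_zero]
      exact ⟨hcon', hcon'⟩
    | succ n ih =>
      intro hn
      push_cast at hn
      obtain ⟨a1, a2⟩ := ih (by omega)
      have e1 : l + ((n + 1 : ℕ) : ℤ) = l + n + 1 := by push_cast; ring
      rw [e1]
      have a3 : dt (x (i + 1) - x i) (x (l + n + 1 + 1)) ≤
          dt (x (i + 1) - x i) (x (l + n + 1)) := by
        by_contra hc
        refine EdgeC_valley v hW i (l + n + 1) (by omega) (by omega) ?_ (by linarith)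
        rw [add_sub_cancel_right]
        exact a1
      exact ⟨a3, a3.trans a2⟩
  obtain ⟨n, hn⟩ : ∃ n : ℕ, i + k = l + n + 1 := ⟨(i + k - l - 1).toNat, by omega⟩
  have := (claim n hn.ge).2
  rw [← hn] at this
  linarith

end Pool.Agent.MPbd65ca.Pg
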