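import Pool.Agent.Lib.MP_bd65ca_an.Pg.Main
import Pool.Agent.Lib.MP_bd65ca_an.Pg.Edge
import Pool.Agent.Lib.MP_bd65ca_an.Gap

/-!
# The Turán problem for polygons
-/

open MeasureTheory FourierTransform Pointwise Set Filter Topology
open scoped RealInnerProductSpace

namespace Pool.Agent.MPbd65ca.Pg

theorem turan_of_zon {k : ℕ} {g : ℤ → E 2} (h : Zon k g) {K : Set (E 2)} (hK : IsBody K)
    (hg : zg k g = (1 / 2 : ℝ) • K) : turan K < 2 ^ 2 / volume.real K := by
  set W : Set (E 2) := (1 / 2 : ℝ) • K with hW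
  have hWb : IsBody W := hK.smul (by norm_num)
  have hWW : W + W = K := by
    rw [Convex.add_self hWb.convex, hW, smul_smul]
    norm_num
  have hpos := ScaleAux.vol_pos hWb
  have hvol : volume.real K = 2 ^ 2 * volume.real W := by
    rw [hW, ScaleAux.vol_smul (by norm_num), ← mul_assoc, ← mul_pow]
    norm_num
  obtain ⟨F, hF, hFi⟩ := h.main
  rw [hg, hWW] at hF
  rw [hg] at hFi
  refine lt_of_le_of_lt (turan_le_integral hF) (lt_of_lt_of_le hFi (le_of_eq ?_))
  rw [hvol]
  field_simp

theorem turan_polygon {K : Set (E 2)} (hK : IsBody K)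
    (hP : ∃ S : Finset (E 2), K = convexHull ℝ (S : Set (E 2)))
    (h : 6 < (extremePoints ℝ K).ncard) : turan K < 2 ^ 2 / volume.real K := by
  obtain ⟨S, hS⟩ := hP
  have hfin : (extremePoints ℝ K).Finite := by
    refine S.finite_toSet.subset ?_
    rw [hS]
    exact extremePoints_convexHull_subset
  set W : Set (E 2) := (1 / 2 : ℝ) • K with hW
  have hWb : IsBody W := hK.smul (by norm_num)
  have hext : extremePoints ℝ W = (1 / 2 : ℝ) • extremePoints ℝ K := by
    have h2 : (1 / 2 : ℝ) ≠ 0 := by norm_num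
    have h1 := image_extremePoints (LinearEquiv.smulOfNeZero ℝ (E 2) (1 / 2 : ℝ) h2) K
    exact h1.symm
  have hfinW : (extremePoints ℝ W).Finite := by
    rw [hext]
    exact hfin.smul_set
  have hcard : (extremePoints ℝ W).ncard = (extremePoints ℝ K).ncard := by
    rw [hext]
    exact Set.ncard_image_of_injective _ (smul_right_injective _ (by norm_num))
  obtain ⟨k, x, v, hk⟩ := exists_vert hWb hfinW
  obtain ⟨h1, h2⟩ := v.zon hWb (by omega)
  exact turan_of_zon h1 hK h2

end Pool.Agent.MPbd65ca.Pg
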