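import Pool.Agent.Lib.MP_bd65ca_an.Pg.Chi

/-!
# The Turán problem for polygons: continuity and bounds
-/

open MeasureTheory FourierTransform Pointwise Set Filter Topology
open scoped RealInnerProductSpace

namespace Pool.Agent.MPbd65ca.Pg

variable {k : ℕ} {g : ℤ → E 2}

theorem SelA_circle : Continuous fun z : Circle => (z : ℂ) := by
  fun_prop

theorem SelA_coe (j : ℤ) : Continuous fun z : ℤ → Circle => (z j : ℂ) :=
  SelA_circle.comp (continuous_apply j)

theorem SelA_Yf (g : ℤ → E 2) (j : ℤ) : Continuous (Yf g j) := by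
  unfold Yf
  fun_prop

theorem continuous_Zt (k : ℕ) (g : ℤ → E 2) :
    Continuous fun p : (ℤ → Circle) × E 2 => Zt k g p.1 p.2 := by
  unfold Zt
  refine continuous_finsetSum _ fun j _ => ?_
  refine Continuous.mul (Continuous.mul continuous_const ?_) ?_
  · exact continuous_finsetProd _ fun l _ => (SelA_Yf g _).comp continuous_snd
  · unfold cr
    exact Complex.continuous_re.comp ((SelA_coe _).comp continuous_fst)

theorem continuous_hp (k : ℕ) (g : ℤ → E 2) (c R : ℝ) :
    Continuous fun p : (ℤ → Circle) × E 2 => hp k g c R p.1 p.2 := by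
  unfold hp
  refine continuous_finsetSum _ fun j _ => ?_
  refine Complex.continuous_re.comp ?_
  exact ((continuous_hb g c R j).comp continuous_snd).mul
    (((SelA_coe _).comp continuous_fst).mul ((SelA_coe _).comp continuous_fst))

theorem SelA_mono (n : Ix) : Continuous fun z : ℤ → Circle => (mono n z : ℂ) := by
  unfold mono
  refine SelA_circle.comp ?_
  exact ((continuous_apply n.1).zpow _).mul ((continuous_apply n.2.1).zpow _)

theorem continuous_ip (k : ℕ) (g : ℤ → E 2) :
    Continuous fun p : (ℤ → Circle) × (Ix → ℂ) => ip k g p.2 p.1 := by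
  unfold ip
  refine continuous_finsetSum _ fun n _ => ?_
  refine Complex.continuous_re.comp ?_
  exact ((continuous_apply n).comp continuous_snd).mul ((SelA_mono n).comp continuous_fst)

theorem ip_zero (k : ℕ) (g : ℤ → E 2) (z : ℤ → Circle) : ip k g 0 z = 0 := by
  simp [ip]

/-- The functions `ip` are linear in the coefficients. -/
theorem ip_combo (k : ℕ) (g : ℤ → E 2) (z : ℤ → Circle) (a₁ a₂ : Ix → ℂ) (r₁ r₂ : ℝ) :
    ip k g (r₁ • a₁ + r₂ • a₂) z = r₁ * ip k g a₁ z + r₂ * ip k g a₂ z := by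
  unfold ip
  rw [Finset.mul_sum, Finset.mul_sum, ← Finset.sum_add_distrib]
  refine Finset.sum_congr rfl fun n _ => ?_
  simp only [Pi.add_apply, Pi.smul_apply, add_mul, Complex.add_re, Complex.real_smul, mul_assoc,
    Complex.re_ofReal_mul]

theorem SelA_eE (k : ℕ) (g : ℤ → E 2) {R : ℝ} (hR : 0 < R) : Continuous (eE k g R) := by
  unfold eE
  refine Continuous.add ?_ ?_
  · refine Continuous.inv₀ (by fun_prop) fun u => ?_
    positivity
  · refine continuous_finsetSum _ fun j _ => ?_
    refine Continuous.inv₀ ?_ fun u => ?_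
    · have := SelA_Yf g (j : ℤ)
      fun_prop
    · positivity

theorem continuous_ez (k : ℕ) (g : ℤ → E 2) {R : ℝ} (hR : 0 < R) (CE c2 : ℝ) :
    Continuous (ez k g R CE c2) := by
  unfold ez
  refine Continuous.sub (continuous_const.mul (SelA_eE k g hR)) ?_
  refine Continuous.div (by fun_prop) (by fun_prop) fun u => ?_
  positivity

theorem abs_ez_le (k : ℕ) (g : ℤ → E 2) {R : ℝ} (hR : 0 < R) (CE c2 : ℝ) :
    ∃ B, ∀ u, |ez k g R CE c2 u| ≤ B := by
  refine ⟨|CE| * (R⁻¹ + k) + |c2|, fun u => ?_⟩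
  have h1 : 0 ≤ eE k g R u := by
    unfold eE
    exact add_nonneg (by positivity) (Finset.sum_nonneg fun j _ => by positivity)
  have h2 : eE k g R u ≤ R⁻¹ + k := by
    unfold eE
    refine add_le_add ?_ ?_
    · refine inv_anti₀ hR ?_
      nlinarith [norm_nonneg u]
    · have : ∑ j ∈ Finset.range k, ((1 + ‖u‖ ^ 2) * (1 + |Yf g j u|))⁻¹ ≤
          ∑ j ∈ Finset.range k, (1 : ℝ) := by
        refine Finset.sum_le_sum fun j _ => ?_
        refine inv_le_one_of_one_le₀ ?_
        have ha : 0 ≤ ‖u‖ ^ 2 := by positivity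
        have hb := abs_nonneg (Yf g j u)
        nlinarith [mul_nonneg ha hb]
      simpa using this
  unfold ez
  refine (abs_sub _ _).trans ?_
  rw [abs_mul, abs_div, abs_of_nonneg h1]
  refine add_le_add (mul_le_mul_of_nonneg_left h2 (abs_nonneg _)) ?_
  refine div_le_self (abs_nonneg _) ?_
  rw [abs_of_pos (by positivity)]
  nlinarith [sq_nonneg ‖u‖]

theorem abs_hp_le (k : ℕ) (g : ℤ → E 2) (c R : ℝ) : ∃ B, ∀ z u, |hp k g c R z u| ≤ B := by
  refine ⟨∑ j ∈ Finset.range k, 18 * |bq g j|, fun z u => ?_⟩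
  unfold hp
  refine (Finset.abs_sum_le_sum_abs _ _).trans (Finset.sum_le_sum fun j _ => ?_)
  refine (Complex.abs_re_le_norm _).trans ?_
  rw [norm_mul, norm_mul, Circle.norm_coe, Circle.norm_coe, mul_one, mul_one]
  refine (norm_hb_le g c R j u).trans ?_
  refine div_le_self (by positivity) ?_
  have ha := abs_nonneg (Yf g ((j : ℤ) - 1) u)
  have hb := abs_nonneg (Yf g ((j : ℤ) + 1) u)
  nlinarith [mul_nonneg ha hb]

theorem isCompact_Ph (k : ℕ) : IsCompact {z : ℤ → Circle | Ph k z} := by
  refine IsClosed.isCompact ?_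
  have : {z : ℤ → Circle | Ph k z} = ⋂ j : ℤ, {z : ℤ → Circle | z (j + k) = (z j)⁻¹} := by
    ext z
    simp [Ph]
  rw [this]
  refine isClosed_iInter fun j => ?_
  exact isClosed_eq (continuous_apply _) (continuous_apply _).inv

end Pool.Agent.MPbd65ca.Pg
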