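import Pool.Agent.Lib.MP_bd65ca_an.Pg.ProfDef
import Pool.Agent.Lib.MP_bd65ca_an.Pg.SelA

/-!
# The Turán problem for polygons: the perturbation is continuous
-/

open MeasureTheory FourierTransform Pointwise Set Filter Topology
open scoped RealInnerProductSpace

namespace Pool.Agent.MPbd65ca.Pg

variable {k : ℕ} {g : ℤ → E 2}

theorem continuous_zc (k : ℕ) (g : ℤ → E 2) : Continuous (zc k g) := by
  refine continuous_pi fun j => ?_
  unfold zc
  exact Real.continuous_fourierChar.comp (continuous_id.inner continuous_const)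

theorem continuous_tp (s : Finset (E 2)) (b : E 2 → ℂ) : Continuous (tp s b) := by
  unfold tp
  refine continuous_finsetSum _ fun v _ => ?_
  have h1 : Continuous fun u : E 2 => (Real.fourierChar ⟪u, v⟫ : Circle) :=
    Real.continuous_fourierChar.comp (continuous_id.inner continuous_const)
  fun_prop

theorem Prof.continuous_GT {c R M S C : ℝ} {Ψ : E 2 → ℝ} {s : Ix → Finset (E 2)}
    {b : Ix → E 2 → ℂ} {s0 : Finset (E 2)} {b0 : E 2 → ℂ}
    (p : Prof k g c R M S C Ψ s b s0 b0) (T : ℝ) : Continuous (GT k g c R M Ψ s b s0 b0 T) := by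
  have hz := continuous_zc k g
  have hT : Continuous fun t : E 2 => T⁻¹ • t := continuous_const_smul _
  have hΨ : Continuous fun t : E 2 => Ψ (R⁻¹ • T⁻¹ • t) := by
    have h := p.cont.comp (hT.const_smul R⁻¹)
    exact h
  have h1 : Continuous fun t : E 2 => hp k g c R (zc k g t) (T⁻¹ • t) := by
    have h := (continuous_hp k g c R).comp (hz.prodMk hT)
    simp only [Function.comp_def] at h
    exact h
  have h2 : Continuous fun t : E 2 => ip k g (fun n => tp (s n) (b n) (T⁻¹ • t)) (zc k g t) := by
    have hn : ∀ n, Continuous fun t : E 2 => tp (s n) (b n) (T⁻¹ • t) := fun n =>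
      (continuous_tp _ _).comp hT
    have h := (continuous_ip k g).comp (hz.prodMk (continuous_pi hn))
    simp only [Function.comp_def] at h
    exact h
  have h3 : Continuous fun t : E 2 => (tp s0 b0 (T⁻¹ • t)).re := by
    have h := Complex.continuous_re.comp ((continuous_tp s0 b0).comp hT)
    simp only [Function.comp_def] at h
    exact h
  have h4 : Continuous fun t : E 2 => pT k g c R s b s0 b0 (zc k g t) (T⁻¹ • t) := by
    unfold pT
    exact (h1.add h2).add h3
  unfold GT
  exact ((hΨ.pow 2).mul h4).add (continuous_const.mul hΨ)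

end Pool.Agent.MPbd65ca.Pg
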