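import Pool.Agent.Lib.MP_bd65ca_an.Pg.ProfDef
import Pool.Agent.Lib.MP_bd65ca_an.Pg.CosZ

/-!
# The Turán problem for polygons: the perturbed function is nonnegative
-/

open MeasureTheory FourierTransform Pointwise Set Filter Topology
open scoped RealInnerProductSpace

namespace Pool.Agent.MPbd65ca.Pg

variable {k : ℕ} {g : ℤ → E 2}

theorem GTn_Yf_smul (g : ℤ → E 2) (j : ℤ) (r : ℝ) (t : E 2) :
    Yf g j (r • t) = r * Yf g j t := by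
  unfold Yf
  rw [real_inner_smul_right]

theorem GTn_Zt_smul (k : ℕ) (g : ℤ → E 2) (z : ℤ → Circle) (r : ℝ) (t : E 2) :
    Zt k g z (r • t) = r ^ (k - 2) * Zt k g z t := by
  unfold Zt
  rw [Finset.mul_sum]
  refine Finset.sum_congr rfl fun j _ => ?_
  have h1 : ∏ l ∈ Finset.range (k - 2), Yf g ((j : ℤ) + 1 + l) (r • t) =
      r ^ (k - 2) * ∏ l ∈ Finset.range (k - 2), Yf g ((j : ℤ) + 1 + l) t := by
    rw [Finset.prod_congr rfl fun (l : ℕ) _ => GTn_Yf_smul g ((j : ℤ) + 1 + l) r t,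
      Finset.prod_mul_distrib, Finset.prod_const, Finset.card_range]
  rw [h1]
  ring

theorem GTn_prod_le {k : ℕ} {g : ℤ → E 2} {L A : ℝ} (hL0 : 0 < L)
    (hL : ∀ (u : E 2) (j : ℤ), |Yf g j u| ≤ L * ‖u‖) {t : E 2} (ht : ‖t‖ ≤ A) :
    (∏ l ∈ Finset.range k, Yf g l t) ^ 2 ≤ ((L * A) ^ k) ^ 2 := by
  have h1 : |∏ l ∈ Finset.range k, Yf g (l : ℤ) t| ≤ (L * A) ^ k := by
    rw [Finset.abs_prod]
    calc ∏ l ∈ Finset.range k, |Yf g (l : ℤ) t| ≤ ∏ _l ∈ Finset.range k, (L * A) :=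
          Finset.prod_le_prod (fun l _ => abs_nonneg _) (fun l _ =>
            (hL t l).trans (mul_le_mul_of_nonneg_left ht hL0.le))
      _ = (L * A) ^ k := by rw [Finset.prod_const, Finset.card_range]
  exact sq_le_sq.2 (h1.trans (le_abs_self _))

theorem Prof.nonneg_GT (h : Zon k g) {c R M S C : ℝ} {Ψ : E 2 → ℝ} {s : Ix → Finset (E 2)}
    {b : Ix → E 2 → ℂ} {s0 : Finset (E 2)} {b0 : E 2 → ℂ}
    (p : Prof k g c R M S C Ψ s b s0 b0) {T : ℝ} (hT : 0 < T) :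
    ∃ C' : ℝ, 0 ≤ C' ∧ ∀ t, 0 ≤ GT k g c R M Ψ s b s0 b0 T t + C' * cosT (zg k g) t ^ 2 := by
  obtain ⟨L, hL0, -, hL⟩ := h.norm_le
  have hcont : Continuous fun u : E 2 => Ψ (R⁻¹ • u) :=
    p.cont.comp (continuous_const_smul R⁻¹)
  obtain ⟨B, hB⟩ := (isCompact_closedBall (0 : E 2) |S|).exists_bound_of_continuousOn
    hcont.continuousOn
  have hB' : ∀ u : E 2, ‖u‖ ≤ |S| → Ψ (R⁻¹ • u) ≤ B := by
    intro u hu
    have h1 := hB u (mem_closedBall_zero_iff.2 hu)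
    rw [Real.norm_eq_abs] at h1
    exact (le_abs_self _).trans h1
  have hB0 : 0 ≤ B := by
    refine (p.nonneg (R⁻¹ • (0 : E 2))).trans (hB' 0 ?_)
    rw [norm_zero]
    exact abs_nonneg S
  refine ⟨B * C * (T⁻¹ ^ (k - 2)) ^ 2 * (2 * Real.pi ^ 2) ^ 2 * ((L * (T * |S|)) ^ k) ^ 2,
    ?_, fun t => ?_⟩
  · have hC := p.hC
    positivity
  have hC := p.hC
  have hC' : 0 ≤ B * C * (T⁻¹ ^ (k - 2)) ^ 2 * (2 * Real.pi ^ 2) ^ 2 *
      ((L * (T * |S|)) ^ k) ^ 2 := by positivity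
  set Φ : ℝ := Ψ (R⁻¹ • T⁻¹ • t) with hΦ
  have hΦ0 : 0 ≤ Φ := p.nonneg _
  have hGT : GT k g c R M Ψ s b s0 b0 T t =
      Φ * (Φ * pT k g c R s b s0 b0 (zc k g t) (T⁻¹ • t) + M) := by
    unfold GT
    rw [← hΦ]
    ring
  rcases le_total S ‖T⁻¹ • t‖ with hS | hS
  · have h1 := p.out (T⁻¹ • t) (zc k g t) hS (h.ph_zc t)
    rw [hGT]
    exact add_nonneg (mul_nonneg hΦ0 h1) (mul_nonneg hC' (sq_nonneg _))
  · have h1 := p.inn (T⁻¹ • t) (zc k g t) hS (h.ph_zc t)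
    have hS' : ‖T⁻¹ • t‖ ≤ |S| := hS.trans (le_abs_self S)
    have hΦB : Φ ≤ B := hB' _ hS'
    have ht : ‖t‖ ≤ T * |S| := by
      rw [norm_smul, Real.norm_eq_abs, abs_of_pos (inv_pos.2 hT), inv_mul_le_iff₀ hT] at hS'
      exact hS'
    have hZ : Zt k g (zc k g t) t =
        -(2 * Real.pi ^ 2) * (cosT (zg k g) t * ∏ l ∈ Finset.range k, Yf g l t) := by
      rw [h.cosT_zg t]
      have hpi : Real.pi ≠ 0 := Real.pi_ne_zero
      field_simp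
    have hP := GTn_prod_le (k := k) hL0 hL ht
    have hZ2 : Zt k g (zc k g t) (T⁻¹ • t) ^ 2 ≤
        (T⁻¹ ^ (k - 2)) ^ 2 * (2 * Real.pi ^ 2) ^ 2 * ((L * (T * |S|)) ^ k) ^ 2 *
          cosT (zg k g) t ^ 2 := by
      rw [GTn_Zt_smul, hZ]
      have e1 : (T⁻¹ ^ (k - 2) * (-(2 * Real.pi ^ 2) * (cosT (zg k g) t *
          ∏ l ∈ Finset.range k, Yf g l t))) ^ 2 =
          (T⁻¹ ^ (k - 2)) ^ 2 * (2 * Real.pi ^ 2) ^ 2 * (∏ l ∈ Finset.range k, Yf g l t) ^ 2 *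
            cosT (zg k g) t ^ 2 := by ring
      rw [e1]
      refine mul_le_mul_of_nonneg_right ?_ (sq_nonneg _)
      exact mul_le_mul_of_nonneg_left hP (by positivity)
    have h2 : 0 ≤ Φ * (Φ * pT k g c R s b s0 b0 (zc k g t) (T⁻¹ • t) + M +
        C * Zt k g (zc k g t) (T⁻¹ • t) ^ 2) := mul_nonneg hΦ0 h1
    have h3 : Φ * (C * Zt k g (zc k g t) (T⁻¹ • t) ^ 2) ≤
        B * (C * ((T⁻¹ ^ (k - 2)) ^ 2 * (2 * Real.pi ^ 2) ^ 2 * ((L * (T * |S|)) ^ k) ^ 2 *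
          cosT (zg k g) t ^ 2)) :=
      mul_le_mul hΦB (mul_le_mul_of_nonneg_left hZ2 hC) (mul_nonneg hC (sq_nonneg _)) hB0
    rw [hGT]
    have h4 : B * (C * ((T⁻¹ ^ (k - 2)) ^ 2 * (2 * Real.pi ^ 2) ^ 2 *
        ((L * (T * |S|)) ^ k) ^ 2 * cosT (zg k g) t ^ 2)) =
        B * C * (T⁻¹ ^ (k - 2)) ^ 2 * (2 * Real.pi ^ 2) ^ 2 * ((L * (T * |S|)) ^ k) ^ 2 *
          cosT (zg k g) t ^ 2 := by ring
    rw [← h4]
    linarith

end Pool.Agent.MPbd65ca.Pg
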