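import Pool.Agent.Lib.MP_bd65ca_an.Pg.Trig

/-!
# The Turán problem for polygons: the spectrum of integrals with a parameter
-/

open MeasureTheory FourierTransform Pointwise Set Filter Topology
open scoped RealInnerProductSpace

namespace Pool.Agent.MPbd65ca.Pg

variable {d : ℕ}

theorem VanI_integrable {f : E d → ℂ} (hf : Integrable f) {m : ℝ × ℝ → ℂ}
    (hm : Continuous m) {w : ℝ × ℝ → E d} (hw : Continuous w) (ξ : E d) :
    Integrable (fun q : E d × (ℝ × ℝ) =>
      (Real.fourierChar (-⟪q.1, ξ⟫) : ℂ) * (m q.2 * ((Real.fourierChar ⟪q.1, w q.2⟫ : ℂ) * f q.1)))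
      ((volume : Measure (E d)).prod (volume.restrict (Icc (0 : ℝ × ℝ) 1))) := by
  obtain ⟨C, hC⟩ := (isCompact_Icc : IsCompact (Icc (0 : ℝ × ℝ) 1)).exists_bound_of_continuousOn
    hm.continuousOn
  have hfin : IsFiniteMeasure ((volume : Measure (ℝ × ℝ)).restrict (Icc (0 : ℝ × ℝ) 1)) :=
    ⟨by
      rw [Measure.restrict_apply_univ]
      exact (isCompact_Icc : IsCompact (Icc (0 : ℝ × ℝ) 1)).measure_lt_top⟩
  have hbd : Integrable (fun q : E d × (ℝ × ℝ) => ‖f q.1‖ * C)
      ((volume : Measure (E d)).prod (volume.restrict (Icc (0 : ℝ × ℝ) 1))) :=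
    hf.norm.mul_prod (integrable_const C)
  have hc : Continuous fun q : E d × (ℝ × ℝ) =>
      (Real.fourierChar (-⟪q.1, ξ⟫) : ℂ) * (m q.2 * (Real.fourierChar ⟪q.1, w q.2⟫ : ℂ)) := by
    have h0 : Continuous fun t : ℝ => (Real.fourierChar t : ℂ) := by
      have := Real.continuous_fourierChar
      fun_prop
    have h1 : Continuous fun q : E d × (ℝ × ℝ) => -⟪q.1, ξ⟫ := by fun_prop
    have h2 : Continuous fun q : E d × (ℝ × ℝ) => ⟪q.1, w q.2⟫ :=
      continuous_fst.inner (hw.comp continuous_snd)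
    exact (h0.comp h1).mul ((hm.comp continuous_snd).mul (h0.comp h2))
  refine hbd.mono' ?_ ?_
  · have h1 : AEStronglyMeasurable (fun q : E d × (ℝ × ℝ) => f q.1)
        ((volume : Measure (E d)).prod (volume.restrict (Icc (0 : ℝ × ℝ) 1))) :=
      hf.1.comp_fst
    have h2 := hc.aestronglyMeasurable
      (μ := (volume : Measure (E d)).prod (volume.restrict (Icc (0 : ℝ × ℝ) 1))).mul h1
    refine h2.congr (Eventually.of_forall fun q => ?_)
    simp only [Pi.mul_apply]
    ring
  · have hprod : (volume : Measure (E d)).prod (volume.restrict (Icc (0 : ℝ × ℝ) 1)) =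
        ((volume : Measure (E d)).prod volume).restrict (univ ×ˢ Icc (0 : ℝ × ℝ) 1) := by
      rw [← Measure.prod_restrict, Measure.restrict_univ]
    rw [hprod]
    refine (ae_restrict_iff' (MeasurableSet.univ.prod measurableSet_Icc)).2
      (Eventually.of_forall fun q hq => ?_)
    rw [norm_mul, norm_mul, norm_mul, Circle.norm_coe, Circle.norm_coe, one_mul, one_mul, mul_comm]
    exact mul_le_mul_of_nonneg_left (hC q.2 hq.2) (norm_nonneg _)

/-- Integrals of functions with spectrum in `K` with respect to a parameter. -/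
theorem vanish_integral {K : Set (E d)} {f : E d → ℂ} (hf : Integrable f) {m : ℝ × ℝ → ℂ}
    (hm : Continuous m) {w : ℝ × ℝ → E d} (hw : Continuous w)
    (hv : ∀ p ∈ Icc (0 : ℝ × ℝ) 1, Vanish K (fun x => (Real.fourierChar ⟪x, w p⟫ : ℂ) * f x)) :
    Vanish K (fun x => ∫ p in Icc (0 : ℝ × ℝ) 1, m p * ((Real.fourierChar ⟪x, w p⟫ : ℂ) * f x)) := by
  constructor
  · have h1 := VanI_integrable hf hm hw (0 : E d)
    have h2 := h1.integral_prod_left
    simpa using h2
  · intro ξ hξ
    rw [Real.fourier_eq]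
    have h1 := VanI_integrable hf hm hw ξ
    have h3 : ∀ x : E d, Real.fourierChar (-⟪x, ξ⟫) • (∫ p in Icc (0 : ℝ × ℝ) 1,
        m p * ((Real.fourierChar ⟪x, w p⟫ : ℂ) * f x)) = ∫ p in Icc (0 : ℝ × ℝ) 1,
        (Real.fourierChar (-⟪x, ξ⟫) : ℂ) * (m p * ((Real.fourierChar ⟪x, w p⟫ : ℂ) * f x)) := by
      intro x
      rw [Circle.smul_def, smul_eq_mul, ← integral_const_mul]
    simp_rw [h3]
    rw [integral_integral_swap h1]
    refine setIntegral_eq_zero_of_forall_eq_zero fun p hp => ?_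
    have h4 := (hv p hp).2 ξ hξ
    rw [Real.fourier_eq] at h4
    have h5 : ∀ x : E d, (Real.fourierChar (-⟪x, ξ⟫) : ℂ) *
        (m p * ((Real.fourierChar ⟪x, w p⟫ : ℂ) * f x)) =
        m p * (Real.fourierChar (-⟪x, ξ⟫) • ((Real.fourierChar ⟪x, w p⟫ : ℂ) * f x)) := by
      intro x
      rw [Circle.smul_def, smul_eq_mul]
      ring
    simp_rw [h5]
    rw [integral_const_mul, h4, mul_zero]

end Pool.Agent.MPbd65ca.Pg
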