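import Pool.Agent.Lib.MP_bd65ca_an.Pg.VanA
import Pool.Agent.Lib.MP_bd65ca_an.Pg.VanI
import Pool.Agent.Lib.MP_bd65ca_an.Pg.Chi
import Pool.Agent.Lib.MP_bd65ca_an.Pg.Coef

/-!
# The Turán problem for polygons: the terms of the middles of the sides
-/

open MeasureTheory FourierTransform Pointwise Set Filter Topology
open scoped RealInnerProductSpace

namespace Pool.Agent.MPbd65ca.Pg

variable {k : ℕ} {g : ℤ → E 2}

theorem VanB_chi (y : ℝ) : chi y = ∫ ω in Icc (0 : ℝ) 1,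
    ((2 * Real.pi * (1 - ω) : ℝ) : ℂ) * (Real.fourierChar (ω * y) : ℂ) := by
  rw [chi, intervalIntegral.integral_of_le zero_le_one, integral_Icc_eq_integral_Ioc]
  simp only [Real.fourierChar_apply]

theorem VanB_chi_mul (a b : ℝ) : chi a * chi b = ∫ p in Icc (0 : ℝ × ℝ) 1,
    (((2 * Real.pi * (1 - p.1) : ℝ) : ℂ) * (Real.fourierChar (p.1 * a) : ℂ)) *
      (((2 * Real.pi * (1 - p.2) : ℝ) : ℂ) * (Real.fourierChar (p.2 * b) : ℂ)) := by
  rw [VanB_chi a, VanB_chi b, Icc_prod_eq, Measure.volume_eq_prod]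
  exact (setIntegral_prod_mul (μ := (volume : Measure ℝ)) (ν := (volume : Measure ℝ))
    (fun ω : ℝ => ((2 * Real.pi * (1 - ω) : ℝ) : ℂ) * (Real.fourierChar (ω * a) : ℂ))
    (fun ω : ℝ => ((2 * Real.pi * (1 - ω) : ℝ) : ℂ) * (Real.fourierChar (ω * b) : ℂ))
    (Icc (0 : ℝ) 1) (Icc (0 : ℝ) 1)).symm

/-- The terms of the middles of the sides have their spectrum in the body. -/
theorem Zon.vanish_hb (h : Zon k g) : ∃ c : ℝ, 0 ≤ c ∧ ∀ R : ℝ, 1 ≤ R → ∀ Φ : E 2 → ℂ,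
    Vanish (Metric.closedBall 0 (1 / R)) Φ → ∃ T₀ : ℝ, 0 < T₀ ∧ ∀ T : ℝ, T₀ ≤ T →
      ∀ j : ℕ, j < k →
        Vanish ((zg k g + zg k g) \ {0}) (fun t => Φ (T⁻¹ • t) * hb g c R j (T⁻¹ • t) *
          (Real.fourierChar ⟪t, vx k g j + vx k g (j + 1)⟫ : ℂ)) := by
  obtain ⟨c, T₀, hc, hT₀, hnu⟩ := h.exists_nu
  refine ⟨c, hc, fun R hR Φ hΦ => ⟨T₀, hT₀, fun T hT j _ => ?_⟩⟩
  have hTp : 0 < T := lt_of_lt_of_le hT₀ hT
  have hf : Vanish (Metric.closedBall 0 (1 / R / T)) (fun t => Φ (T⁻¹ • t)) :=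
    vanish_scale hΦ hTp
  have hm : Continuous (fun p : ℝ × ℝ => (((-(1 / 2) * bq g j : ℝ) : ℂ) *
      (((2 * Real.pi * (1 - p.1) : ℝ) : ℂ) * ((2 * Real.pi * (1 - p.2) : ℝ) : ℂ)))) := by
    fun_prop
  have hw : Continuous (fun p : ℝ × ℝ => vx k g j + vx k g (j + 1) + T⁻¹ • (R⁻¹ • nu g c j +
        p.1 • (-g (j - 1)) + p.2 • g (j + 1))) := by
    fun_prop
  have hv : ∀ p ∈ Icc (0 : ℝ × ℝ) 1, Vanish ((zg k g + zg k g) \ {0})
      (fun x => (Real.fourierChar ⟪x, vx k g j + vx k g (j + 1) + T⁻¹ • (R⁻¹ • nu g c j +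
        p.1 • (-g (j - 1)) + p.2 • g (j + 1))⟫ : ℂ) * Φ (T⁻¹ • x)) := by
    intro p hp
    refine ((hf.modulate (vx k g j + vx k g (j + 1) + T⁻¹ • (R⁻¹ • nu g c j +
        p.1 • (-g (j - 1)) + p.2 • g (j + 1)))).mono (hnu R hR T hT j p hp)).congr fun x => ?_
    rw [Circle.smul_def, smul_eq_mul]
  refine (vanish_integral hf.1 hm hw hv).congr fun t => ?_
  have h1 : Φ (T⁻¹ • t) * hb g c R j (T⁻¹ • t) *
      (Real.fourierChar ⟪t, vx k g j + vx k g (j + 1)⟫ : ℂ) =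
      (Φ (T⁻¹ • t) * ((-(1 / 2) * bq g j : ℝ) : ℂ) *
        Complex.exp ((2 * Real.pi * (⟪nu g c j, T⁻¹ • t⟫ / R) : ℝ) * Complex.I) *
        (Real.fourierChar ⟪t, vx k g j + vx k g (j + 1)⟫ : ℂ)) *
      (chi (-(Yf g (j - 1) (T⁻¹ • t))) * chi (Yf g (j + 1) (T⁻¹ • t))) := by
    rw [hb]
    ring
  rw [h1, VanB_chi_mul, ← integral_const_mul]
  refine integral_congr_ae (Eventually.of_forall fun p => ?_)
  have h2 : (Real.fourierChar ⟪t, vx k g j + vx k g (j + 1) + T⁻¹ • (R⁻¹ • nu g c j +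
        p.1 • (-g (j - 1)) + p.2 • g (j + 1))⟫ : ℂ) =
      (Real.fourierChar ⟪t, vx k g j + vx k g (j + 1)⟫ : ℂ) *
        (Real.fourierChar (⟪nu g c j, T⁻¹ • t⟫ / R) : ℂ) *
        (Real.fourierChar (p.1 * (-(Yf g (j - 1) (T⁻¹ • t)))) : ℂ) *
        (Real.fourierChar (p.2 * Yf g (j + 1) (T⁻¹ • t)) : ℂ) := by
    rw [← Circle.coe_mul, ← AddChar.map_add_eq_mul, ← Circle.coe_mul, ← AddChar.map_add_eq_mul,
      ← Circle.coe_mul, ← AddChar.map_add_eq_mul]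
    congr 2
    simp only [Yf, inner_add_right, real_inner_smul_right, inner_neg_right]
    rw [real_inner_comm t (nu g c j), real_inner_comm t (g (j - 1)),
      real_inner_comm t (g (j + 1))]
    field_simp
    ring
  simp only [h2, ← Real.fourierChar_apply]
  ring

end Pool.Agent.MPbd65ca.Pg
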