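import Pool.Agent.Lib.MP_bd65ca_an.Pg.ProfDef
import Pool.Agent.Lib.MP_bd65ca_an.Pg.VanB

/-!
# The Turán problem for polygons: spectrum and integral of the perturbation
-/

open MeasureTheory FourierTransform Pointwise Set Filter Topology
open scoped RealInnerProductSpace

namespace Pool.Agent.MPbd65ca.Pg

variable {k : ℕ} {g : ℤ → E 2}

theorem GTv_zero_int {K : Set (E 2)} (h : IsBody K) : (0 : E 2) ∈ interior K := by
  obtain ⟨p, hp⟩ := h.nonempty_interior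
  have hn : -p ∈ K := h.neg_mem _ (interior_subset hp)
  have := h.convex.combo_interior_self_mem_interior hp hn (a := 1 / 2) (b := 1 / 2)
    (by norm_num) (by norm_num) (by norm_num)
  simpa using this

theorem GTv_ball {K : Set (E 2)} {f : E 2} (hf : (1 / 2 : ℝ) • f ∈ interior K) (hf0 : f ≠ 0) :
    ∃ r : ℝ, 0 < r ∧ Metric.closedBall f r ⊆ (K + K) \ {0} := by
  obtain ⟨ε, hε, hball⟩ := Metric.isOpen_iff.1 isOpen_interior _ hf
  have hn : 0 < ‖f‖ := norm_pos_iff.2 hf0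
  refine ⟨min (ε / 2) (‖f‖ / 2), lt_min (by linarith) (by linarith), fun y hy => ?_⟩
  rw [mem_closedBall_iff_norm] at hy
  have h1 : (1 / 2 : ℝ) • y ∈ K := by
    apply interior_subset (hball _)
    rw [mem_ball_iff_norm, ← smul_sub, norm_smul, Real.norm_of_nonneg (by norm_num)]
    have := hy.trans (min_le_left _ _)
    linarith
  refine ⟨⟨(1 / 2 : ℝ) • y, h1, (1 / 2 : ℝ) • y, h1, ?_⟩, ?_⟩
  · show (1 / 2 : ℝ) • y + (1 / 2 : ℝ) • y = y
    rw [← add_smul]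
    norm_num
  · rintro (hy0 : y = 0)
    rw [hy0, zero_sub, norm_neg] at hy
    have := hy.trans (min_le_right _ _)
    linarith

theorem GTv_zc (k : ℕ) (g : ℤ → E 2) (t : E 2) (i j : ℤ) : (zc k g t i : ℂ) * (zc k g t j : ℂ) =
    (Real.fourierChar ⟪t, vx k g i + vx k g j⟫ : ℂ) := by
  rw [← Circle.coe_mul, inner_add_right, AddChar.map_add_eq_mul]
  rfl

theorem GTv_mono (k : ℕ) (g : ℤ → E 2) (t : E 2) (n : Ix) : mono n (zc k g t) =
    Real.fourierChar ⟪t, fq k g n⟫ := by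
  have h1 : ∀ (α : ℤ) (j : ℤ), zc k g t j ^ α = Real.fourierChar ⟪t, (α : ℝ) • vx k g j⟫ := by
    intro α j
    rw [inner_smul_right, zc, ← AddChar.map_zsmul_eq_zpow, zsmul_eq_mul]
  rw [mono, fq, h1, h1, inner_add_right, AddChar.map_add_eq_mul]

theorem Zon.exists_GT (h : Zon k g) : ∃ c : ℝ, ∀ (R M S C : ℝ) (Ψ : E 2 → ℝ)
    (s : Ix → Finset (E 2)) (b : Ix → E 2 → ℂ) (s0 : Finset (E 2)) (b0 : E 2 → ℂ),
    Prof k g c R M S C Ψ s b s0 b0 → ∃ T₀ : ℝ, 0 < T₀ ∧ ∀ T : ℝ, T₀ ≤ T →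
      Vanish (zg k g + zg k g) (fun t => (GT k g c R M Ψ s b s0 b0 T t : ℂ)) ∧
      ∫ t, GT k g c R M Ψ s b s0 b0 T t = T ^ 2 * ∫ u : E 2,
        (Ψ (R⁻¹ • u) ^ 2 * (tp s0 b0 u).re + M * Ψ (R⁻¹ • u)) := by
  obtain ⟨c, -, hc⟩ := h.vanish_hb
  refine ⟨c, fun R M S C Ψ s b s0 b0 p => ?_⟩
  have hR0 : 0 < R := by linarith [p.hR]
  have hbody := h.isBody
  have hsym : ∀ x ∈ zg k g + zg k g, -x ∈ zg k g + zg k g := by
    rintro _ ⟨x, hx, y, hy, rfl⟩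
    refine ⟨-x, hbody.neg_mem x hx, -y, hbody.neg_mem y hy, ?_⟩
    show -x + -y = -(x + y)
    abel
  have hsym0 : ∀ x ∈ (zg k g + zg k g) \ {0}, -x ∈ (zg k g + zg k g) \ {0} := by
    rintro x ⟨hx, hx0⟩
    refine ⟨hsym x hx, ?_⟩
    rintro (hx1 : -x = 0)
    exact hx0 (neg_eq_zero.1 hx1)
  set Φ : E 2 → ℂ := fun u => ((Ψ (R⁻¹ • u) ^ 2 : ℝ) : ℂ) with hΦd
  have hΦ : Vanish (Metric.closedBall 0 (1 / R)) Φ := vanish_scale p.van2 hR0
  have hΦ1 : Vanish (Metric.closedBall 0 (1 / R)) (fun u => (Ψ (R⁻¹ • u) : ℂ)) :=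
    vanish_scale p.van1 hR0
  obtain ⟨T1, hT1, h1⟩ := hc R p.hR Φ hΦ
  have hfr : ∀ n ∈ Fr k g, ∃ T₀ : ℝ, 0 < T₀ ∧ ∀ T : ℝ, T₀ ≤ T →
      Vanish ((zg k g + zg k g) \ {0}) (fun t => Φ (T⁻¹ • t) * tp (s n) (b n) (T⁻¹ • t) *
        (Real.fourierChar ⟪t, fq k g n⟫ : ℂ)) := by
    intro n hn
    have hn' : (1 / 2 : ℝ) • fq k g n ∈ interior (zg k g) ∧ fq k g n ≠ 0 := by
      classical
      simp only [Fr, Finset.mem_filter] at hn
      exact hn.2
    obtain ⟨r, hr, hsub⟩ := GTv_ball hn'.1 hn'.2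
    obtain ⟨T₀, hT₀, hT⟩ := vanish_tp hΦ (s n) (b n) (fq k g n) hr
    exact ⟨T₀, hT₀, fun T hTT => (hT T hTT).mono hsub⟩
  choose! T2 hT2 h2 using hfr
  have h0int := GTv_zero_int hbody
  obtain ⟨r0, hr0, hball⟩ := Metric.isOpen_iff.1 isOpen_interior _ h0int
  have hzz : zg k g ⊆ zg k g + zg k g := fun x hx =>
    ⟨x, hx, 0, interior_subset h0int, add_zero x⟩
  have hsub0 : Metric.closedBall (0 : E 2) (r0 / 2) ⊆ zg k g + zg k g := fun x hx =>
    hzz (interior_subset (hball (Metric.closedBall_subset_ball (by linarith) hx)))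
  obtain ⟨T3, hT3, h3⟩ := vanish_tp hΦ s0 b0 0 (r := r0 / 2) (by linarith)
  have hS0 : 0 ≤ ∑ n ∈ Fr k g, T2 n := Finset.sum_nonneg fun n hn => (hT2 n hn).le
  have hq0 : 0 < 2 / r0 := by positivity
  refine ⟨T1 + (∑ n ∈ Fr k g, T2 n) + T3 + 2 / r0, by linarith, fun T hT => ?_⟩
  have hT0 : 0 < T := by linarith
  have hA : ∀ j ∈ Finset.range k, Vanish ((zg k g + zg k g) \ {0}) (fun t => (((Φ (T⁻¹ • t) *
      hb g c R j (T⁻¹ • t) * (Real.fourierChar ⟪t, vx k g j + vx k g (j + 1)⟫ : ℂ)).re : ℝ) :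
        ℂ)) := fun j hj => vanish_re hsym0 (h1 T (by linarith) j (Finset.mem_range.1 hj))
  have hB : ∀ n ∈ Fr k g, Vanish ((zg k g + zg k g) \ {0}) (fun t => (((Φ (T⁻¹ • t) *
      tp (s n) (b n) (T⁻¹ • t) * (Real.fourierChar ⟪t, fq k g n⟫ : ℂ)).re : ℝ) : ℂ)) := by
    intro n hn
    refine vanish_re hsym0 (h2 n hn T ?_)
    have := Finset.single_le_sum (f := T2) (fun n hn => (hT2 n hn).le) hn
    linarith
  have hD := vanish_re hsym ((h3 T (by linarith)).mono hsub0)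
  have hE : Vanish (zg k g + zg k g) (fun t => (M : ℂ) * (Ψ (R⁻¹ • T⁻¹ • t) : ℂ)) := by
    refine ((vanish_scale hΦ1 hT0).mono (Metric.closedBall_subset_closedBall ?_ |>.trans
      hsub0)).const_mul (M : ℂ)
    have e1 : 2 / r0 ≤ T := by linarith
    have e2 : 1 / R ≤ 1 := by
      rw [div_le_one hR0]
      exact p.hR
    rw [div_le_iff₀ hT0]
    rw [div_le_iff₀ hr0] at e1
    linarith
  have hF1 := (Vanish.sum _ _ hA).add (Vanish.sum _ _ hB)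
  have hF2 := hD.add hE
  -- the real parts
  set f1 : E 2 → ℝ := fun t => ∑ j ∈ Finset.range k, (Φ (T⁻¹ • t) *
      hb g c R j (T⁻¹ • t) * (Real.fourierChar ⟪t, vx k g j + vx k g (j + 1)⟫ : ℂ)).re +
    ∑ n ∈ Fr k g, (Φ (T⁻¹ • t) *
      tp (s n) (b n) (T⁻¹ • t) * (Real.fourierChar ⟪t, fq k g n⟫ : ℂ)).re with hf1
  set F : E 2 → ℝ := fun u => Ψ (R⁻¹ • u) ^ 2 * (tp s0 b0 u).re + M * Ψ (R⁻¹ • u) with hF
  have e1 : Vanish ((zg k g + zg k g) \ {0}) (fun t => (f1 t : ℂ)) := by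
    refine hF1.congr fun t => ?_
    rw [hf1]
    push_cast
    rfl
  have e2 : Vanish (zg k g + zg k g) (fun t => ((F (T⁻¹ • t) : ℝ) : ℂ)) := by
    refine hF2.congr fun t => ?_
    rw [hF]
    simp only [inner_zero_right, AddChar.map_zero_eq_one, Circle.coe_one, mul_one, hΦd,
      Complex.re_ofReal_mul]
    push_cast
    rfl
  have hG : ∀ t, GT k g c R M Ψ s b s0 b0 T t = f1 t + F (T⁻¹ • t) := by
    intro t
    rw [GT, pT, hp, ip, hf1, hF, mul_add, mul_add, Finset.mul_sum, Finset.mul_sum]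
    have q1 : ∀ j : ℕ, Ψ (R⁻¹ • T⁻¹ • t) ^ 2 * (hb g c R j (T⁻¹ • t) *
        ((zc k g t j : ℂ) * (zc k g t (j + 1) : ℂ))).re = (Φ (T⁻¹ • t) *
      hb g c R j (T⁻¹ • t) * (Real.fourierChar ⟪t, vx k g j + vx k g (j + 1)⟫ : ℂ)).re := by
      intro j
      rw [GTv_zc, hΦd, mul_assoc, Complex.re_ofReal_mul]
    have q2 : ∀ n : Ix, Ψ (R⁻¹ • T⁻¹ • t) ^ 2 * (tp (s n) (b n) (T⁻¹ • t) *
        (mono n (zc k g t) : ℂ)).re = (Φ (T⁻¹ • t) *
      tp (s n) (b n) (T⁻¹ • t) * (Real.fourierChar ⟪t, fq k g n⟫ : ℂ)).re := by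
      intro n
      rw [GTv_mono, hΦd, mul_assoc, Complex.re_ofReal_mul]
    simp only [q1, q2]
    ring
  have hi1 : Integrable f1 := by
    have := e1.1.re
    simpa using this
  have hi2 : Integrable (fun t => F (T⁻¹ • t)) := by
    have := e2.1.re
    simpa using this
  refine ⟨?_, ?_⟩
  · refine ((e1.mono Set.sdiff_subset).add e2).congr fun t => ?_
    rw [hG]
    push_cast
    rfl
  · simp only [hG]
    rw [integral_add hi1 hi2]
    have z1 : ∫ t, f1 t = 0 := by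
      have := e1.integral_eq_zero (fun h0 => h0.2 rfl)
      rw [integral_complex_ofReal] at this
      exact_mod_cast this
    rw [z1, zero_add, Measure.integral_comp_inv_smul, finrank_euclideanSpace_fin,
      abs_of_pos (by positivity), smul_eq_mul]

end Pool.Agent.MPbd65ca.Pg
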