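import Pool.Agent.Lib.MP_bd65ca_an.Pg.Half

/-!
# The Turán problem for polygons: one of the sides is a vector in the interior
-/

open MeasureTheory FourierTransform Pointwise Set
open scoped RealInnerProductSpace

namespace Pool.Agent.MPbd65ca.Pg

variable {k : ℕ} {g : ℤ → E 2}

private lemma Gen4_three {f : ℕ → ℝ} (hf : ∀ i, 0 ≤ f i) {p q r : ℕ} (hp : p < k) (hq : q < k)
    (hr : r < k) (hpq : p ≠ q) (hpr : p ≠ r) (hqr : q ≠ r) :
    f p + f q + f r ≤ ∑ l ∈ Finset.range k, f l := by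
  have h1 : ∑ l ∈ ({p, q, r} : Finset ℕ), f l = f p + f q + f r := by
    rw [Finset.sum_insert (by simp [hpq, hpr]), Finset.sum_insert (by simp [hqr]),
      Finset.sum_singleton, add_assoc]
  rw [← h1]
  refine Finset.sum_le_sum_of_subset_of_nonneg ?_ fun i _ _ => hf i
  intro i hi
  simp only [Finset.mem_insert, Finset.mem_singleton] at hi
  rw [Finset.mem_range]
  rcases hi with rfl | rfl | rfl <;> assumption

private lemma Gen4_fourth (hk : 4 ≤ k) (p q r : ℕ) : ∃ c < k, c ≠ p ∧ c ≠ q ∧ c ≠ r := by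
  have h1 : ({p, q, r} : Finset ℕ).card < (Finset.range k).card := by
    rw [Finset.card_range]
    exact (Finset.card_le_three).trans_lt (by omega)
  obtain ⟨c, hc, hc'⟩ := Finset.exists_mem_notMem_of_card_lt_card h1
  simp only [Finset.mem_insert, Finset.mem_singleton, not_or] at hc'
  exact ⟨c, Finset.mem_range.1 hc, hc'⟩

private lemma Gen4_alg {P Q x y v w : ℝ} (hx : 0 < x) (hy : 0 < y) (hv : 0 < v) (hw : 0 < w)
    (h1 : x + y ≤ P) (h2 : v + w ≤ P) (h3 : x + v ≤ Q) (h4 : y + w ≤ Q)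
    (h5 : P * Q ≤ x * w + y * v) : False := by
  have e1 : (x + y) * (y + w) ≤ P * Q := mul_le_mul h1 h4 (by linarith) (by linarith)
  have e2 : (v + w) * (x + v) ≤ P * Q := mul_le_mul h2 h3 (by linarith) (by linarith)
  have e3 : y * (x + y + w) ≤ y * v := by nlinarith
  have e4 : v * (x + v + w) ≤ v * y := by nlinarith
  have e5 := le_of_mul_le_mul_left e3 hy
  have e6 := le_of_mul_le_mul_left e4 hv
  linarith

private lemma Gen4_pl (a b c d : E 2) :
    |dt a b| * |dt c d| ≤ |dt a c| * |dt b d| + |dt a d| * |dt b c| := by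
  have h : dt a b * dt c d = dt a c * dt b d - dt a d * dt b c := by
    unfold dt
    ring
  rw [← abs_mul, ← abs_mul, ← abs_mul, h]
  exact abs_sub _ _

theorem Zon.exists_side (h : Zon k g) : ∃ l : ℕ, l < k ∧ g l ∈ interior (zg k g) := by
  classical
  by_contra hcon
  push Not at hcon
  have hk := h.hk
  obtain ⟨D, hD⟩ : ∃ D : ℕ → ℕ → ℝ, D = fun a b : ℕ => |dt (g a) (g b)| := ⟨_, rfl⟩
  obtain ⟨R, hR⟩ : ∃ R : ℕ → ℝ, R = fun a : ℕ => ∑ b ∈ Finset.range k, D a b := ⟨_, rfl⟩
  have hD0 : ∀ a b, 0 ≤ D a b := by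
    intro a b
    rw [hD]
    exact abs_nonneg _
  have hsym : ∀ a b, D a b = D b a := by
    intro a b
    rw [hD]
    show |dt (g a) (g b)| = |dt (g b) (g a)|
    rw [dt_swap (g b) (g a), abs_neg]
  have hDpos : ∀ a b, a < k → b < k → a ≠ b → 0 < D a b := by
    have key : ∀ a b, a < k → b < k → a < b → 0 < D a b := by
      intro a b ha hb hab
      rw [hD]
      have := h.pos (a : ℤ) (b : ℤ) (by omega) (by omega)
      exact abs_pos.2 this.ne'
    intro a b ha hb hab
    rcases lt_or_gt_of_ne hab with h1 | h1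
    · exact key a b ha hb h1
    · rw [hsym]
      exact key b a hb ha h1
  have hRpos : ∀ a, a < k → 0 < R a := by
    intro a ha
    obtain ⟨c, hc, hca, -, -⟩ := Gen4_fourth hk a a a
    rw [hR]
    exact Finset.sum_pos' (fun i _ => hD0 a i) ⟨c, Finset.mem_range.2 hc,
      hDpos a c ha hc (Ne.symm hca)⟩
  have hnb : ∀ a, a < k → ∃ b, b < k ∧ b ≠ a ∧ R b ≤ 2 * D a b := by
    intro a ha
    have h1 : ∃ j : ℤ, ¬ |dt (g j) (g a)| < 1 / 2 * ∑ l ∈ Finset.range k, |dt (g j) (g l)| := by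
      by_contra hc
      push Not at hc
      exact hcon a ha (h.mem_interior hc)
    obtain ⟨j, hj⟩ := h1
    obtain ⟨b, hb, hjb⟩ := exists_per k (by omega)
      (fun j : ℤ => (|dt (g j) (g a)|, ∑ l ∈ Finset.range k, |dt (g j) (g l)|)) (fun j => by
        simp only [h.anti, dt_neg_left, abs_neg]) j
    have h2 := congrArg Prod.fst hjb
    have h3 := congrArg Prod.snd hjb
    simp only at h2 h3
    rw [h2, h3, not_lt] at hj
    have h4 : R b ≤ 2 * D b a := by
      rw [hR, hD]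
      show ∑ l ∈ Finset.range k, |dt (g b) (g l)| ≤ 2 * |dt (g b) (g a)|
      linarith
    refine ⟨b, hb, ?_, ?_⟩
    · intro hba
      rw [hba] at h4
      have h5 := hRpos a ha
      have h6 : D a a = 0 := by
        rw [hD]
        show |dt (g a) (g a)| = 0
        rw [dt_self, abs_zero]
      rw [h6] at h4
      linarith
    · rwa [hsym]
  have hthree : ∀ a p q r, p < k → q < k → r < k → p ≠ q → p ≠ r → q ≠ r →
      D a p + D a q + D a r ≤ R a := by
    intro a p q r hp hq hr h1 h2 h3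
    rw [hR]
    exact Gen4_three (hD0 a) hp hq hr h1 h2 h3
  obtain ⟨a, ha, hamin⟩ := Finset.exists_min_image (Finset.range k) R ⟨0, by
    rw [Finset.mem_range]; omega⟩
  rw [Finset.mem_range] at ha
  obtain ⟨b, hb, hba, hRb⟩ := hnb a ha
  have hRab : R a ≤ R b := hamin b (Finset.mem_range.2 hb)
  have hne2 : ((Finset.range k).filter fun c => c ≠ a ∧ c ≠ b).Nonempty := by
    obtain ⟨c, hc, h1, h2, -⟩ := Gen4_fourth hk a b b
    exact ⟨c, Finset.mem_filter.2 ⟨Finset.mem_range.2 hc, h1, h2⟩⟩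
  obtain ⟨a', ha', hamin'⟩ := Finset.exists_min_image _ R hne2
  rw [Finset.mem_filter, Finset.mem_range] at ha'
  obtain ⟨ha'k, ha'a, ha'b⟩ := ha'
  obtain ⟨b', hb', hb'a', hRb'⟩ := hnb a' ha'k
  obtain ⟨c, hc, hca, hcb, hca'⟩ := Gen4_fourth hk a b a'
  have hb'a : b' ≠ a := by
    intro he
    rw [he] at hRb'
    have h1 := hthree a b a' c hb ha'k hc (Ne.symm ha'b) (Ne.symm hcb) (Ne.symm hca')
    have h2 := hDpos a c ha hc (Ne.symm hca)
    have h3 := hsym a a'
    linarith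
  have hb'b : b' ≠ b := by
    intro he
    rw [he] at hRb'
    have h1 := hthree b a a' c ha ha'k hc (Ne.symm ha'a) (Ne.symm hca) (Ne.symm hca')
    have h2 := hDpos b c hb hc (Ne.symm hcb)
    have h3 := hsym b a'
    have h4 := hsym b a
    linarith
  have hRa' : R a' ≤ R b' :=
    hamin' b' (Finset.mem_filter.2 ⟨Finset.mem_range.2 hb', hb'a, hb'b⟩)
  have i1 := hthree a b a' b' hb ha'k hb' (Ne.symm ha'b) (Ne.symm hb'b) (Ne.symm hb'a')
  have i2 := hthree b a a' b' ha ha'k hb' (Ne.symm ha'a) (Ne.symm hb'a) (Ne.symm hb'a')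
  have i3 := hthree a' a b b' ha hb hb' (Ne.symm hba) (Ne.symm hb'a) (Ne.symm hb'b)
  have i4 := hthree b' a b a' ha hb ha'k (Ne.symm hba) (Ne.symm ha'a) (Ne.symm ha'b)
  have s1 := hsym b a
  have s2 := hsym a' a
  have s3 := hsym a' b
  have s4 := hsym b' a
  have s5 := hsym b' b
  have s6 := hsym b' a'
  have hpl : D a b * D a' b' ≤ D a a' * D b b' + D a b' * D b a' := by
    rw [hD]
    exact Gen4_pl _ _ _ _
  exact Gen4_alg (P := D a b) (Q := D a' b') (x := D a a') (y := D a b') (v := D b a')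
    (w := D b b') (hDpos a a' ha ha'k (Ne.symm ha'a)) (hDpos a b' ha hb' (Ne.symm hb'a))
    (hDpos b a' hb ha'k (Ne.symm ha'b)) (hDpos b b' hb hb' (Ne.symm hb'b))
    (by linarith) (by linarith) (by linarith) (by linarith) hpl

end Pool.Agent.MPbd65ca.Pg
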