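import Pool.Agent.Lib.MP_bd65ca_an.Pg.HalfB

/-!
# The Turán problem for polygons: the half-planes of the sides
-/

open MeasureTheory FourierTransform Pointwise Set
open scoped RealInnerProductSpace

namespace Pool.Agent.MPbd65ca.Pg

variable {k : ℕ} {g : ℤ → E 2}

theorem Half_pos (h : Zon k g) (j : ℤ) :
    0 < 1 / 2 * ∑ l ∈ Finset.range k, |dt (g j) (g l)| := by
  have hk := h.hk
  have h1 : 0 < dt (vx k g j) (vx k g (j + 1)) := h.dt_vx_vx (by omega) (by omega)
  rw [h.vx_succ, dt_add_right, dt_self, zero_add, dt_swap, h.dt_vx] at h1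
  linarith

theorem Half_dt (h : Zon k g) (j : ℤ) (a b : ℝ) :
    dt (g j) (a • vx k g j + b • vx k g (j + 1)) =
      -((a + b) * (1 / 2 * ∑ l ∈ Finset.range k, |dt (g j) (g l)|)) := by
  rw [h.vx_succ, dt_add_right, dt_smul_right, dt_smul_right, dt_add_right, dt_self, h.dt_vx]
  ring

theorem Half_zero_mem (k : ℕ) (g : ℤ → E 2) : (0 : E 2) ∈ zg k g :=
  ⟨fun _ => 0, fun _ => by norm_num, by simp⟩

theorem Zon.cone_mem (h : Zon k g) (j : ℤ) {a b : ℝ} (ha : 0 ≤ a) (hb : 0 ≤ b) :
    a • vx k g j + b • vx k g (j + 1) ∈ zg k g ↔ a + b ≤ 1 := by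
  have hpos := Half_pos h j
  constructor
  · intro hy
    have h1 := Half_dt h j a b
    obtain ⟨lam, hlam, hsum⟩ := hy
    rw [hsum, dt_sum_right] at h1
    have h2 : |∑ l ∈ Finset.range k, dt (g j) (lam l • g l)| ≤
        1 / 2 * ∑ l ∈ Finset.range k, |dt (g j) (g l)| := by
      refine (Finset.abs_sum_le_sum_abs _ _).trans ?_
      rw [Finset.mul_sum]
      refine Finset.sum_le_sum fun l _ => ?_
      rw [dt_smul_right, abs_mul]
      exact mul_le_mul_of_nonneg_right (hlam l) (abs_nonneg _)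
    rw [h1, abs_neg, abs_of_nonneg (mul_nonneg (add_nonneg ha hb) hpos.le)] at h2
    by_contra hcon
    push Not at hcon
    nlinarith
  · intro hab
    rcases eq_or_lt_of_le (add_nonneg ha hb) with h0 | h0
    · have ha0 : a = 0 := by linarith
      have hb0 : b = 0 := by linarith
      subst ha0
      subst hb0
      simpa using Half_zero_mem k g
    · have hp : (a / (a + b)) • vx k g j + (b / (a + b)) • vx k g (j + 1) ∈ zg k g :=
        convex_zg k g (h.vx_mem j) (h.vx_mem (j + 1)) (by positivity) (by positivity)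
          (by rw [← add_div, div_self h0.ne'])
      have h2 := (convex_zg k g).smul_mem_of_zero_mem (Half_zero_mem k g) hp
        (t := a + b) ⟨h0.le, hab⟩
      rw [smul_add, smul_smul, smul_smul, mul_div_cancel₀ _ h0.ne', mul_div_cancel₀ _ h0.ne'] at h2
      exact h2

theorem Half_continuous (a : E 2) : Continuous fun y : E 2 => dt a y := by
  unfold dt
  fun_prop

/-- The open half-planes of the sides describe the interior. -/
theorem Zon.mem_interior (h : Zon k g) {y : E 2}
    (hy : ∀ j : ℤ, |dt (g j) y| < 1 / 2 * ∑ l ∈ Finset.range k, |dt (g j) (g l)|) :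
    y ∈ interior (zg k g) := by
  have hk := h.hk
  set U : Set (E 2) := {y | ∀ i ∈ Finset.range k,
    |dt (g i) y| < 1 / 2 * ∑ l ∈ Finset.range k, |dt (g i) (g l)|} with hU
  have hUo : IsOpen U := by
    have : U = ⋂ i ∈ Finset.range k, {y : E 2 |
        |dt (g i) y| < 1 / 2 * ∑ l ∈ Finset.range k, |dt (g i) (g l)|} := by
      ext z
      simp [hU]
    rw [this]
    refine isOpen_biInter_finset fun i _ => ?_
    exact isOpen_lt (Half_continuous (g i)).abs continuous_const
  rw [_root_.mem_interior]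
  refine ⟨U, ?_, hUo, fun i _ => hy i⟩
  intro z hz
  have hall : ∀ j : ℤ, |dt (g j) z| < 1 / 2 * ∑ l ∈ Finset.range k, |dt (g j) (g l)| := by
    intro j
    obtain ⟨i, hi, hj⟩ := exists_per k (by omega)
      (fun j => |dt (g j) z| - 1 / 2 * ∑ l ∈ Finset.range k, |dt (g j) (g l)|) (fun j => by
        simp only [h.anti, dt_neg_left, abs_neg]) j
    have h1 := hz i (Finset.mem_range.2 hi)
    have h2 : |dt (g j) z| - 1 / 2 * ∑ l ∈ Finset.range k, |dt (g j) (g l)| =
      |dt (g i) z| - 1 / 2 * ∑ l ∈ Finset.range k, |dt (g i) (g l)| := hj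
    linarith
  obtain ⟨j, a, b, ha, hb, hzab⟩ := h.exists_cone z
  have h3 := hall j
  rw [hzab, Half_dt h, abs_neg,
    abs_of_nonneg (mul_nonneg (add_nonneg ha hb) (Half_pos h j).le)] at h3
  rw [hzab, h.cone_mem j ha hb]
  have hpos := Half_pos h j
  by_contra hcon
  push Not at hcon
  nlinarith

theorem Zon.isBody (h : Zon k g) : IsBody (zg k g) := by
  refine ⟨isCompact_zg k g, convex_zg k g, ⟨0, h.mem_interior fun j => ?_⟩, neg_mem_zg k g⟩
  rw [dt_zero_right, abs_zero]
  exact Half_pos h j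

end Pool.Agent.MPbd65ca.Pg
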