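import Pool.Agent.Lib.MP_bd65ca_an.Pg.Basic

/-!
# The Turán problem for polygons: the zonogon
-/

open MeasureTheory FourierTransform Pointwise Set
open scoped RealInnerProductSpace

namespace Pool.Agent.MPbd65ca.Pg

variable {k : ℕ} {g : ℤ → E 2}

theorem convex_zg (k : ℕ) (g : ℤ → E 2) : Convex ℝ (zg k g) := by
  rintro x ⟨lx, hx1, hx2⟩ y ⟨ly, hy1, hy2⟩ a b ha hb hab
  refine ⟨fun l => a * lx l + b * ly l, fun l => ?_, ?_⟩
  · have h1 := abs_le.1 (hx1 l)
    have h2 := abs_le.1 (hy1 l)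
    rw [abs_le]
    constructor
    · nlinarith [mul_le_mul_of_nonneg_left h1.1 ha, mul_le_mul_of_nonneg_left h2.1 hb]
    · nlinarith [mul_le_mul_of_nonneg_left h1.2 ha, mul_le_mul_of_nonneg_left h2.2 hb]
  · rw [hx2, hy2, Finset.smul_sum, Finset.smul_sum, ← Finset.sum_add_distrib]
    refine Finset.sum_congr rfl fun l _ => ?_
    rw [smul_smul, smul_smul, ← add_smul]

theorem neg_mem_zg (k : ℕ) (g : ℤ → E 2) : ∀ y ∈ zg k g, -y ∈ zg k g := by
  rintro y ⟨lam, h1, h2⟩
  refine ⟨fun l => -lam l, fun l => ?_, ?_⟩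
  · rw [abs_neg]
    exact h1 l
  · rw [h2, ← Finset.sum_neg_distrib]
    refine Finset.sum_congr rfl fun l _ => ?_
    rw [neg_smul]

theorem isCompact_zg (k : ℕ) (g : ℤ → E 2) : IsCompact (zg k g) := by
  have h1 : IsCompact (Set.pi Set.univ fun _ : Fin k => Set.Icc (-(1 / 2) : ℝ) (1 / 2)) :=
    isCompact_univ_pi fun _ => isCompact_Icc
  have h2 : Continuous (fun lam : Fin k → ℝ => ∑ i : Fin k, lam i • g (i : ℕ)) :=
    continuous_finsetSum _ fun i _ => (continuous_apply i).smul continuous_const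
  have h3 : zg k g = (fun lam : Fin k → ℝ => ∑ i : Fin k, lam i • g (i : ℕ)) ''
      (Set.pi Set.univ fun _ : Fin k => Set.Icc (-(1 / 2) : ℝ) (1 / 2)) := by
    apply Set.ext
    intro y
    constructor
    · rintro ⟨lam, h4, h5⟩
      refine ⟨fun i => lam i, fun i _ => abs_le.1 (h4 i), ?_⟩
      rw [h5, Finset.sum_range]
    · rintro ⟨lam, h4, h5⟩
      refine ⟨fun l => if hl : l < k then lam ⟨l, hl⟩ else 0, fun l => ?_, ?_⟩
      · by_cases hl : l < k
        · simp only [hl, dif_pos]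
          exact abs_le.2 (h4 ⟨l, hl⟩ (Set.mem_univ _))
        · simp only [hl, dif_neg, not_false_iff, abs_zero]
          norm_num
      · rw [← h5, Finset.sum_range]
        refine Finset.sum_congr rfl fun i _ => ?_
        simp
  rw [h3]
  exact h1.image h2

theorem Zon.vx_mem (h : Zon k g) (j : ℤ) : vx k g j ∈ zg k g := by
  refine (h.mem_zg j _).2 ⟨fun _ => -(1 / 2), fun _ => ?_, ?_⟩
  · rw [abs_neg, abs_of_pos (by norm_num)]
  · unfold vx
    rw [Finset.smul_sum]

private theorem HalfA_vx_add (h : Zon k g) (i : ℤ) (m : ℕ) :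
    vx k g (i + m) = vx k g i + ∑ a ∈ Finset.range m, g (i + a) := by
  induction m with
  | zero => simp
  | succ m ih =>
    have e : i + ((m + 1 : ℕ) : ℤ) = i + m + 1 := by push_cast; ring
    rw [e, h.vx_succ, ih, Finset.sum_range_succ, add_assoc]

theorem Zon.dt_vx_vx (h : Zon k g) {i l : ℤ} (h1 : i < l) (h2 : l < i + k) :
    0 < dt (vx k g i) (vx k g l) := by
  obtain ⟨m, hm⟩ : ∃ m : ℕ, l = i + m := ⟨(l - i).toNat, by omega⟩
  subst hm
  have hm0 : 0 < m := by omega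
  obtain ⟨r, hr⟩ : ∃ r : ℕ, k = m + r := ⟨k - m, by omega⟩
  have hr0 : 0 < r := by omega
  obtain ⟨A, hA⟩ : ∃ A : E 2, A = ∑ a ∈ Finset.range m, g (i + a) := ⟨_, rfl⟩
  obtain ⟨B, hB⟩ : ∃ B : E 2, B = ∑ b ∈ Finset.range r, g (i + ((m + b : ℕ) : ℤ)) := ⟨_, rfl⟩
  have hV : vx k g i = (-(1 / 2) : ℝ) • (A + B) := by
    unfold vx
    rw [hr, Finset.sum_range_add, hA, hB]
  have hVl : vx k g (i + m) = (1 / 2 : ℝ) • (A - B) := by
    rw [HalfA_vx_add h, hV, ← hA]
    have e : (1 / 2 : ℝ) • (A - B) = (-(1 / 2) : ℝ) • (A + B) + (1 : ℝ) • A := by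
      rw [smul_add, smul_sub]
      have e1 : (1 : ℝ) • A = (1 / 2 : ℝ) • A + (1 / 2 : ℝ) • A := by
        rw [← add_smul]
        norm_num
      rw [e1, neg_smul, neg_smul]
      abel
    rw [e, one_smul]
  have hAB : 0 < dt A B := by
    rw [hA, hB, dt_sum_left]
    refine Finset.sum_pos (fun a ha => ?_) ⟨0, Finset.mem_range.2 hm0⟩
    rw [dt_sum_right]
    refine Finset.sum_pos (fun b hb => ?_) ⟨0, Finset.mem_range.2 hr0⟩
    rw [Finset.mem_range] at ha hb
    refine h.pos _ _ ?_ ?_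
    · push_cast
      omega
    · rw [hr]
      push_cast
      omega
  rw [hVl, hV, dt_smul_left, dt_smul_right, dt_add_left, dt_sub_right, dt_sub_right, dt_self,
    dt_self, dt_swap A B]
  linarith

/-- The determinant of the side `j` and the vertex `j`. -/
theorem Zon.dt_vx (h : Zon k g) (j : ℤ) :
    dt (g j) (vx k g j) = -(1 / 2) * ∑ l ∈ Finset.range k, |dt (g j) (g l)| := by
  have h1 := sum_window k (fun l : ℤ => |dt (g j) (g l)|) (fun l => by
    rw [h.anti, dt_neg_right, abs_neg]) j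
  rw [← h1]
  unfold vx
  rw [dt_smul_right, dt_sum_right]
  congr 1
  refine Finset.sum_congr rfl fun l hl => ?_
  rw [Finset.mem_range] at hl
  rcases Nat.eq_zero_or_pos l with h0 | h0
  · subst h0
    simp [dt_self]
  · rw [abs_of_pos (h.pos _ _ (by omega) (by omega))]

end Pool.Agent.MPbd65ca.Pg
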