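import Pool.Agent.Lib.MP_bd65ca_an.Pg.HalfA

/-!
# The Turán problem for polygons: the cones of the sides cover the plane
-/

open MeasureTheory FourierTransform Pointwise Set
open scoped RealInnerProductSpace

namespace Pool.Agent.MPbd65ca.Pg

variable {k : ℕ} {g : ℤ → E 2}

theorem HalfB_sign (h : Zon k g) (y : E 2) :
    ∃ i : ℤ, 0 ≤ dt (vx k g i) y ∧ dt (vx k g (i + 1)) y ≤ 0 := by
  have hk := h.hk
  have hanti : ∀ i : ℤ, dt (vx k g (i + k)) y = -dt (vx k g i) y := by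
    intro i
    rw [h.vx_anti, dt_neg_left]
  obtain ⟨s, hs⟩ : ∃ s : ℤ, 0 ≤ dt (vx k g s) y := by
    rcases le_total 0 (dt (vx k g 0) y) with h0 | h0
    · exact ⟨0, h0⟩
    · refine ⟨0 + k, ?_⟩
      rw [hanti]
      linarith
  by_contra hcon
  push Not at hcon
  have hall : ∀ n : ℕ, 0 ≤ dt (vx k g (s + n)) y := by
    intro n
    induction n with
    | zero => simpa using hs
    | succ n ih =>
      have := hcon (s + n) ih
      have e : s + ((n + 1 : ℕ) : ℤ) = s + n + 1 := by push_cast; ring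
      rw [e]
      exact this.le
  obtain ⟨m, rfl⟩ : ∃ m, k = m + 1 := ⟨k - 1, by omega⟩
  have h1 := hcon (s + m) (hall m)
  have e : s + (m : ℤ) + 1 = s + ((m + 1 : ℕ) : ℤ) := by push_cast; ring
  rw [e, hanti] at h1
  linarith

/-- The cones of two consecutive vertices cover the plane. -/
theorem Zon.exists_cone (h : Zon k g) (y : E 2) : ∃ (j : ℤ) (a b : ℝ), 0 ≤ a ∧ 0 ≤ b ∧
    y = a • vx k g j + b • vx k g (j + 1) := by
  have hk := h.hk
  obtain ⟨i, h1, h2⟩ := HalfB_sign h y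
  have hD : 0 < dt (vx k g i) (vx k g (i + 1)) := h.dt_vx_vx (by omega) (by omega)
  have h3 := dt_comb (vx k g i) (vx k g (i + 1)) y
  rw [dt_swap (vx k g i) y] at h3
  set D := dt (vx k g i) (vx k g (i + 1)) with hDdef
  refine ⟨i, D⁻¹ * -dt (vx k g (i + 1)) y, D⁻¹ * dt (vx k g i) y,
    mul_nonneg (inv_nonneg.2 hD.le) (by linarith), mul_nonneg (inv_nonneg.2 hD.le) h1, ?_⟩
  have h5 : D • y = (-dt (vx k g (i + 1)) y) • vx k g i + dt (vx k g i) y • vx k g (i + 1) := by
    have h6 := eq_neg_of_add_eq_zero_right h3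
    rw [h6]
    simp only [neg_smul, neg_add, neg_neg]
  rw [mul_smul, mul_smul, ← smul_add, ← h5, smul_smul, inv_mul_cancel₀ hD.ne', one_smul]

end Pool.Agent.MPbd65ca.Pg
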