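import Pool.Agent.Lib.MP_bd65ca_an.Pg.Chi

/-!
# The Turán problem for polygons: the error of the functions of the middles of the sides
-/

open MeasureTheory FourierTransform Pointwise Set
open scoped RealInnerProductSpace

namespace Pool.Agent.MPbd65ca.Pg

variable {k : ℕ} {g : ℤ → E 2}

theorem HbErr_bracket {A B : ℝ} (hA : A ≠ 0) (hB : B ≠ 0) :
    ‖chi A * chi B + (((A * B)⁻¹ : ℝ) : ℂ)‖ ≤ 8 / ((1 + min |A| |B|) * (|A| * |B|)) := by
  have hA' : 0 < |A| := abs_pos.2 hA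
  have hB' : 0 < |B| := abs_pos.2 hB
  have hAc : (A : ℂ) ≠ 0 := Complex.ofReal_ne_zero.2 hA
  have hBc : (B : ℂ) ≠ 0 := Complex.ofReal_ne_zero.2 hB
  have h1 := norm_chi_sub_le A
  have h2 := norm_chi_sub_le B
  set P : ℂ := (A : ℂ) * chi A with hP
  set Q : ℂ := (B : ℂ) * chi B with hQ
  have hm0 : 0 < min |A| |B| := lt_min hA' hB'
  have h3 : 2 / (1 + |B|) ≤ 2 := by
    rw [div_le_iff₀ (by positivity)]
    nlinarith
  have hQ3 : ‖Q‖ ≤ 3 := by
    calc ‖Q‖ = ‖(Q - Complex.I) + Complex.I‖ := by rw [sub_add_cancel]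
      _ ≤ ‖Q - Complex.I‖ + ‖Complex.I‖ := norm_add_le _ _
      _ ≤ 2 + 1 := by
          rw [Complex.norm_I]
          linarith
      _ = 3 := by norm_num
  have h4 : P * Q + 1 = (P - Complex.I) * Q + Complex.I * (Q - Complex.I) := by
    have := Complex.I_mul_I
    linear_combination this
  have h5 : ‖P * Q + 1‖ ≤ 8 / (1 + min |A| |B|) := by
    rw [h4]
    have e1 : 2 / (1 + |A|) ≤ 2 / (1 + min |A| |B|) :=
      div_le_div_of_nonneg_left (by norm_num) (by positivity) (by linarith [min_le_left |A| |B|])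
    have e2 : 2 / (1 + |B|) ≤ 2 / (1 + min |A| |B|) :=
      div_le_div_of_nonneg_left (by norm_num) (by positivity) (by linarith [min_le_right |A| |B|])
    have e3 : 8 / (1 + min |A| |B|) = 2 / (1 + min |A| |B|) * 3 + 2 / (1 + min |A| |B|) := by
      ring
    refine (norm_add_le _ _).trans ?_
    rw [norm_mul (P - Complex.I) Q, norm_mul Complex.I (Q - Complex.I), Complex.norm_I, one_mul, e3]
    have e4 : ‖P - Complex.I‖ * ‖Q‖ ≤ 2 / (1 + min |A| |B|) * 3 :=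
      mul_le_mul (h1.trans e1) hQ3 (norm_nonneg _) (by positivity)
    linarith
  have h6 : chi A * chi B + (((A * B)⁻¹ : ℝ) : ℂ) = (P * Q + 1) / ((A : ℂ) * B) := by
    rw [hP, hQ]
    push_cast
    field_simp
  rw [h6, norm_div, norm_mul, Complex.norm_real, Complex.norm_real, Real.norm_eq_abs,
    Real.norm_eq_abs, ← div_div 8]
  exact div_le_div_of_nonneg_right h5 (mul_nonneg hA'.le hB'.le)

theorem HbErr_eE_nonneg (k : ℕ) (g : ℤ → E 2) {R : ℝ} (hR : 1 ≤ R) (u : E 2) :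
    0 ≤ eE k g R u := by
  unfold eE
  have h1 : 0 ≤ (R * (1 + ‖u‖))⁻¹ := by positivity
  have h2 : 0 ≤ ∑ j ∈ Finset.range k, ((1 + ‖u‖ ^ 2) * (1 + |Yf g j u|))⁻¹ :=
    Finset.sum_nonneg fun i _ => by positivity
  linarith

theorem HbErr_le_eE {k : ℕ} (g : ℤ → E 2) {R : ℝ} (hR : 1 ≤ R) (u : E 2) {i : ℕ} (hi : i < k)
    {a b : ℝ} (ha : 0 ≤ a) (hb : 0 ≤ b) :
    a * (R * (1 + ‖u‖))⁻¹ + b * ((1 + ‖u‖ ^ 2) * (1 + |Yf g i u|))⁻¹ ≤ (a + b) * eE k g R u := by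
  have h0 : 0 ≤ (R * (1 + ‖u‖))⁻¹ := by positivity
  have h1 : ((1 + ‖u‖ ^ 2) * (1 + |Yf g i u|))⁻¹ ≤
      ∑ j ∈ Finset.range k, ((1 + ‖u‖ ^ 2) * (1 + |Yf g j u|))⁻¹ :=
    Finset.single_le_sum (f := fun j : ℕ => ((1 + ‖u‖ ^ 2) * (1 + |Yf g j u|))⁻¹)
      (fun j _ => by positivity) (Finset.mem_range.2 hi)
  have h2 : 0 ≤ ((1 + ‖u‖ ^ 2) * (1 + |Yf g i u|))⁻¹ := by positivity
  unfold eE
  have h3 : a * (R * (1 + ‖u‖))⁻¹ ≤ a * ((R * (1 + ‖u‖))⁻¹ +
      ∑ j ∈ Finset.range k, ((1 + ‖u‖ ^ 2) * (1 + |Yf g j u|))⁻¹) :=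
    mul_le_mul_of_nonneg_left (by linarith) ha
  have h4 : b * ((1 + ‖u‖ ^ 2) * (1 + |Yf g i u|))⁻¹ ≤ b * ((R * (1 + ‖u‖))⁻¹ +
      ∑ j ∈ Finset.range k, ((1 + ‖u‖ ^ 2) * (1 + |Yf g j u|))⁻¹) :=
    mul_le_mul_of_nonneg_left (by linarith) hb
  rw [add_mul a b]
  exact add_le_add h3 h4

/-- Away from the lines the functions are near to the functions which are wanted. -/
theorem Zon.hb_err (h : Zon k g) (c : ℝ) : ∃ C : ℝ, 0 < C ∧ ∀ R : ℝ, 1 ≤ R → ∀ u : E 2,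
    1 ≤ ‖u‖ → (∀ j, Yf g j u ≠ 0) → ∀ j : ℕ, j < k →
      ‖hb g c R j u + ((1 / 2 * (bq g j / (Yf g (j - 1) u * Yf g (j + 1) u)) : ℝ) : ℂ)‖ *
        (min |Yf g (j - 1) u| |Yf g (j + 1) u| / ‖u‖) ≤ C * eE k g R u := by
  obtain ⟨c0, hc0, h2f⟩ := h.two_forms
  set c1 : ℝ := min 1 c0 with hc1
  have hc1p : 0 < c1 := lt_min one_pos hc0
  have hk := h.hk
  set K : ℕ → ℝ := fun j => 1 / 2 * bq g j * (72 * Real.pi * ‖nu g c j‖ / c1 + 16 / c0) with hK
  have hK0 : ∀ j, 0 ≤ K j := fun j => by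
    have := h.bq_pos j
    have := Real.pi_pos
    rw [hK]
    positivity
  refine ⟨1 + ∑ j ∈ Finset.range k, K j, ?_, ?_⟩
  · have : 0 ≤ ∑ j ∈ Finset.range k, K j := Finset.sum_nonneg fun i _ => hK0 i
    linarith
  intro R hR u hu hY j hj
  have hR0 : 0 < R := by linarith
  have hu0 : 0 < ‖u‖ := by linarith
  have hb0 : 0 < bq g j := h.bq_pos j
  have hpi := Real.pi_pos
  set A : ℝ := -Yf g (j - 1) u with hA
  set B : ℝ := Yf g (j + 1) u with hB
  have hAY : Yf g (j - 1) u = -A := by rw [hA, neg_neg]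
  have hA0 : A ≠ 0 := by
    rw [hA]
    exact neg_ne_zero.2 (hY _)
  have hB0 : B ≠ 0 := hY _
  have hA' : 0 < |A| := abs_pos.2 hA0
  have hB' : 0 < |B| := abs_pos.2 hB0
  have hmn : min |Yf g (j - 1) u| |B| = min |A| |B| := by rw [hAY, abs_neg]
  rw [hmn]
  set mn : ℝ := min |A| |B| with hmnd
  set mx : ℝ := max |A| |B| with hmxd
  have hmn0 : 0 < mn := lt_min hA' hB'
  have hmx0 : 0 < mx := lt_of_lt_of_le hA' (le_max_left _ _)
  have hprod : |A| * |B| = mn * mx := (min_mul_max |A| |B|).symm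
  have hprod1 : (1 + |A|) * (1 + |B|) = (1 + mn) * (1 + mx) := by
    have e1 : mn + mx = |A| + |B| := min_add_max _ _
    linear_combination hprod - e1
  have hmx : c0 * ‖u‖ ≤ mx := by
    have e1 := h2f u (j - 1) (j + 1) (by omega) (by omega)
    rw [hAY, abs_neg] at e1
    exact e1
  have hmx1 : c1 * (1 + ‖u‖) ≤ 1 + mx := by
    have e1 : c1 ≤ 1 := min_le_left _ _
    have e2 : c1 ≤ c0 := min_le_right _ _
    nlinarith
  -- the point
  set e : ℂ := Complex.exp ((2 * Real.pi * (⟪nu g c j, u⟫ / R) : ℝ) * Complex.I) with he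
  have hX : hb g c R j u + ((1 / 2 * (bq g j / (Yf g (j - 1) u * B)) : ℝ) : ℂ) =
      ((-(1 / 2) * bq g j : ℝ) : ℂ) *
        (chi A * chi B * (e - 1) + (chi A * chi B + (((A * B)⁻¹ : ℝ) : ℂ))) := by
    have e1 : (1 / 2 * (bq g j / (Yf g (j - 1) u * B)) : ℝ) =
        (-(1 / 2) * bq g j) * (A * B)⁻¹ := by
      rw [hAY]
      field_simp
    rw [e1, hb, ← hA, ← hB, ← he]
    push_cast
    ring
  have hnX : ‖hb g c R j u + ((1 / 2 * (bq g j / (Yf g (j - 1) u * B)) : ℝ) : ℂ)‖ ≤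
      1 / 2 * bq g j * (36 / ((1 + mn) * (1 + mx)) * (2 * Real.pi * ‖nu g c j‖ * ‖u‖ / R) +
        8 / ((1 + mn) * (mn * mx))) := by
    rw [hX, norm_mul]
    have e1 : ‖((-(1 / 2) * bq g j : ℝ) : ℂ)‖ = 1 / 2 * bq g j := by
      rw [Complex.norm_real, Real.norm_eq_abs, abs_mul, abs_of_pos hb0]
      norm_num
    rw [e1]
    refine mul_le_mul_of_nonneg_left ?_ (by positivity)
    refine (norm_add_le _ _).trans (add_le_add ?_ ?_)
    · rw [norm_mul, norm_mul]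
      have e2 : ‖chi A‖ * ‖chi B‖ ≤ 36 / ((1 + mn) * (1 + mx)) := by
        rw [← hprod1]
        calc ‖chi A‖ * ‖chi B‖ ≤ (6 / (1 + |A|)) * (6 / (1 + |B|)) :=
              mul_le_mul (norm_chi_le A) (norm_chi_le B) (norm_nonneg _) (by positivity)
          _ = 36 / ((1 + |A|) * (1 + |B|)) := by
              field_simp
              norm_num
      have e3 : ‖e - 1‖ ≤ 2 * Real.pi * ‖nu g c j‖ * ‖u‖ / R := by
        rw [he, mul_comm _ Complex.I]
        refine (Real.norm_exp_I_mul_ofReal_sub_one_le).trans ?_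
        rw [Real.norm_eq_abs, abs_mul, abs_of_pos (by positivity : 0 < 2 * Real.pi), abs_div,
          abs_of_pos hR0]
        have e4 := abs_real_inner_le_norm (nu g c j) u
        have e5 : 2 * Real.pi * ‖nu g c j‖ * ‖u‖ / R =
            2 * Real.pi * (‖nu g c j‖ * ‖u‖ / R) := by ring
        rw [e5]
        exact mul_le_mul_of_nonneg_left (div_le_div_of_nonneg_right e4 hR0.le) (by positivity)
      exact mul_le_mul e2 e3 (norm_nonneg _) (by positivity)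
    · have e2 := HbErr_bracket hA0 hB0
      rw [hprod] at e2
      exact e2
  have hT : ∃ i : ℕ, i < k ∧ mn = |Yf g i u| := by
    have hper : ∀ j', |Yf g (j' + k) u| = |Yf g j' u| := fun j' => h.abs_Yf_per u j'
    rcases min_choice |A| |B| with hm | hm
    · obtain ⟨i, hi, hi'⟩ := exists_per k (by omega) (fun j' => |Yf g j' u|) hper (j - 1)
      refine ⟨i, hi, ?_⟩
      rw [hmnd, hm, ← hi', hA, abs_neg]
    · obtain ⟨i, hi, hi'⟩ := exists_per k (by omega) (fun j' => |Yf g j' u|) hper (j + 1)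
      refine ⟨i, hi, ?_⟩
      rw [hmnd, hm, ← hi']
  obtain ⟨i, hi, hmi⟩ := hT
  have main : ‖hb g c R j u + ((1 / 2 * (bq g j / (Yf g (j - 1) u * B)) : ℝ) : ℂ)‖ *
      (mn / ‖u‖) ≤ K j * eE k g R u := by
    have t1 : 36 / ((1 + mn) * (1 + mx)) * (2 * Real.pi * ‖nu g c j‖ * ‖u‖ / R) * (mn / ‖u‖) ≤
        72 * Real.pi * ‖nu g c j‖ / c1 * (R * (1 + ‖u‖))⁻¹ := by
      have e1 : 36 / ((1 + mn) * (1 + mx)) * (2 * Real.pi * ‖nu g c j‖ * ‖u‖ / R) * (mn / ‖u‖) =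
          72 * Real.pi * ‖nu g c j‖ / R * (mn / (1 + mn)) * (1 / (1 + mx)) := by
        field_simp
        ring
      have e2 : 72 * Real.pi * ‖nu g c j‖ / c1 * (R * (1 + ‖u‖))⁻¹ =
          72 * Real.pi * ‖nu g c j‖ / R * 1 * (1 / (c1 * (1 + ‖u‖))) := by
        field_simp
      rw [e1, e2]
      refine mul_le_mul (mul_le_mul_of_nonneg_left ?_ (by positivity)) ?_ (by positivity)
        (by positivity)
      · rw [div_le_one (by positivity)]
        linarith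
      · exact one_div_le_one_div_of_le (by positivity) hmx1
    have t2 : 8 / ((1 + mn) * (mn * mx)) * (mn / ‖u‖) ≤
        16 / c0 * ((1 + ‖u‖ ^ 2) * (1 + |Yf g i u|))⁻¹ := by
      rw [← hmi]
      have e1 : 8 / ((1 + mn) * (mn * mx)) * (mn / ‖u‖) = 8 * (1 / (mx * ‖u‖ * (1 + mn))) := by
        field_simp
      have e2 : 16 / c0 * ((1 + ‖u‖ ^ 2) * (1 + mn))⁻¹ =
          8 * (1 / (c0 * ((1 + ‖u‖ ^ 2) / 2) * (1 + mn))) := by
        field_simp
        norm_num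
      rw [e1, e2]
      refine mul_le_mul_of_nonneg_left (one_div_le_one_div_of_le (by positivity) ?_) (by norm_num)
      refine mul_le_mul_of_nonneg_right ?_ (by positivity)
      have e3 : c0 * ‖u‖ * ‖u‖ ≤ mx * ‖u‖ := mul_le_mul_of_nonneg_right hmx hu0.le
      have e4 : (1 + ‖u‖ ^ 2) / 2 ≤ ‖u‖ * ‖u‖ := by nlinarith
      have e5 := mul_le_mul_of_nonneg_left e4 hc0.le
      nlinarith
    have t3 := HbErr_le_eE g hR u hi
      (a := 72 * Real.pi * ‖nu g c j‖ / c1) (b := 16 / c0) (by positivity) (by positivity)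
    calc ‖hb g c R j u + ((1 / 2 * (bq g j / (Yf g (j - 1) u * B)) : ℝ) : ℂ)‖ * (mn / ‖u‖)
        ≤ (1 / 2 * bq g j * (36 / ((1 + mn) * (1 + mx)) *
          (2 * Real.pi * ‖nu g c j‖ * ‖u‖ / R) + 8 / ((1 + mn) * (mn * mx)))) * (mn / ‖u‖) :=
          mul_le_mul_of_nonneg_right hnX (by positivity)
      _ = 1 / 2 * bq g j * (36 / ((1 + mn) * (1 + mx)) *
          (2 * Real.pi * ‖nu g c j‖ * ‖u‖ / R) * (mn / ‖u‖) +
            8 / ((1 + mn) * (mn * mx)) * (mn / ‖u‖)) := by ring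
      _ ≤ 1 / 2 * bq g j * ((72 * Real.pi * ‖nu g c j‖ / c1 + 16 / c0) * eE k g R u) := by
          refine mul_le_mul_of_nonneg_left ?_ (by positivity)
          exact (add_le_add t1 t2).trans t3
      _ = K j * eE k g R u := by rw [hK]; ring
  refine main.trans (mul_le_mul_of_nonneg_right ?_ (HbErr_eE_nonneg k g hR u))
  have := Finset.single_le_sum (f := K) (fun i _ => hK0 i) (Finset.mem_range.2 hj)
  linarith

end Pool.Agent.MPbd65ca.Pg
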