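import Pool.Agent.Lib.MP_bd65ca_an.Pg.Half

/-!
# The Turán problem for polygons: the frequencies in the interior
-/

open MeasureTheory FourierTransform Pointwise Set
open scoped RealInnerProductSpace

namespace Pool.Agent.MPbd65ca.Pg

variable {k : ℕ} {g : ℤ → E 2}

private lemma Inner_per (h : Zon k g) (v : E 2) (j : ℤ) :
    |dt v (g (j + k))| = |dt v (g j)| := by
  rw [h.anti, dt_neg_right, abs_neg]

private lemma Inner_dt (h : Zon k g) {p q : ℤ} (h0 : dt (g p) (g q) = 0) :
    ∃ m : ℤ, q = p + m * k := by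
  have hk := h.hk
  obtain ⟨r, m, hr, hq⟩ := exists_range k (by omega) (q - p)
  have hq' : q = p + r + m * k := by linarith
  have h1 : |dt (g p) (g q)| = |dt (g p) (g (p + r))| := by
    rw [hq']
    exact per_mul k (fun q => |dt (g p) (g q)|) (Inner_per h (g p)) (p + r) m
  rcases Nat.eq_zero_or_pos r with h2 | h2
  · subst h2
    exact ⟨m, by rw [hq']; push_cast; ring⟩
  · have h3 := h.pos p (p + r) (by omega) (by omega)
    rw [h0, abs_zero, abs_of_pos h3] at h1
    linarith

theorem Zon.int_of_coeff (h : Zon k g) (i : ℤ) (lam : ℕ → ℝ) (hl : ∀ l < k, |lam l| ≤ 1 / 2)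
    {l₁ l₂ : ℕ} (h₁ : l₁ < k) (h₂ : l₂ < k) (hne : l₁ ≠ l₂) (hl₁ : |lam l₁| < 1 / 2)
    (hl₂ : |lam l₂| < 1 / 2) : ∑ l ∈ Finset.range k, lam l • g (i + l) ∈ interior (zg k g) := by
  have hk := h.hk
  refine h.mem_interior fun j => ?_
  have e1 : ∑ l ∈ Finset.range k, |dt (g j) (g l)| =
      ∑ l ∈ Finset.range k, |dt (g j) (g (i + l))| :=
    (sum_window k (fun l => |dt (g j) (g l)|) (Inner_per h (g j)) i).symm
  rw [e1, dt_sum_right, Finset.mul_sum]
  refine (Finset.abs_sum_le_sum_abs _ _).trans_lt ?_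
  have e2 : ∀ l : ℕ, |dt (g j) (lam l • g (i + l))| = |lam l| * |dt (g j) (g (i + l))| := by
    intro l
    rw [dt_smul_right, abs_mul]
  refine Finset.sum_lt_sum (fun l hl' => ?_) ?_
  · rw [e2]
    exact mul_le_mul_of_nonneg_right (hl l (Finset.mem_range.1 hl')) (abs_nonneg _)
  · by_cases hc : dt (g j) (g (i + l₁)) = 0
    · by_cases hc' : dt (g j) (g (i + l₂)) = 0
      · exfalso
        obtain ⟨m₁, hm₁⟩ := Inner_dt h hc
        obtain ⟨m₂, hm₂⟩ := Inner_dt h hc'
        have h3 : (l₁ : ℤ) - l₂ = (m₁ - m₂) * k := by linarith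
        have h4 : m₁ - m₂ = 0 := by
          by_contra hn
          have h5 : (k : ℤ) ≤ |(m₁ - m₂) * k| := by
            rw [abs_mul, Nat.abs_cast]
            have h6 : 1 ≤ |m₁ - m₂| := Int.one_le_abs hn
            nlinarith
          rw [← h3] at h5
          have h7 : |(l₁ : ℤ) - l₂| < k := abs_lt.2 ⟨by omega, by omega⟩
          omega
        rw [h4, zero_mul] at h3
        exact hne (by omega)
      · refine ⟨l₂, Finset.mem_range.2 h₂, ?_⟩
        rw [e2]
        exact mul_lt_mul_of_pos_right hl₂ (abs_pos.2 hc')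
    · refine ⟨l₁, Finset.mem_range.2 h₁, ?_⟩
      rw [e2]
      exact mul_lt_mul_of_pos_right hl₁ (abs_pos.2 hc)

private lemma Inner_vx (h : Zon k g) (j : ℤ) (m : ℕ) :
    vx k g (j + m) = vx k g j + ∑ l ∈ Finset.range m, g (j + l) := by
  induction m with
  | zero => simp
  | succ m ih =>
    have e : j + ((m + 1 : ℕ) : ℤ) = j + m + 1 := by push_cast; ring
    rw [e, h.vx_succ, ih, Finset.sum_range_succ, add_assoc]

private lemma Inner_ext {m : ℕ} (hm : m ≤ k) (v : ℕ → E 2) :
    ∑ l ∈ Finset.range m, v l =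
      ∑ l ∈ Finset.range k, (if l < m then (1 : ℝ) else 0) • v l := by
  have h1 : ∑ l ∈ Finset.range m, (if l < m then (1 : ℝ) else 0) • v l =
      ∑ l ∈ Finset.range k, (if l < m then (1 : ℝ) else 0) • v l := by
    refine Finset.sum_subset (Finset.range_subset_range.2 hm) fun l _ hl => ?_
    rw [Finset.mem_range] at hl
    rw [if_neg hl, zero_smul]
  rw [← h1]
  refine Finset.sum_congr rfl fun l hl => ?_
  rw [if_pos (Finset.mem_range.1 hl), one_smul]

private lemma Inner_sum (h : Zon k g) (j : ℤ) {m : ℕ} (hm : m ≤ k) :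
    (1 / 2 : ℝ) • (vx k g j + vx k g (j + m)) =
      ∑ l ∈ Finset.range k, (if l < m then (0 : ℝ) else -(1 / 2)) • g (j + l) := by
  rw [Inner_vx h, Inner_ext hm (fun l => g (j + l))]
  unfold vx
  rw [← add_assoc, ← two_smul ℝ, smul_add, smul_smul, smul_smul, Finset.smul_sum, Finset.smul_sum,
    ← Finset.sum_add_distrib]
  refine Finset.sum_congr rfl fun l _ => ?_
  rw [smul_smul, ← add_smul]
  congr 1
  split_ifs <;> norm_num

theorem Zon.sum_int (h : Zon k g) (j : ℤ) {m : ℕ} (h2 : 2 ≤ m) (hm : m ≤ k) :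
    (1 / 2 : ℝ) • (vx k g j + vx k g (j + m)) ∈ interior (zg k g) := by
  have hk := h.hk
  rw [Inner_sum h j hm]
  refine h.int_of_coeff j _ (fun l _ => ?_) (l₁ := 0) (l₂ := 1) (by omega) (by omega)
    (by norm_num) ?_ ?_
  · split_ifs
    · norm_num
    · rw [abs_neg, abs_of_pos (by norm_num)]
  · rw [if_pos (by omega)]
    norm_num
  · rw [if_pos (by omega)]
    norm_num

theorem Zon.diff_int (h : Zon k g) (j : ℤ) {m : ℕ} (hm : m + 2 ≤ k) :
    (1 / 2 : ℝ) • (vx k g (j + m) - vx k g j) ∈ interior (zg k g) := by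
  have e : (1 / 2 : ℝ) • (vx k g (j + m) - vx k g j) =
      ∑ l ∈ Finset.range k, (if l < m then (1 / 2 : ℝ) else 0) • g (j + l) := by
    rw [Inner_vx h, Inner_ext (by omega : m ≤ k) (fun l => g (j + l)), add_sub_cancel_left,
      Finset.smul_sum]
    refine Finset.sum_congr rfl fun l _ => ?_
    rw [smul_smul]
    congr 1
    split_ifs <;> norm_num
  rw [e]
  refine h.int_of_coeff j _ (fun l _ => ?_) (l₁ := m) (l₂ := m + 1) (by omega) (by omega)
    (by omega) ?_ ?_
  · split_ifs
    · rw [abs_of_pos (by norm_num)]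
    · norm_num
  · rw [if_neg (by omega)]
    norm_num
  · rw [if_neg (by omega)]
    norm_num

private lemma Inner_diff_ne (h : Zon k g) (j : ℤ) {m : ℕ} (h1 : 1 ≤ m) (hm : m < k) :
    vx k g (j + m) - vx k g j ≠ 0 := by
  intro h0
  rw [Inner_vx h, add_sub_cancel_left] at h0
  have h2 : 0 < dt (g (j - 1)) (∑ l ∈ Finset.range m, g (j + l)) := by
    rw [dt_sum_right]
    refine Finset.sum_pos (fun l hl => ?_) ⟨0, Finset.mem_range.2 (by omega)⟩
    have h3 := Finset.mem_range.1 hl
    exact h.pos (j - 1) (j + l) (by omega) (by omega)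
  rw [h0, dt_zero_right] at h2
  exact lt_irrefl _ h2

theorem Zon.sum_ne (h : Zon k g) (j : ℤ) {m : ℕ} (hm : m < k) :
    vx k g j + vx k g (j + m) ≠ 0 := by
  have hk := h.hk
  rcases Nat.eq_zero_or_pos m with h0 | h0
  · subst h0
    intro h1
    have h2 := h.dt_vx_vx (i := j) (l := j + 1) (by omega) (by omega)
    have h3 : vx k g j = 0 := by
      have e : j + ((0 : ℕ) : ℤ) = j := by simp
      rw [e, ← two_smul ℝ] at h1
      exact (smul_eq_zero.1 h1).resolve_left (by norm_num)
    rw [h3, dt_zero_left] at h2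
    exact lt_irrefl _ h2
  · intro h1
    refine Inner_diff_ne h (j + m) (m := k - m) (by omega) (by omega) ?_
    have e : j + m + ((k - m : ℕ) : ℤ) = j + k := by
      rw [Nat.cast_sub hm.le]
      ring
    rw [e, h.vx_anti, ← neg_eq_zero, ← h1]
    abel

theorem Zon.diff_ne (h : Zon k g) (j : ℤ) {m : ℕ} (h1 : 1 ≤ m) (hm : m < k) :
    vx k g (j + m) - vx k g j ≠ 0 := Inner_diff_ne h j h1 hm

private lemma Inner_single (p : ℕ) (hp : p < k) (a : ℝ) (v : ℕ → E 2) :
    a • v p = ∑ l ∈ Finset.range k, (if l = p then a else 0) • v l := by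
  rw [Finset.sum_eq_single_of_mem p (Finset.mem_range.2 hp)]
  · rw [if_pos rfl]
  · intro l _ hl
    rw [if_neg hl, zero_smul]

/-- The middle of a side, moved in the directions of the two neighbouring sides. -/
theorem Zon.side_mem (h : Zon k g) (j : ℤ) {a b : ℝ} (ha : 0 ≤ a) (ha1 : a ≤ 1) (hb : 0 ≤ b)
    (hb1 : b ≤ 1) : (1 / 2 : ℝ) • (vx k g j + vx k g (j + 1)) + a • (-g (j - 1)) +
      b • g (j + 1) ∈ zg k g := by
  have hk := h.hk
  have e0 : (1 / 2 : ℝ) • (vx k g j + vx k g (j + 1)) =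
      ∑ l ∈ Finset.range k, (if l < 1 then (0 : ℝ) else -(1 / 2)) • g (j + l) := by
    have := Inner_sum h j (m := 1) (by omega)
    rwa [Nat.cast_one] at this
  have e1 : a • (-g (j - 1)) = ∑ l ∈ Finset.range k, (if l = k - 1 then a else 0) • g (j + l) := by
    rw [← Inner_single (k - 1) (by omega) a (fun l => g (j + l)), ← h.anti]
    congr 2
    have : ((k - 1 : ℕ) : ℤ) = (k : ℤ) - 1 := by
      rw [Nat.cast_sub (by omega)]
      simp
    rw [this]
    ring
  have e2 : b • g (j + 1) = ∑ l ∈ Finset.range k, (if l = 1 then b else 0) • g (j + l) := by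
    rw [← Inner_single 1 (by omega) b (fun l => g (j + l))]
    simp
  rw [e0, e1, e2, ← Finset.sum_add_distrib, ← Finset.sum_add_distrib, h.mem_zg j]
  refine ⟨fun l => (if l < 1 then (0 : ℝ) else -(1 / 2)) + (if l = k - 1 then a else 0) +
    (if l = 1 then b else 0), fun l => ?_, ?_⟩
  · rcases Nat.lt_or_ge l 1 with h1 | h1
    · simp only [if_pos h1, if_neg (by omega : ¬ l = k - 1), if_neg (by omega : ¬ l = 1)]
      norm_num
    · simp only [if_neg (by omega : ¬ l < 1)]
      by_cases h2 : l = k - 1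
      · simp only [if_pos h2, if_neg (by omega : ¬ l = 1)]
        rw [abs_le]
        constructor <;> linarith
      · simp only [if_neg h2]
        by_cases h3 : l = 1
        · simp only [if_pos h3]
          rw [abs_le]
          constructor <;> linarith
        · simp only [if_neg h3]
          rw [abs_le]
          constructor <;> linarith
  · refine Finset.sum_congr rfl fun l _ => ?_
    rw [add_smul, add_smul]

end Pool.Agent.MPbd65ca.Pg
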