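import Pool.Agent.Lib.MP_bd65ca_an.Pg.Defs

/-!
# The Turán problem for polygons: integrals over the plane
-/

open MeasureTheory FourierTransform Pointwise Set Filter Topology
open scoped RealInnerProductSpace

namespace Pool.Agent.MPbd65ca.Pg

theorem IntA_one : Integrable (fun x : ℝ => (1 + |x|) ^ (-(3 / 2 : ℝ))) := by
  have h := integrable_one_add_norm (E := ℝ) (μ := volume) (r := 3 / 2)
    (by rw [Module.finrank_self]; norm_num)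
  simpa only [Real.norm_eq_abs] using h

theorem IntA_rpow {X Y N : ℝ} (hX : 1 ≤ X) (hY : 1 ≤ Y) (hXN : X ^ 2 ≤ N) (hYN : Y ^ 2 ≤ N) :
    X ^ (1 / 2 : ℝ) * Y ^ (3 / 2 : ℝ) ≤ N := by
  have h0 : 0 ≤ N := (sq_nonneg X).trans hXN
  have h1 : X ≤ Real.sqrt N := Real.le_sqrt_of_sq_le hXN
  have h2 : Y ≤ Real.sqrt N := Real.le_sqrt_of_sq_le hYN
  have hs : 0 < Real.sqrt N := by linarith
  calc X ^ (1 / 2 : ℝ) * Y ^ (3 / 2 : ℝ) ≤ Real.sqrt N ^ (1 / 2 : ℝ) * Real.sqrt N ^ (3 / 2 : ℝ) :=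
        mul_le_mul (Real.rpow_le_rpow (by linarith) h1 (by norm_num))
          (Real.rpow_le_rpow (by linarith) h2 (by norm_num))
          (Real.rpow_nonneg (by linarith) _) (Real.rpow_nonneg hs.le _)
    _ = Real.sqrt N ^ (2 : ℝ) := by
        rw [← Real.rpow_add hs]
        norm_num
    _ = N := by
        rw [Real.rpow_two, Real.sq_sqrt h0]

theorem IntA_pt {r p q : ℝ} (hr : 0 < r) : ((1 + (p ^ 2 + q ^ 2)) * (1 + r * |p|))⁻¹ ≤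
    2 * (min 1 r)⁻¹ * ((1 + |p|) ^ (-(3 / 2 : ℝ)) * (1 + |q|) ^ (-(3 / 2 : ℝ))) := by
  set m : ℝ := min 1 r with hm
  have hm0 : 0 < m := lt_min one_pos hr
  have hm1 : m ≤ 1 := min_le_left _ _
  have hmr : m ≤ r := min_le_right _ _
  set X : ℝ := 1 + |p| with hX
  set Y : ℝ := 1 + |q| with hY
  have hp := abs_nonneg p
  have hq := abs_nonneg q
  have hX1 : 1 ≤ X := by linarith
  have hY1 : 1 ≤ Y := by linarith
  have e1 : X ^ 2 ≤ 2 * (1 + (p ^ 2 + q ^ 2)) := by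
    rw [hX, ← sq_abs p]
    nlinarith [sq_nonneg (|p| - 1), sq_nonneg q]
  have e2 : Y ^ 2 ≤ 2 * (1 + (p ^ 2 + q ^ 2)) := by
    rw [hY, ← sq_abs q]
    nlinarith [sq_nonneg (|q| - 1), sq_nonneg p]
  have e3 := IntA_rpow hX1 hY1 e1 e2
  have e4 : m * X ≤ 1 + r * |p| := by
    rw [hX, mul_add, mul_one]
    exact add_le_add hm1 (mul_le_mul_of_nonneg_right hmr hp)
  have hX0 : 0 < X := by linarith
  have hY0 : 0 < Y := by linarith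
  have hN : 0 < 1 + (p ^ 2 + q ^ 2) := by positivity
  have hL : 0 < 1 + r * |p| := by positivity
  have e5 : m * (X ^ (3 / 2 : ℝ) * Y ^ (3 / 2 : ℝ)) ≤
      2 * ((1 + (p ^ 2 + q ^ 2)) * (1 + r * |p|)) := by
    have e6 : X ^ (3 / 2 : ℝ) = X ^ (1 / 2 : ℝ) * X := by
      rw [← Real.rpow_add_one hX0.ne']
      norm_num
    calc m * (X ^ (3 / 2 : ℝ) * Y ^ (3 / 2 : ℝ))
        = X ^ (1 / 2 : ℝ) * Y ^ (3 / 2 : ℝ) * (m * X) := by
          rw [e6]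
          ring
      _ ≤ (2 * (1 + (p ^ 2 + q ^ 2))) * (1 + r * |p|) :=
          mul_le_mul e3 e4 (by positivity) (by positivity)
      _ = _ := by ring
  rw [Real.rpow_neg hX0.le, Real.rpow_neg hY0.le, ← mul_inv]
  have hXY : 0 < X ^ (3 / 2 : ℝ) * Y ^ (3 / 2 : ℝ) :=
    mul_pos (Real.rpow_pos_of_pos hX0 _) (Real.rpow_pos_of_pos hY0 _)
  have hP : 0 < (1 + (p ^ 2 + q ^ 2)) * (1 + r * |p|) := mul_pos hN hL
  rw [mul_assoc, ← mul_inv, ← div_eq_mul_inv, inv_eq_one_div, div_le_div_iff₀ hP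
    (mul_pos hm0 hXY), one_mul]
  exact e5

theorem IntA_basis {v : E 2} (hv : v ≠ 0) : ∃ b : OrthonormalBasis (Fin 2) ℝ (E 2),
    ∀ u : E 2, ⟪v, u⟫ = ‖v‖ * b.repr u 0 := by
  have hr : 0 < ‖v‖ := norm_pos_iff.2 hv
  set e : Fin 2 → E 2 := ![‖v‖⁻¹ • v, ‖v‖⁻¹ • (!₂[-v 1, v 0] : E 2)] with he
  have hn2 : v 0 ^ 2 + v 1 ^ 2 = ‖v‖ ^ 2 := by
    rw [EuclideanSpace.real_norm_sq_eq, Fin.sum_univ_two]
  have hJ : ‖(!₂[-v 1, v 0] : E 2)‖ = ‖v‖ := by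
    rw [EuclideanSpace.norm_eq, EuclideanSpace.norm_eq, Fin.sum_univ_two, Fin.sum_univ_two]
    simp [add_comm]
  have hON : Orthonormal ℝ e := by
    constructor
    · intro i
      fin_cases i
      · show ‖‖v‖⁻¹ • v‖ = 1
        rw [norm_smul, norm_inv, norm_norm, inv_mul_cancel₀ hr.ne']
      · show ‖‖v‖⁻¹ • (!₂[-v 1, v 0] : E 2)‖ = 1
        rw [norm_smul, norm_inv, norm_norm, hJ, inv_mul_cancel₀ hr.ne']
    · have h0 : ⟪v, (!₂[-v 1, v 0] : E 2)⟫ = 0 := by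
        rw [PiLp.inner_apply, Fin.sum_univ_two]
        simp
        ring
      intro i j hij
      fin_cases i <;> fin_cases j
      · exact absurd rfl hij
      · show ⟪‖v‖⁻¹ • v, ‖v‖⁻¹ • (!₂[-v 1, v 0] : E 2)⟫ = 0
        rw [inner_smul_left, inner_smul_right, h0, mul_zero, mul_zero]
      · show ⟪‖v‖⁻¹ • (!₂[-v 1, v 0] : E 2), ‖v‖⁻¹ • v⟫ = 0
        rw [real_inner_comm, inner_smul_left, inner_smul_right, h0, mul_zero, mul_zero]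
      · exact absurd rfl hij
  have hsp : ⊤ ≤ Submodule.span ℝ (Set.range e) := by
    rw [hON.linearIndependent.span_eq_top_of_card_eq_finrank (by simp)]
  refine ⟨OrthonormalBasis.mk hON hsp, fun u => ?_⟩
  rw [OrthonormalBasis.repr_apply_apply, OrthonormalBasis.coe_mk]
  show _ = ‖v‖ * ⟪‖v‖⁻¹ • v, u⟫
  rw [real_inner_smul_left, ← mul_assoc, mul_inv_cancel₀ hr.ne', one_mul]

theorem integrable_line {v : E 2} (hv : v ≠ 0) :
    Integrable (fun u : E 2 => ((1 + ‖u‖ ^ 2) * (1 + |⟪v, u⟫|))⁻¹) := by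
  have hr : 0 < ‖v‖ := norm_pos_iff.2 hv
  obtain ⟨b, hb⟩ := IntA_basis hv
  set H : ℝ × ℝ → ℝ := fun p => 2 * (min 1 ‖v‖)⁻¹ *
    ((1 + |p.1|) ^ (-(3 / 2 : ℝ)) * (1 + |p.2|) ^ (-(3 / 2 : ℝ))) with hH
  have h0 : Integrable H := (IntA_one.mul_prod IntA_one).const_mul _
  have h1 : MeasurePreserving (fun ω : E 2 => ((ω 0, ω 1) : ℝ × ℝ)) :=
    (volume_preserving_finTwoArrow ℝ).comp
      (EuclideanSpace.volume_preserving_symm_measurableEquiv_toLp _)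
  have h2 : MeasurableEmbedding (fun ω : E 2 => ((ω 0, ω 1) : ℝ × ℝ)) :=
    (MeasurableEquiv.finTwoArrow (α := ℝ)).measurableEmbedding.comp
      (MeasurableEquiv.toLp 2 (Fin 2 → ℝ)).symm.measurableEmbedding
  have h3 : Integrable (fun ω : E 2 => H (ω 0, ω 1)) := (h1.integrable_comp_emb h2).2 h0
  have h4 : Integrable (fun u : E 2 => H (b.repr u 0, b.repr u 1)) :=
    (b.repr.measurePreserving.integrable_comp_emb b.repr.toHomeomorph.measurableEmbedding).2 h3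
  refine h4.mono' ?_ (Eventually.of_forall fun u => ?_)
  · apply Continuous.aestronglyMeasurable
    refine Continuous.inv₀ (by fun_prop) fun u => ?_
    positivity
  · rw [Real.norm_of_nonneg (by positivity), hb, abs_mul, abs_norm]
    have h5 : ‖u‖ ^ 2 = b.repr u 0 ^ 2 + b.repr u 1 ^ 2 := by
      rw [← b.repr.norm_map u, EuclideanSpace.real_norm_sq_eq, Fin.sum_univ_two]
    rw [h5]
    exact IntA_pt hr

theorem IntA_rad : Integrable (fun s : E 2 => ‖s‖⁻¹ * ((1 + ‖s‖) ^ 8)⁻¹) := by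
  have h := integrable_fun_norm_addHaar (μ := (volume : Measure (E 2)))
    (f := fun y : ℝ => y⁻¹ * ((1 + y) ^ 8)⁻¹)
  rw [h, finrank_euclideanSpace_fin]
  have h1 : Integrable (fun x : ℝ => (1 + |x|) ^ (-(8 : ℝ))) := by
    have h := integrable_one_add_norm (E := ℝ) (μ := volume) (r := 8)
      (by rw [Module.finrank_self]; norm_num)
    simpa only [Real.norm_eq_abs] using h
  refine (h1.integrableOn (s := Ioi 0)).congr_fun (fun y hy => ?_) measurableSet_Ioi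
  have hy0 : 0 < y := hy
  show (1 + |y|) ^ (-(8 : ℝ)) = y ^ (2 - 1) • (y⁻¹ * ((1 + y) ^ 8)⁻¹)
  rw [abs_of_pos hy0, Real.rpow_neg (by linarith), smul_eq_mul, ← mul_assoc]
  norm_num
  rw [mul_inv_cancel₀ hy0.ne', one_mul]

theorem int_radial {Ψ : E 2 → ℝ} (hΨc : Continuous Ψ) (hΨ0 : ∀ x, 0 ≤ Ψ x)
    (hdec : ∃ C, ∀ x, Ψ x * (1 + ‖x‖) ^ 4 ≤ C) :
    ∃ C : ℝ, ∀ R : ℝ, 1 ≤ R → ∫ u : E 2, Ψ (R⁻¹ • u) ^ 2 * (R * (1 + ‖u‖))⁻¹ ≤ C := by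
  obtain ⟨C₀, hC₀⟩ := hdec
  have hint : Integrable (fun s : E 2 => Ψ s ^ 2 * ‖s‖⁻¹) := by
    refine (IntA_rad.const_mul (C₀ ^ 2)).mono' ?_ (Eventually.of_forall fun s => ?_)
    · exact ((hΨc.pow 2).measurable.mul (measurable_norm.inv)).aestronglyMeasurable
    · have hs := norm_nonneg s
      have h1 : Ψ s * (1 + ‖s‖) ^ 4 ≤ C₀ := hC₀ s
      have h2 : 0 ≤ Ψ s * (1 + ‖s‖) ^ 4 := mul_nonneg (hΨ0 s) (by positivity)
      have h3 : (Ψ s * (1 + ‖s‖) ^ 4) ^ 2 ≤ C₀ ^ 2 := pow_le_pow_left₀ h2 h1 2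
      have h4 : Ψ s ^ 2 ≤ C₀ ^ 2 * ((1 + ‖s‖) ^ 8)⁻¹ := by
        rw [← div_eq_mul_inv, le_div_iff₀ (by positivity)]
        calc Ψ s ^ 2 * (1 + ‖s‖) ^ 8 = (Ψ s * (1 + ‖s‖) ^ 4) ^ 2 := by ring
          _ ≤ C₀ ^ 2 := h3
      rw [Real.norm_of_nonneg (by positivity)]
      calc Ψ s ^ 2 * ‖s‖⁻¹ ≤ (C₀ ^ 2 * ((1 + ‖s‖) ^ 8)⁻¹) * ‖s‖⁻¹ :=
            mul_le_mul_of_nonneg_right h4 (inv_nonneg.2 hs)
        _ = C₀ ^ 2 * (‖s‖⁻¹ * ((1 + ‖s‖) ^ 8)⁻¹) := by ring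
  refine ⟨∫ s : E 2, Ψ s ^ 2 * ‖s‖⁻¹, fun R hR => ?_⟩
  have hR0 : 0 < R := by linarith
  have e1 : ∫ u : E 2, Ψ (R⁻¹ • u) ^ 2 * (R * (1 + ‖u‖))⁻¹ =
      ∫ u : E 2, (fun s : E 2 => Ψ s ^ 2 * (R * (1 + R * ‖s‖))⁻¹) (R⁻¹ • u) := by
    refine integral_congr_ae (Eventually.of_forall fun u => ?_)
    show _ = Ψ (R⁻¹ • u) ^ 2 * (R * (1 + R * ‖R⁻¹ • u‖))⁻¹
    rw [norm_smul, norm_inv, Real.norm_of_nonneg hR0.le, ← mul_assoc R R⁻¹,
      mul_inv_cancel₀ hR0.ne', one_mul]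
  rw [e1, Measure.integral_comp_inv_smul volume
    (fun s : E 2 => Ψ s ^ 2 * (R * (1 + R * ‖s‖))⁻¹) R, finrank_euclideanSpace_fin,
    abs_of_pos (by positivity), smul_eq_mul, ← integral_const_mul]
  refine integral_mono_of_nonneg (Eventually.of_forall fun s => ?_) hint ?_
  · have := hΨ0 s
    show (0 : ℝ) ≤ R ^ 2 * (Ψ s ^ 2 * (R * (1 + R * ‖s‖))⁻¹)
    positivity
  · have hne : ∀ᵐ s : E 2, s ≠ 0 := compl_mem_ae_iff.2 (measure_singleton 0)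
    filter_upwards [hne] with s hs
    have hs0 : 0 < ‖s‖ := norm_pos_iff.2 hs
    have h5 : R ^ 2 * (R * (1 + R * ‖s‖))⁻¹ ≤ ‖s‖⁻¹ := by
      rw [← div_eq_mul_inv, inv_eq_one_div, div_le_div_iff₀ (by positivity) hs0]
      nlinarith
    calc R ^ 2 * (Ψ s ^ 2 * (R * (1 + R * ‖s‖))⁻¹)
        = Ψ s ^ 2 * (R ^ 2 * (R * (1 + R * ‖s‖))⁻¹) := by ring
      _ ≤ Ψ s ^ 2 * ‖s‖⁻¹ := mul_le_mul_of_nonneg_left h5 (sq_nonneg _)

end Pool.Agent.MPbd65ca.Pg
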