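import Pool.Agent.Lib.MP_bd65ca_an.Pg.Defs

/-!
# The Turán problem for polygons: an integral which grows
-/

open MeasureTheory FourierTransform Pointwise Set Filter Topology
open scoped RealInnerProductSpace

namespace Pool.Agent.MPbd65ca.Pg

/-- The integral of `(1 + ‖u‖ ^ 2)⁻¹` over a disc. -/
private theorem IntB_disc {ρ : ℝ} (hρ : 0 ≤ ρ) :
    ∫ u : E 2, (Iic ρ).indicator (fun y : ℝ => (1 + y ^ 2)⁻¹) ‖u‖ =
      (volume : Measure (E 2)).real (Metric.ball 0 1) * Real.log (1 + ρ ^ 2) := by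
  have h1 := integral_fun_norm_addHaar (volume : Measure (E 2))
    ((Iic ρ).indicator (fun y : ℝ => (1 + y ^ 2)⁻¹))
  have h2 : Module.finrank ℝ (E 2) = 2 := by simp [E]
  rw [h2] at h1
  rw [h1]
  have h3 : ∫ y in Ioi (0 : ℝ), y ^ (2 - 1) • (Iic ρ).indicator (fun y : ℝ => (1 + y ^ 2)⁻¹) y =
      ∫ y in (0 : ℝ)..ρ, y * (1 + y ^ 2)⁻¹ := by
    rw [intervalIntegral.integral_of_le hρ]
    have h4 : ∀ y : ℝ, y ^ (2 - 1) • (Iic ρ).indicator (fun y : ℝ => (1 + y ^ 2)⁻¹) y =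
        (Iic ρ).indicator (fun y : ℝ => y * (1 + y ^ 2)⁻¹) y := by
      intro y
      by_cases hy : y ∈ Iic ρ
      · rw [indicator_of_mem hy, indicator_of_mem hy]
        simp
      · rw [indicator_of_notMem hy, indicator_of_notMem hy, smul_zero]
    simp only [h4]
    rw [setIntegral_indicator measurableSet_Iic]
    rfl
  have h5 : ∫ y in (0 : ℝ)..ρ, y * (1 + y ^ 2)⁻¹ = 1 / 2 * Real.log (1 + ρ ^ 2) := by
    have h6 : ∀ y ∈ uIcc (0 : ℝ) ρ, HasDerivAt (fun y : ℝ => 1 / 2 * Real.log (1 + y ^ 2))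
        (y * (1 + y ^ 2)⁻¹) y := by
      intro y _
      have h7 : HasDerivAt (fun y : ℝ => 1 + y ^ 2) (2 * y) y := by
        have := (hasDerivAt_pow 2 y).const_add 1
        simpa using this
      have h8 := (h7.log (by positivity)).const_mul (1 / 2 : ℝ)
      have h9 : 1 / 2 * (2 * y / (1 + y ^ 2)) = y * (1 + y ^ 2)⁻¹ := by ring
      rw [h9] at h8
      exact h8
    rw [intervalIntegral.integral_eq_sub_of_hasDerivAt h6]
    · simp
    · apply Continuous.intervalIntegrable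
      exact continuous_id.mul ((by fun_prop : Continuous fun y : ℝ => 1 + y ^ 2).inv₀
        fun y => by positivity)
  rw [h3, h5]
  simp only [nsmul_eq_mul, smul_eq_mul]
  push_cast
  ring

theorem tendsto_int {Ψ : E 2 → ℝ} (hΨc : Continuous Ψ) (hΨ0 : ∀ x, 0 ≤ Ψ x)
    (h0 : 0 < Ψ 0) (hdec : ∃ C, ∀ x, Ψ x * (1 + ‖x‖) ^ 4 ≤ C) :
    Tendsto (fun R : ℝ => ∫ u : E 2, Ψ (R⁻¹ • u) ^ 2 * (1 + ‖u‖ ^ 2)⁻¹) atTop atTop := by
  obtain ⟨C, hC⟩ := hdec
  have hC0 : 0 ≤ C := by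
    refine le_trans ?_ (hC 0)
    exact mul_nonneg (hΨ0 0) (by positivity)
  -- a lower bound near `0`
  obtain ⟨δ, hδ, hδ'⟩ : ∃ δ > 0, ∀ x : E 2, ‖x‖ ≤ δ → Ψ 0 / 2 ≤ Ψ x := by
    have h1 : ∀ᶠ x in 𝓝 (0 : E 2), Ψ 0 / 2 < Ψ x :=
      hΨc.continuousAt.eventually (lt_mem_nhds (half_lt_self h0))
    obtain ⟨ε, hε, h2⟩ := Metric.eventually_nhds_iff_ball.1 h1
    refine ⟨ε / 2, half_pos hε, fun x hx => (h2 x ?_).le⟩
    rw [mem_ball_zero_iff]
    linarith
  set v := (volume : Measure (E 2)).real (Metric.ball 0 1) with hv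
  have hv0 : 0 < v := by
    rw [hv, Measure.real, ENNReal.toReal_pos_iff]
    exact ⟨Metric.measure_ball_pos _ _ one_pos, measure_ball_lt_top⟩
  have hlow : ∀ R : ℝ, 1 ≤ R → (Ψ 0 / 2) ^ 2 * (v * Real.log (1 + (δ * R) ^ 2)) ≤
      ∫ u : E 2, Ψ (R⁻¹ • u) ^ 2 * (1 + ‖u‖ ^ 2)⁻¹ := by
    intro R hR
    have hR0 : 0 < R := by linarith
    rw [← IntB_disc (by positivity), ← integral_const_mul]
    have hcont : Continuous fun u : E 2 => Ψ (R⁻¹ • u) ^ 2 * (1 + ‖u‖ ^ 2)⁻¹ :=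
      ((hΨc.comp (continuous_const_smul _)).pow 2).mul
        ((by fun_prop : Continuous fun u : E 2 => 1 + ‖u‖ ^ 2).inv₀ fun u => by positivity)
    have hle : ∀ u : E 2, (Ψ 0 / 2) ^ 2 *
        (Iic (δ * R)).indicator (fun y : ℝ => (1 + y ^ 2)⁻¹) ‖u‖ ≤
        Ψ (R⁻¹ • u) ^ 2 * (1 + ‖u‖ ^ 2)⁻¹ := by
      intro u
      by_cases hu : ‖u‖ ∈ Iic (δ * R)
      · rw [indicator_of_mem hu]
        refine mul_le_mul_of_nonneg_right ?_ (by positivity)
        refine pow_le_pow_left₀ (by positivity) (hδ' _ ?_) 2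
        rw [norm_smul, norm_inv, Real.norm_eq_abs, abs_of_pos hR0, inv_mul_le_iff₀ hR0, mul_comm]
        exact hu
      · rw [indicator_of_notMem hu, mul_zero]
        positivity
    have hint : Integrable fun u : E 2 => Ψ (R⁻¹ • u) ^ 2 * (1 + ‖u‖ ^ 2)⁻¹ := by
      have h1 : Integrable (fun u : E 2 => (C * R ^ 4) ^ 2 * (1 + ‖u‖) ^ (-(8 : ℝ))) := by
        refine (integrable_one_add_norm ?_).const_mul _
        have h2 : Module.finrank ℝ (E 2) = 2 := by simp [E]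
        rw [h2]
        norm_num
      refine h1.mono' hcont.aestronglyMeasurable (Eventually.of_forall fun u => ?_)
      rw [Real.norm_eq_abs, abs_of_nonneg (by positivity)]
      have h2 : Ψ (R⁻¹ • u) * (1 + ‖u‖) ^ 4 ≤ C * R ^ 4 := by
        have h3 := hC (R⁻¹ • u)
        have h4 : 1 + ‖u‖ ≤ R * (1 + ‖R⁻¹ • u‖) := by
          rw [norm_smul, norm_inv, Real.norm_eq_abs, abs_of_pos hR0, mul_add, ← mul_assoc,
            mul_inv_cancel₀ hR0.ne']
          linarith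
        calc Ψ (R⁻¹ • u) * (1 + ‖u‖) ^ 4 ≤ Ψ (R⁻¹ • u) * (R * (1 + ‖R⁻¹ • u‖)) ^ 4 :=
              mul_le_mul_of_nonneg_left (pow_le_pow_left₀ (by positivity) h4 4) (hΨ0 _)
          _ = (Ψ (R⁻¹ • u) * (1 + ‖R⁻¹ • u‖) ^ 4) * R ^ 4 := by ring
          _ ≤ C * R ^ 4 := mul_le_mul_of_nonneg_right h3 (by positivity)
      have h5 : (1 + ‖u‖) ^ (-(8 : ℝ)) = (((1 + ‖u‖) ^ 4) ^ 2)⁻¹ := by
        rw [Real.rpow_neg (by positivity), ← pow_mul]
        norm_num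
      have h6 : 0 < (1 + ‖u‖) ^ 4 := by positivity
      have h7 : Ψ (R⁻¹ • u) ^ 2 ≤ (C * R ^ 4) ^ 2 * (1 + ‖u‖) ^ (-(8 : ℝ)) := by
        rw [h5, ← div_eq_mul_inv, le_div_iff₀ (by positivity), ← mul_pow]
        exact pow_le_pow_left₀ (mul_nonneg (hΨ0 _) h6.le) h2 2
      refine le_trans ?_ h7
      refine mul_le_of_le_one_right (by positivity) ?_
      apply inv_le_one_of_one_le₀
      nlinarith [norm_nonneg u]
    refine integral_mono_of_nonneg (Eventually.of_forall fun u => ?_) hint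
      (Eventually.of_forall hle)
    refine mul_nonneg (by positivity) (indicator_nonneg (fun y _ => by positivity) _)
  refine tendsto_atTop_mono' atTop ((eventually_ge_atTop 1).mono hlow) ?_
  refine Tendsto.const_mul_atTop (by positivity) (Tendsto.const_mul_atTop hv0 ?_)
  refine Real.tendsto_log_atTop.comp ?_
  refine tendsto_atTop_add_const_left _ _ ?_
  exact (tendsto_pow_atTop two_ne_zero).comp (Tendsto.const_mul_atTop hδ tendsto_id)

end Pool.Agent.MPbd65ca.Pg
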