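import Pool.Agent.Lib.MP_bd65ca_an.Pg.Basic
import Pool.Agent.Lib.MP_bd65ca_an.Pg.IntA
import Pool.Agent.Lib.MP_bd65ca_an.Pg.IntB

/-!
# The Turán problem for polygons: the integral of the constant term
-/

open MeasureTheory FourierTransform Pointwise Set Filter Topology
open scoped RealInnerProductSpace

namespace Pool.Agent.MPbd65ca.Pg

variable {k : ℕ} {g : ℤ → E 2}

theorem Int_mul_integrable {P f : E 2 → ℝ} (hP : Integrable P) (hf : Continuous f)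
    (h0 : ∀ u, 0 ≤ f u) (h1 : ∀ u, f u ≤ 1) : Integrable fun u => P u * f u := by
  have h := hP.bdd_mul hf.aestronglyMeasurable (c := 1) (Eventually.of_forall fun u => by
    rw [Real.norm_eq_abs, abs_of_nonneg (h0 u)]; exact h1 u)
  exact h.congr (Eventually.of_forall fun u => mul_comm _ _)

/-- The constant term has a negative weighted integral for large `R`. -/
theorem Zon.int_neg (h : Zon k g) {Ψ : E 2 → ℝ} (hΨc : Continuous Ψ) (hΨ0 : ∀ x, 0 ≤ Ψ x)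
    (h0 : 0 < Ψ 0) (hdec : ∃ C, ∀ x, Ψ x * (1 + ‖x‖) ^ 4 ≤ C) {CE c2 : ℝ} (hCE : 0 < CE)
    (hc2 : 0 < c2) : ∃ R : ℝ, 1 ≤ R ∧ ∫ u : E 2, Ψ (R⁻¹ • u) ^ 2 * ez k g R CE c2 u < 0 := by
  obtain ⟨C1, hC1⟩ := int_radial hΨc hΨ0 hdec
  have htend := tendsto_int hΨc hΨ0 h0 hdec
  obtain ⟨C, hC⟩ := hdec
  have hone : ∀ x : E 2, (1 : ℝ) ≤ (1 + ‖x‖) ^ 4 := fun x =>
    one_le_pow₀ (by linarith [norm_nonneg x])
  have hΨC : ∀ x, Ψ x ≤ C := fun x => le_trans (le_mul_of_one_le_right (hΨ0 x) (hone x)) (hC x)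
  have hC0 : 0 ≤ C := (hΨ0 0).trans (hΨC 0)
  have hP2 : Integrable fun x => Ψ x ^ 2 := by
    have h1 : Integrable fun x : E 2 => (1 + ‖x‖) ^ (-(4 : ℝ)) :=
      integrable_one_add_norm (by simp; norm_num)
    refine (h1.const_mul (C * C)).mono' (hΨc.pow 2).aestronglyMeasurable
      (Eventually.of_forall fun x => ?_)
    have hx : (0 : ℝ) < 1 + ‖x‖ := by linarith [norm_nonneg x]
    rw [Real.norm_eq_abs, abs_of_nonneg (sq_nonneg _), Real.rpow_neg hx.le]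
    have h2 : (1 + ‖x‖) ^ (4 : ℝ) = (1 + ‖x‖) ^ 4 := by
      exact_mod_cast Real.rpow_natCast (1 + ‖x‖) 4
    rw [h2, ← div_eq_mul_inv, le_div_iff₀ (by positivity)]
    calc Ψ x ^ 2 * (1 + ‖x‖) ^ 4 = Ψ x * (Ψ x * (1 + ‖x‖) ^ 4) := by ring
      _ ≤ C * C := mul_le_mul (hΨC x) (hC x) (mul_nonneg (hΨ0 x) (by positivity)) hC0
  -- the functions of one side
  have hfj0 : ∀ (j : ℕ) (u : E 2), 0 ≤ ((1 + ‖u‖ ^ 2) * (1 + |Yf g j u|))⁻¹ := by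
    intro j u; positivity
  have hfj1 : ∀ (j : ℕ) (u : E 2), ((1 + ‖u‖ ^ 2) * (1 + |Yf g j u|))⁻¹ ≤ 1 := by
    intro j u
    refine inv_le_one_of_one_le₀ ?_
    have h1 : (1 : ℝ) ≤ 1 + ‖u‖ ^ 2 := by nlinarith [sq_nonneg ‖u‖]
    have h2 : (1 : ℝ) ≤ 1 + |Yf g j u| := by linarith [abs_nonneg (Yf g j u)]
    nlinarith
  have hfjc : ∀ j : ℕ, Continuous fun u : E 2 => ((1 + ‖u‖ ^ 2) * (1 + |Yf g j u|))⁻¹ := by
    intro j
    have hY : Continuous fun u : E 2 => Yf g j u := by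
      unfold Yf
      exact continuous_const.inner continuous_id
    refine Continuous.inv₀ ?_ (fun u => by positivity)
    exact (continuous_const.add (continuous_norm.pow 2)).mul (continuous_const.add hY.abs)
  have hfji : ∀ j : ℕ, Integrable fun u : E 2 => ((1 + ‖u‖ ^ 2) * (1 + |Yf g j u|))⁻¹ := by
    intro j
    have hg : g j ≠ 0 := by
      intro hg
      have h1 := h.pos j (j + 1) (by omega) (by have := h.hk; omega)
      rw [hg, dt_zero_left] at h1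
      exact lt_irrefl _ h1
    exact integrable_line hg
  set K : ℝ := CE * (C1 + ∑ j ∈ Finset.range k,
    C ^ 2 * ∫ u : E 2, ((1 + ‖u‖ ^ 2) * (1 + |Yf g j u|))⁻¹) with hK
  obtain ⟨R, hR1, hR2⟩ := ((eventually_ge_atTop (1 : ℝ)).and
    (htend.eventually_gt_atTop (K / c2))).exists
  refine ⟨R, hR1, ?_⟩
  have hR0 : 0 < R := lt_of_lt_of_le one_pos hR1
  have hPi : Integrable fun u : E 2 => Ψ (R⁻¹ • u) ^ 2 := hP2.comp_smul (inv_ne_zero hR0.ne')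
  have hP0 : ∀ u : E 2, 0 ≤ Ψ (R⁻¹ • u) ^ 2 := fun u => sq_nonneg _
  have hPC : ∀ u : E 2, Ψ (R⁻¹ • u) ^ 2 ≤ C ^ 2 := fun u =>
    pow_le_pow_left₀ (hΨ0 _) (hΨC _) 2
  have hi0 : Integrable fun u : E 2 => Ψ (R⁻¹ • u) ^ 2 * (R * (1 + ‖u‖))⁻¹ := by
    refine Int_mul_integrable hPi ?_ (fun u => by positivity) (fun u => ?_)
    · refine Continuous.inv₀ ?_ (fun u => by positivity)
      exact continuous_const.mul (continuous_const.add continuous_norm)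
    · refine inv_le_one_of_one_le₀ ?_
      have := norm_nonneg u
      nlinarith
  have hi2 : Integrable fun u : E 2 => Ψ (R⁻¹ • u) ^ 2 * (1 + ‖u‖ ^ 2)⁻¹ := by
    refine Int_mul_integrable hPi ?_ (fun u => by positivity) (fun u => ?_)
    · refine Continuous.inv₀ ?_ (fun u => by positivity)
      exact continuous_const.add (continuous_norm.pow 2)
    · refine inv_le_one_of_one_le₀ ?_
      nlinarith [sq_nonneg ‖u‖]
  have hij : ∀ j : ℕ, Integrable fun u : E 2 =>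
      Ψ (R⁻¹ • u) ^ 2 * ((1 + ‖u‖ ^ 2) * (1 + |Yf g j u|))⁻¹ := fun j =>
    Int_mul_integrable hPi (hfjc j) (hfj0 j) (hfj1 j)
  have hfun : (fun u : E 2 => Ψ (R⁻¹ • u) ^ 2 * ez k g R CE c2 u) = fun u =>
      CE * (Ψ (R⁻¹ • u) ^ 2 * (R * (1 + ‖u‖))⁻¹ + ∑ j ∈ Finset.range k,
        Ψ (R⁻¹ • u) ^ 2 * ((1 + ‖u‖ ^ 2) * (1 + |Yf g j u|))⁻¹) -
      c2 * (Ψ (R⁻¹ • u) ^ 2 * (1 + ‖u‖ ^ 2)⁻¹) := by
    funext u
    unfold ez eE
    rw [← Finset.mul_sum, div_eq_mul_inv]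
    ring
  have hsi : Integrable fun u : E 2 => ∑ j ∈ Finset.range k,
      Ψ (R⁻¹ • u) ^ 2 * ((1 + ‖u‖ ^ 2) * (1 + |Yf g j u|))⁻¹ :=
    integrable_finset_sum _ fun j _ => hij j
  have hadd : Integrable fun u : E 2 => CE * (Ψ (R⁻¹ • u) ^ 2 * (R * (1 + ‖u‖))⁻¹ +
      ∑ j ∈ Finset.range k, Ψ (R⁻¹ • u) ^ 2 * ((1 + ‖u‖ ^ 2) * (1 + |Yf g j u|))⁻¹) :=
    (hi0.add hsi).const_mul CE
  rw [hfun, integral_sub hadd (hi2.const_mul c2), integral_const_mul,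
    integral_const_mul, integral_add hi0 hsi, integral_finset_sum _ fun j _ => hij j]
  have hb : ∑ j ∈ Finset.range k, (∫ u : E 2,
      Ψ (R⁻¹ • u) ^ 2 * ((1 + ‖u‖ ^ 2) * (1 + |Yf g j u|))⁻¹) ≤ ∑ j ∈ Finset.range k,
      C ^ 2 * ∫ u : E 2, ((1 + ‖u‖ ^ 2) * (1 + |Yf g j u|))⁻¹ := by
    refine Finset.sum_le_sum fun j _ => ?_
    rw [← integral_const_mul]
    exact integral_mono (hij j) ((hfji j).const_mul _) fun u =>
      mul_le_mul_of_nonneg_right (hPC u) (hfj0 j u)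
  have ha := hC1 R hR1
  have hfin : CE * ((∫ u : E 2, Ψ (R⁻¹ • u) ^ 2 * (R * (1 + ‖u‖))⁻¹) +
      ∑ j ∈ Finset.range k, ∫ u : E 2,
        Ψ (R⁻¹ • u) ^ 2 * ((1 + ‖u‖ ^ 2) * (1 + |Yf g j u|))⁻¹) ≤ K := by
    rw [hK]
    exact mul_le_mul_of_nonneg_left (add_le_add ha hb) hCE.le
  have hlast : K < c2 * ∫ u : E 2, Ψ (R⁻¹ • u) ^ 2 * (1 + ‖u‖ ^ 2)⁻¹ := by
    have := (div_lt_iff₀ hc2).1 hR2
    linarith [mul_comm c2 (∫ u : E 2, Ψ (R⁻¹ • u) ^ 2 * (1 + ‖u‖ ^ 2)⁻¹)]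
  linarith

end Pool.Agent.MPbd65ca.Pg
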