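import Pool.Agent.Lib.MP_bd65ca_an.Pg.IntFA
import Pool.Agent.Lib.MP_bd65ca_an.Pg.Inner

/-!
# The Turán problem for polygons: the frequencies which are used
-/

open MeasureTheory FourierTransform Pointwise Set
open scoped RealInnerProductSpace

namespace Pool.Agent.MPbd65ca.Pg

variable {k : ℕ} {g : ℤ → E 2}

theorem IntF_mem {p q α β : ℤ} (h1 : -2 ≤ p) (h2 : p ≤ 2 * k + 2) (h3 : -2 ≤ q)
    (h4 : q ≤ 2 * k + 2) (h5 : -2 ≤ α) (h6 : α ≤ 2) (h7 : -2 ≤ β) (h8 : β ≤ 2)
    (h9 : (1 / 2 : ℝ) • fq k g (p, q, α, β) ∈ interior (zg k g))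
    (h10 : fq k g (p, q, α, β) ≠ 0) : (p, q, α, β) ∈ Fr k g := by
  classical
  unfold Fr
  rw [Finset.mem_filter, Finset.mem_product, Finset.mem_product, Finset.mem_product,
    Finset.mem_Icc, Finset.mem_Icc, Finset.mem_Icc, Finset.mem_Icc]
  exact ⟨⟨⟨h1, h2⟩, ⟨h3, h4⟩, ⟨h5, h6⟩, ⟨h7, h8⟩⟩, h9, h10⟩

theorem IntF_neg_zg {y : E 2} (hy : y ∈ zg k g) : -y ∈ zg k g := by
  obtain ⟨lam, h1, h2⟩ := hy
  refine ⟨fun l => -lam l, fun l => by rw [abs_neg]; exact h1 l, ?_⟩
  rw [h2, ← Finset.sum_neg_distrib]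
  exact Finset.sum_congr rfl fun l _ => (neg_smul _ _).symm

theorem IntF_neg_int {y : E 2} (hy : y ∈ interior (zg k g)) : -y ∈ interior (zg k g) := by
  have h1 : (Homeomorph.neg (E 2)) ⁻¹' interior (zg k g) =
      interior ((Homeomorph.neg (E 2)) ⁻¹' zg k g) := (Homeomorph.neg (E 2)).preimage_interior _
  have h2 : (Homeomorph.neg (E 2)) ⁻¹' zg k g = zg k g := by
    ext x
    constructor
    · intro hx
      have h3 := IntF_neg_zg (show -x ∈ zg k g from hx)
      rwa [neg_neg] at h3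
    · intro hx
      exact IntF_neg_zg hx
  rw [h2] at h1
  rw [← h1] at hy
  exact hy

/-- The products of the phases of two vertices, for an index with the exponents `1`, `-1`. -/
theorem IntF_quot (h : Zon k g) {p : ℤ} {m : ℕ} (h1 : 1 ≤ m) (hm : m + 2 ≤ k) (hp : -2 ≤ p)
    (hp2 : p + m ≤ 2 * k + 2) (w : ℂ) :
    IntF k g (fun z => (w * ((z p : ℂ) * ((z (p + m))⁻¹ : Circle))).re) ∧
    IntF k g (fun z => (w * (((z p)⁻¹ : Circle) * (z (p + m) : ℂ))).re) := by
  have e1 := h.diff_int p hm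
  have e2 := h.diff_ne p h1 (by omega : m < k)
  have f1 : fq k g (p, p + m, 1, -1) = -(vx k g (p + m) - vx k g p) := by
    simp only [fq, Int.cast_one, Int.cast_neg, one_smul, neg_smul]
    abel
  have f2 : fq k g (p, p + m, -1, 1) = vx k g (p + m) - vx k g p := by
    simp only [fq, Int.cast_one, Int.cast_neg, one_smul, neg_smul]
    abel
  constructor
  · have hn : (p, p + (m : ℤ), (1 : ℤ), (-1 : ℤ)) ∈ Fr k g := by
      refine IntF_mem hp (by omega) (by omega) hp2 (by norm_num) (by norm_num) (by norm_num)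
        (by norm_num) ?_ ?_
      · rw [f1, smul_neg]
        exact IntF_neg_int e1
      · rw [f1, neg_ne_zero]
        exact e2
    refine (IntF.of_mem hn w).congr fun z => ?_
    simp only [mono, zpow_one, zpow_neg, Circle.coe_mul]
  · have hn : (p, p + (m : ℤ), (-1 : ℤ), (1 : ℤ)) ∈ Fr k g := by
      refine IntF_mem hp (by omega) (by omega) hp2 (by norm_num) (by norm_num) (by norm_num)
        (by norm_num) ?_ ?_
      · rw [f2]
        exact e1
      · rw [f2]
        exact e2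
    refine (IntF.of_mem hn w).congr fun z => ?_
    simp only [mono, zpow_one, zpow_neg, Circle.coe_mul]

/-- The products of the phases of two vertices which are not neighbours. -/
theorem Zon.intF_far (h : Zon k g) {p : ℤ} {m : ℕ} (h2 : 2 ≤ m) (hm : m + 2 ≤ k) (hp : -2 ≤ p)
    (hp2 : p + m ≤ 2 * k + 2) (w : ℂ) :
    IntF k g (fun z => (w * ((z p : ℂ) * (z (p + m) : ℂ))).re) ∧
    IntF k g (fun z => (w * ((z p : ℂ) * ((z (p + m))⁻¹ : Circle))).re) ∧
    IntF k g (fun z => (w * (((z p)⁻¹ : Circle) * (z (p + m) : ℂ))).re) ∧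
    IntF k g (fun z => cr z p * cr z (p + m)) := by
  have hsum : ∀ w : ℂ, IntF k g (fun z => (w * ((z p : ℂ) * (z (p + m) : ℂ))).re) := by
    intro w
    have f1 : fq k g (p, p + m, 1, 1) = vx k g p + vx k g (p + m) := by
      simp only [fq, Int.cast_one, one_smul]
    have hn : (p, p + (m : ℤ), (1 : ℤ), (1 : ℤ)) ∈ Fr k g := by
      refine IntF_mem hp (by omega) (by omega) hp2 (by norm_num) (by norm_num) (by norm_num)
        (by norm_num) ?_ ?_
      · rw [f1]
        exact h.sum_int p h2 (by omega)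
      · rw [f1]
        exact h.sum_ne p (by omega)
    refine (IntF.of_mem hn w).congr fun z => ?_
    simp only [mono, zpow_one, Circle.coe_mul]
  refine ⟨hsum w, (IntF_quot h (by omega) hm hp hp2 w).1, (IntF_quot h (by omega) hm hp hp2 w).2,
    ?_⟩
  refine (((hsum 1).const_mul (1 / 2)).add
    ((IntF_quot h (by omega) hm hp hp2 1).1.const_mul (1 / 2))).congr fun z => ?_
  rw [Circle.coe_inv_eq_conj]
  simp only [cr, one_mul, Complex.mul_re, Complex.conj_re, Complex.conj_im]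
  ring

/-- The quotient of the phases of two neighbours. -/
theorem Zon.intF_near (h : Zon k g) {p : ℤ} (hp : -2 ≤ p) (hp2 : p ≤ 2 * k + 1) (w : ℂ) :
    IntF k g (fun z => (w * ((z p : ℂ) * ((z (p + 1))⁻¹ : Circle))).re) ∧
    IntF k g (fun z => (w * (((z p)⁻¹ : Circle) * (z (p + 1) : ℂ))).re) := by
  have h1 := IntF_quot h (m := 1) le_rfl (by have := h.hk; omega) hp (by push_cast; omega) w
  rw [Nat.cast_one] at h1
  exact h1

/-- The square of the quotient of the phases of two neighbours. -/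
theorem Zon.intF_side (h : Zon k g) {l : ℕ} (hl : l < k) (hg : g l ∈ interior (zg k g)) :
    IntF k g (fun z => ((z (l + 1) : ℂ) ^ 2 * (((z l)⁻¹ : Circle) : ℂ) ^ 2).re) := by
  have f1 : fq k g ((l : ℤ) + 1, l, 2, -2) = (2 : ℝ) • g l := by
    simp only [fq, Int.cast_neg, Int.cast_ofNat]
    rw [h.vx_succ, smul_add, neg_smul]
    abel
  have hne : g (l : ℤ) ≠ 0 := by
    intro h0
    have h1 := h.pos l (l + 1) (by omega) (by have := h.hk; omega)
    rw [h0, dt_zero_left] at h1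
    exact lt_irrefl _ h1
  have hn : ((l : ℤ) + 1, (l : ℤ), (2 : ℤ), (-2 : ℤ)) ∈ Fr k g := by
    refine IntF_mem (by omega) (by omega) (by omega) (by omega) (by norm_num) (by norm_num)
      (by norm_num) (by norm_num) ?_ ?_
    · rw [f1, smul_smul]
      norm_num
      exact hg
    · rw [f1]
      exact smul_ne_zero two_ne_zero hne
  refine (IntF.of_mem hn 1).congr fun z => ?_
  have e1 : (z (l + 1)) ^ (2 : ℤ) * (z (l : ℤ)) ^ (-2 : ℤ) =
      (z (l + 1)) ^ 2 * ((z (l : ℤ))⁻¹) ^ 2 := by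
    rw [zpow_neg, inv_pow]
    rfl
  simp only [mono, one_mul]
  rw [e1, Circle.coe_mul, Circle.coe_pow, Circle.coe_pow]

end Pool.Agent.MPbd65ca.Pg
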