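import Pool.Agent.Lib.MP_bd65ca_an.Pg.Basic

/-!
# The Turán problem for polygons: the functions with frequencies in the interior
-/

open MeasureTheory FourierTransform Pointwise Set
open scoped RealInnerProductSpace

namespace Pool.Agent.MPbd65ca.Pg

variable {k : ℕ} {g : ℤ → E 2}

/-- The combinations of the frequencies in the interior. -/
def IntF (k : ℕ) (g : ℤ → E 2) (f : (ℤ → Circle) → ℝ) : Prop :=
  ∃ a : Ix → ℂ, ∀ z, f z = ip k g a z

theorem IntF.congr {f₁ f₂ : (ℤ → Circle) → ℝ} (h₁ : IntF k g f₁) (h : ∀ z, f₁ z = f₂ z) :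
    IntF k g f₂ := by
  obtain ⟨a, ha⟩ := h₁
  exact ⟨a, fun z => by rw [← h z, ha z]⟩

theorem IntF.zero : IntF k g (fun _ => 0) := by
  refine ⟨fun _ => 0, fun z => ?_⟩
  unfold ip
  exact (Finset.sum_eq_zero fun n _ => by rw [zero_mul, Complex.zero_re]).symm

theorem IntF.add {f₁ f₂ : (ℤ → Circle) → ℝ} (h₁ : IntF k g f₁) (h₂ : IntF k g f₂) :
    IntF k g (fun z => f₁ z + f₂ z) := by
  obtain ⟨a, ha⟩ := h₁
  obtain ⟨b, hb⟩ := h₂
  refine ⟨fun n => a n + b n, fun z => ?_⟩
  simp only [ha z, hb z]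
  unfold ip
  rw [← Finset.sum_add_distrib]
  exact Finset.sum_congr rfl fun n _ => by rw [add_mul, Complex.add_re]

theorem IntF.const_mul {f : (ℤ → Circle) → ℝ} (hf : IntF k g f) (c : ℝ) :
    IntF k g (fun z => c * f z) := by
  obtain ⟨a, ha⟩ := hf
  refine ⟨fun n => (c : ℂ) * a n, fun z => ?_⟩
  simp only [ha z]
  unfold ip
  rw [Finset.mul_sum]
  exact Finset.sum_congr rfl fun n _ => by rw [mul_assoc, Complex.re_ofReal_mul]

theorem IntF.sub {f₁ f₂ : (ℤ → Circle) → ℝ} (h₁ : IntF k g f₁) (h₂ : IntF k g f₂) :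
    IntF k g (fun z => f₁ z - f₂ z) :=
  (h₁.add (h₂.const_mul (-1))).congr fun z => by ring

theorem IntF.sum {ι : Type*} (s : Finset ι) (f : ι → (ℤ → Circle) → ℝ)
    (hf : ∀ i ∈ s, IntF k g (f i)) : IntF k g (fun z => ∑ i ∈ s, f i z) := by
  classical
  induction s using Finset.induction_on with
  | empty => exact IntF.zero.congr fun z => by rw [Finset.sum_empty]
  | insert i s hi ih =>
    have h1 := hf i (Finset.mem_insert_self i s)
    have h2 := ih fun j hj => hf j (Finset.mem_insert_of_mem hj)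
    exact (h1.add h2).congr fun z => by rw [Finset.sum_insert hi]

theorem IntF.of_mem {n : Ix} (hn : n ∈ Fr k g) (w : ℂ) :
    IntF k g (fun z => (w * (mono n z : ℂ)).re) := by
  classical
  refine ⟨fun m => if m = n then w else 0, fun z => ?_⟩
  unfold ip
  rw [Finset.sum_eq_single n]
  · simp only [if_pos]
  · intro m _ hm
    simp only [if_neg hm, zero_mul, Complex.zero_re]
  · intro h
    exact absurd hn h

end Pool.Agent.MPbd65ca.Pg
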