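import Pool.Agent.Lib.MP_bd65ca_an.Perturb
import Pool.Agent.Lib.MP_bd65ca_an.CosT

/-!
# The Turán problem for polygons: a general perturbation lemma
-/

open MeasureTheory FourierTransform Pointwise Set Filter Topology
open scoped RealInnerProductSpace

namespace Pool.Agent.MPbd65ca.Pg

theorem pertG {d : ℕ} {W : Set (E d)} (hW : IsCompact W) (hs : ∀ x ∈ W, -x ∈ W)
    (hpos : 0 < volume.real W) {G : E d → ℝ} (hGc : Continuous G)
    (hGv : Vanish (W + W) (fun x => (G x : ℂ))) {C : ℝ} (hC : 0 ≤ C)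
    (hnn : ∀ x, 0 ≤ G x + C * cosT W x ^ 2) (hint : volume.real W * ∫ x, G x < G 0) :
    ∃ F ∈ cls (W + W), ∫ x, F x < 1 / volume.real W := by
  obtain ⟨hgc, hg0, hgi, hgint, hgv⟩ := cosT_props hW hs
  have hKc : IsClosed (W + W) := (hW.add hW).isClosed
  set w : ℝ := volume.real W with hw
  set A : ℝ := C + (|G 0| + 1) / w ^ 2 with hA
  have hw2 : 0 < w ^ 2 := by positivity
  have hAC : C ≤ A := by
    have : 0 ≤ (|G 0| + 1) / w ^ 2 := by positivity
    linarith
  have hA0 : 0 ≤ A := hC.trans hAC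
  set B : ℝ := A * w ^ 2 + G 0 with hB
  have hB0 : 0 < B := by
    have h1 : A * w ^ 2 = C * w ^ 2 + (|G 0| + 1) := by
      rw [hA, add_mul, div_mul_cancel₀ _ hw2.ne']
    have h2 := neg_abs_le (G 0)
    have h3 : 0 ≤ C * w ^ 2 := by positivity
    rw [hB, h1]
    linarith
  have hGi : Integrable G := by
    have := hGv.1.re
    simpa using this
  have hFi : Integrable (fun x => A * cosT W x ^ 2 + G x) := (hgi.const_mul A).add hGi
  refine ⟨fun x => B⁻¹ * (A * cosT W x ^ 2 + G x), ⟨?_, ?_, ?_, ?_, ?_⟩, ?_⟩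
  · exact continuous_const.mul ((continuous_const.mul (hgc.pow 2)).add hGc)
  · exact hFi.const_mul _
  · intro x
    refine mul_nonneg (inv_pos.2 hB0).le ?_
    have h1 := hnn x
    have h2 := mul_le_mul_of_nonneg_right hAC (sq_nonneg (cosT W x))
    linarith
  · simp only
    rw [hg0, ← hB, inv_mul_cancel₀ hB0.ne']
  · have h1 : Vanish (W + W) (fun x => ((B⁻¹ * (A * cosT W x ^ 2 + G x) : ℝ) : ℂ)) := by
      refine (((hgv.const_mul (A : ℂ)).add hGv).const_mul ((B⁻¹ : ℝ) : ℂ)).congr fun x => ?_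
      push_cast
      ring
    exact h1.tsupport_subset hKc
  · rw [integral_const_mul, integral_add (hgi.const_mul A) hGi, integral_const_mul, one_div]
    have h1 : A * ∫ x, cosT W x ^ 2 ≤ A * w := mul_le_mul_of_nonneg_left hgint hA0
    have h2 : w * (A * w + ∫ x, G x) < B := by
      rw [hB]
      nlinarith
    have h3 : A * w + ∫ x, G x < B * w⁻¹ := by
      rw [← div_eq_mul_inv, lt_div_iff₀ hpos]
      linarith [mul_comm w (A * w + ∫ x, G x)]
    calc B⁻¹ * ((A * ∫ x, cosT W x ^ 2) + ∫ x, G x)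
        ≤ B⁻¹ * (A * w + ∫ x, G x) :=
          mul_le_mul_of_nonneg_left (by linarith) (inv_pos.2 hB0).le
      _ < B⁻¹ * (B * w⁻¹) := mul_lt_mul_of_pos_left h3 (inv_pos.2 hB0)
      _ = w⁻¹ := by rw [← mul_assoc, inv_mul_cancel₀ hB0.ne', one_mul]

end Pool.Agent.MPbd65ca.Pg
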