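import Pool.Agent.Lib.MP_bd65ca_an.Pg.Prof
import Pool.Agent.Lib.MP_bd65ca_an.Pg.GTc
import Pool.Agent.Lib.MP_bd65ca_an.Pg.GTn
import Pool.Agent.Lib.MP_bd65ca_an.Pg.GTv
import Pool.Agent.Lib.MP_bd65ca_an.Pg.PertG
import Pool.Agent.Lib.MP_bd65ca_an.Scale

/-!
# The Turán problem for polygons: the theorem for zonogons
-/

open MeasureTheory FourierTransform Pointwise Set Filter Topology
open scoped RealInnerProductSpace

namespace Pool.Agent.MPbd65ca.Pg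

variable {k : ℕ} {g : ℤ → E 2}

/-- The value of the perturbation at the origin does not depend on the scale. -/
theorem GT_zero (k : ℕ) (g : ℤ → E 2) (c R M : ℝ) (Ψ : E 2 → ℝ) (s : Ix → Finset (E 2))
    (b : Ix → E 2 → ℂ) (s0 : Finset (E 2)) (b0 : E 2 → ℂ) (T : ℝ) :
    GT k g c R M Ψ s b s0 b0 T 0 = GT k g c R M Ψ s b s0 b0 1 0 := by
  simp [GT]

theorem Zon.main (h : Zon k g) :
    ∃ F ∈ cls (zg k g + zg k g), ∫ x, F x < 1 / volume.real (zg k g) := by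
  obtain ⟨c, hc⟩ := h.exists_GT
  obtain ⟨R, M, S, C, Ψ, s, b, s0, b0, p⟩ := h.exists_prof c
  obtain ⟨T₀, hT₀, hT⟩ := hc R M S C Ψ s b s0 b0 p
  have hb := h.isBody
  have hpos : 0 < volume.real (zg k g) := ScaleAux.vol_pos hb
  set I : ℝ := ∫ u : E 2, (Ψ (R⁻¹ • u) ^ 2 * (tp s0 b0 u).re + M * Ψ (R⁻¹ • u)) with hI
  have hneg : I < 0 := p.neg
  -- a large scale
  obtain ⟨T, hTT, hTl⟩ : ∃ T : ℝ, T₀ ≤ T ∧
      volume.real (zg k g) * (T ^ 2 * I) < GT k g c R M Ψ s b s0 b0 1 0 := by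
    have h1 : Tendsto (fun T : ℝ => volume.real (zg k g) * (T ^ 2 * I)) atTop atBot := by
      have h2 : Tendsto (fun T : ℝ => T ^ 2) atTop atTop := tendsto_pow_atTop two_ne_zero
      have h3 : Tendsto (fun T : ℝ => (volume.real (zg k g) * I) * T ^ 2) atTop atBot :=
        h2.const_mul_atTop_of_neg (mul_neg_of_pos_of_neg hpos hneg)
      refine h3.congr fun T => ?_
      ring
    obtain ⟨T, h4, h5⟩ := ((h1.eventually_lt_atBot (GT k g c R M Ψ s b s0 b0 1 0)).and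
      (eventually_ge_atTop T₀)).exists
    exact ⟨T, h5, h4⟩
  obtain ⟨hv, hi⟩ := hT T hTT
  have hTpos : 0 < T := lt_of_lt_of_le hT₀ hTT
  obtain ⟨C', hC', hnn⟩ := p.nonneg_GT h hTpos
  refine pertG hb.isCompact hb.neg_mem hpos (p.continuous_GT T) hv hC' hnn ?_
  rw [hi, GT_zero]
  exact hTl

end Pool.Agent.MPbd65ca.Pg
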