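import Pool.Agent.Lib.MP_bd65ca_an.Pg.PoffA

/-!
# The Turán problem for polygons: the inequality on the singular lines
-/

open MeasureTheory FourierTransform Pointwise Set
open scoped RealInnerProductSpace

namespace Pool.Agent.MPbd65ca.Pg

variable {k : ℕ} {g : ℤ → E 2}

theorem Pon_abs_cr_le (z : ℤ → Circle) (j : ℤ) : |cr z j| ≤ 1 := by
  unfold cr
  refine (Complex.abs_re_le_norm _).trans ?_
  rw [Circle.norm_coe]

theorem Pon_norm_Phj_le (z : ℤ → Circle) (u : E 2) (j : ℤ) : ‖Phj g z u j‖ ≤ 4 := by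
  have h0 : ∀ i l : ℤ, |cr z i - cr z l| ≤ 2 := by
    intro i l
    have h1 := Pon_abs_cr_le z i
    have h2 := Pon_abs_cr_le z l
    have h3 := abs_sub (cr z i) (cr z l)
    linarith
  unfold Phj
  split_ifs with hc
  · rw [norm_mul, Complex.norm_real, Circle.norm_coe, mul_one, Real.norm_eq_abs, abs_mul, abs_two]
    linarith [h0 j (j - 1)]
  · rw [norm_mul, Complex.norm_real, Circle.norm_coe, mul_one, Real.norm_eq_abs, abs_mul, abs_two]
    linarith [h0 (j + 1) (j + 2)]

/-- The zeros of the linear forms are periodic. -/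
theorem Zon.Pon_zero (h : Zon k g) {u : E 2} {j : ℤ} (hj : Yf g j u = 0) (m : ℤ) :
    Yf g (j + m * k) u = 0 := by
  have h1 := per_mul k (fun j => |Yf g j u|) (fun j => h.abs_Yf_per u j) j m
  rw [hj, abs_zero] at h1
  exact abs_eq_zero.mp h1

/-- The other linear forms are not small. -/
theorem Zon.Pon_other (h : Zon k g) {c0 : ℝ}
    (h2 : ∀ (u : E 2) (i l : ℤ), i < l → l < i + k → c0 * ‖u‖ ≤ max |Yf g i u| |Yf g l u|)
    {u : E 2} {i : ℤ} (hi : Yf g i u = 0) {j : ℤ} (hj : Yf g j u ≠ 0) :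
    c0 * ‖u‖ ≤ |Yf g j u| := by
  have hk := h.hk
  -- move i to the window starting at j
  obtain ⟨a, m, ha, hm⟩ := exists_range k (by omega) (j - i)
  have h3 : Yf g (i + m * k) u = 0 := h.Pon_zero hi m
  have ha0 : a ≠ 0 := by
    intro h0
    apply hj
    have : j = i + m * k := by rw [h0] at hm; push_cast at hm; linarith
    rw [this]
    exact h3
  have h4 := h2 u (i + m * k) j (by omega) (by omega)
  rw [h3, abs_zero, max_eq_right (abs_nonneg _)] at h4
  exact h4

theorem Zon.pon (h : Zon k g) (c : ℝ) : ∃ C : ℝ, 0 < C ∧ ∀ R : ℝ, 1 ≤ R → ∀ u : E 2,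
    1 ≤ ‖u‖ → (∃ j, Yf g j u = 0) → ∃ a : Ix → ℂ, ∀ z, Ph k z → Zt k g z u = 0 →
      -(C / (1 + ‖u‖ ^ 2)) ≤ hp k g c R z u + ip k g a z := by
  have hk := h.hk
  obtain ⟨c0, hc0, h2⟩ := h.two_forms
  have hb0 : ∀ j, 0 < bq g j := h.bq_pos
  refine ⟨∑ j ∈ Finset.range k, 144 * bq g j / c0 ^ 2 + 1, ?_, fun R hR u hu1 hex => ?_⟩
  · have : 0 ≤ ∑ j ∈ Finset.range k, 144 * bq g j / c0 ^ 2 :=
      Finset.sum_nonneg fun j _ => div_nonneg (mul_nonneg (by norm_num) (hb0 j).le) (sq_nonneg _)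
    linarith
  obtain ⟨i, hi⟩ := hex
  have A : IntF k g (fun z => ∑ j ∈ Finset.range k,
      ((hb g c R j u * Phj g z u j).re - (hb g c R j u * ((z j : ℂ) * (z (j + 1) : ℂ))).re)) :=
    IntF.sum _ (fun (j : ℕ) z =>
      ((hb g c R j u * Phj g z u j).re - (hb g c R j u * ((z j : ℂ) * (z (j + 1) : ℂ))).re))
      fun j hj => h.Phj_int u (Finset.mem_range.mp hj) (hb g c R j u)
  obtain ⟨a, ha⟩ := A
  refine ⟨a, fun z hz h0 => ?_⟩
  have hn : 0 < ‖u‖ := by linarith
  have hu0 : u ≠ 0 := norm_pos_iff.mp hn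
  have e1 : hp k g c R z u + ip k g a z =
      ∑ j ∈ Finset.range k, (hb g c R j u * Phj g z u j).re := by
    have h3 := ha z
    simp only [Finset.sum_sub_distrib] at h3
    rw [← h3, hp]
    ring
  rw [e1]
  have hline : ∀ j : ℤ, Yf g j u = 0 → cr z j = cr z (j + 1) := fun j hj =>
    h.Zt_line hz hu0 hj h0
  have hterm : ∀ j ∈ Finset.range k, -(144 * bq g j / c0 ^ 2 / (1 + ‖u‖ ^ 2)) ≤
      (hb g c R j u * Phj g z u j).re := by
    intro j _
    have hpos : 0 ≤ 144 * bq g j / c0 ^ 2 / (1 + ‖u‖ ^ 2) :=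
      div_nonneg (div_nonneg (mul_nonneg (by norm_num) (hb0 j).le) (sq_nonneg _)) (by positivity)
    have key : ‖hb g c R j u‖ * ‖Phj g z u j‖ ≤ 144 * bq g j / c0 ^ 2 / (1 + ‖u‖ ^ 2) := by
      by_cases hA : Yf g (j - 1) u = 0
      · have : Phj g z u j = 0 := by
          have h3 := hline _ hA
          rw [sub_add_cancel] at h3
          rw [Phj, if_pos (by rw [hA, abs_zero]; exact abs_nonneg _), h3]
          simp
        rw [this, norm_zero, mul_zero]
        exact hpos
      by_cases hB : Yf g (j + 1) u = 0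
      · have : Phj g z u j = 0 := by
          have h3 := hline _ hB
          have e : (j : ℤ) + 1 + 1 = j + 2 := by ring
          rw [e] at h3
          rw [Phj, if_neg, h3]
          · simp
          · rw [hB, abs_zero, not_le]
            exact abs_pos.mpr hA
        rw [this, norm_zero, mul_zero]
        exact hpos
      have hA' := h.Pon_other h2 hi hA
      have hB' := h.Pon_other h2 hi hB
      have h4 := norm_hb_le g c R j u
      have h5 := Pon_norm_Phj_le (g := g) z u j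
      have h6 : (c0 * ‖u‖) * (c0 * ‖u‖) ≤ (1 + |Yf g (j - 1) u|) * (1 + |Yf g (j + 1) u|) := by
        apply mul_le_mul (by linarith) (by linarith) (by positivity)
        have := abs_nonneg (Yf g (j - 1) u)
        linarith
      have h7 : ‖hb g c R j u‖ ≤ 36 * bq g j / c0 ^ 2 / (1 + ‖u‖ ^ 2) := by
        refine h4.trans ?_
        rw [abs_of_pos (hb0 j), div_div]
        have h8 : c0 ^ 2 * (1 + ‖u‖ ^ 2) ≤
            2 * ((1 + |Yf g (j - 1) u|) * (1 + |Yf g (j + 1) u|)) := by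
          have h9 : 1 ≤ ‖u‖ ^ 2 := by nlinarith
          have h10 : c0 ^ 2 * (1 + ‖u‖ ^ 2) ≤ c0 ^ 2 * (2 * ‖u‖ ^ 2) :=
            mul_le_mul_of_nonneg_left (by linarith) (sq_nonneg _)
          nlinarith
        rw [div_le_div_iff₀ (by positivity) (by positivity)]
        have := mul_le_mul_of_nonneg_left h8 (hb0 (j : ℤ)).le
        nlinarith
      calc ‖hb g c R j u‖ * ‖Phj g z u j‖
          ≤ (36 * bq g j / c0 ^ 2 / (1 + ‖u‖ ^ 2)) * 4 :=
            mul_le_mul h7 h5 (norm_nonneg _) ((norm_nonneg _).trans h7)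
        _ = _ := by ring
    have h6 : |(hb g c R j u * Phj g z u j).re| ≤ ‖hb g c R j u‖ * ‖Phj g z u j‖ := by
      rw [← norm_mul]
      exact Complex.abs_re_le_norm _
    have h7 := neg_abs_le (hb g c R j u * Phj g z u j).re
    linarith
  have hsum := Finset.sum_le_sum hterm
  rw [Finset.sum_neg_distrib, ← Finset.sum_div] at hsum
  refine le_trans ?_ hsum
  rw [neg_le_neg_iff]
  exact div_le_div_of_nonneg_right (by linarith) (by positivity)

end Pool.Agent.MPbd65ca.Pg
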