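import Pool.Agent.Lib.MP_bd65ca_an.Pg.Poff
import Pool.Agent.Lib.MP_bd65ca_an.Pg.Pon

/-!
# The Turán problem for polygons: the pointwise inequality
-/

open MeasureTheory FourierTransform Pointwise Set
open scoped RealInnerProductSpace

namespace Pool.Agent.MPbd65ca.Pg

variable {k : ℕ} {g : ℤ → E 2}

private theorem PC_hp (k : ℕ) (g : ℤ → E 2) (c R : ℝ) (z : ℤ → Circle) (u : E 2) :
    |hp k g c R z u| ≤ ∑ j ∈ Finset.range k, 18 * |bq g j| := by
  unfold hp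
  refine (Finset.abs_sum_le_sum_abs _ _).trans (Finset.sum_le_sum fun j _ => ?_)
  have h1 : ‖(z j : ℂ) * (z (j + 1) : ℂ)‖ = 1 := by
    rw [norm_mul, Circle.norm_coe, Circle.norm_coe, one_mul]
  have h2 : |(hb g c R j u * ((z j : ℂ) * (z (j + 1) : ℂ))).re| ≤ ‖hb g c R j u‖ := by
    refine (Complex.abs_re_le_norm _).trans ?_
    rw [norm_mul, h1, mul_one]
  refine h2.trans ((norm_hb_le g c R j u).trans ?_)
  have h3 : (1 : ℝ) ≤ (1 + |Yf g (j - 1) u|) * (1 + |Yf g (j + 1) u|) := by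
    have h4 := abs_nonneg (Yf g ((j : ℤ) - 1) u)
    have h5 := abs_nonneg (Yf g ((j : ℤ) + 1) u)
    nlinarith [mul_nonneg h4 h5]
  exact div_le_self (by positivity) h3

private theorem PC_term (k : ℕ) (g : ℤ → E 2) (u : E 2) (j : ℕ) :
    0 ≤ ((1 + ‖u‖ ^ 2) * (1 + |Yf g j u|))⁻¹ := by
  positivity

private theorem PC_eE (k : ℕ) (g : ℤ → E 2) {R : ℝ} (hR : 1 ≤ R) (u : E 2) {j : ℕ} (hj : j < k) :
    ((1 + ‖u‖ ^ 2) * (1 + |Yf g j u|))⁻¹ ≤ eE k g R u := by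
  unfold eE
  have h1 := Finset.single_le_sum (f := fun j : ℕ => ((1 + ‖u‖ ^ 2) * (1 + |Yf g j u|))⁻¹)
    (fun j _ => PC_term k g u j) (Finset.mem_range.2 hj)
  have h2 : 0 ≤ (R * (1 + ‖u‖))⁻¹ := by
    have := norm_nonneg u
    positivity
  have h3 : ((1 + ‖u‖ ^ 2) * (1 + |Yf g j u|))⁻¹ ≤
      ∑ j ∈ Finset.range k, ((1 + ‖u‖ ^ 2) * (1 + |Yf g j u|))⁻¹ := h1
  linarith

theorem Zon.pc (h : Zon k g) (c : ℝ) : ∃ CE c2 : ℝ, 0 < CE ∧ 0 < c2 ∧ ∀ R : ℝ, 1 ≤ R →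
    ∀ u : E 2, ∃ a : Ix → ℂ, ∀ z, Ph k z → Zt k g z u = 0 →
      0 < hp k g c R z u + ip k g a z + ez k g R CE c2 u := by
  have hk := h.hk
  obtain ⟨CE0, c2, hCE0, hc2, off⟩ := h.poff c
  obtain ⟨C1, hC1, on⟩ := h.pon c
  obtain ⟨L, hL0, -, hL⟩ := h.norm_le
  set B : ℝ := ∑ j ∈ Finset.range k, 18 * |bq g j| with hB
  have hB0 : 0 ≤ B := Finset.sum_nonneg fun j _ => by positivity
  set CE : ℝ := CE0 + C1 + c2 + 1 + 2 * (1 + L) * (B + c2 + 1) with hCE
  have hx0 : 0 ≤ 2 * (1 + L) * (B + c2 + 1) := by positivity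
  refine ⟨CE, c2, by positivity, hc2, fun R hR u => ?_⟩
  have hCEpos : 0 < CE := by positivity
  have hu0 := norm_nonneg u
  have hE0 : 0 ≤ eE k g R u := (PC_term k g u 0).trans (PC_eE k g hR u (by omega))
  by_cases hu : ‖u‖ ≤ 1
  · refine ⟨fun _ => 0, fun z _ _ => ?_⟩
    have e1 : ip k g (fun _ => 0) z = 0 := by
      unfold ip
      exact Finset.sum_eq_zero fun n _ => by simp
    have e2 := PC_hp k g c R z u
    have e3 := neg_abs_le (hp k g c R z u)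
    have e4 := PC_eE k g hR u (j := 0) (by omega)
    have e5 : (2 * (1 + L))⁻¹ ≤ ((1 + ‖u‖ ^ 2) * (1 + |Yf g (0 : ℕ) u|))⁻¹ := by
      apply inv_anti₀ (by positivity)
      have f1 : |Yf g (0 : ℕ) u| ≤ L := (hL u _).trans (by nlinarith)
      have f2 : ‖u‖ ^ 2 ≤ 1 := by nlinarith
      have f3 := abs_nonneg (Yf g (0 : ℕ) u)
      nlinarith [mul_nonneg (sub_nonneg.2 f2) (add_nonneg zero_le_one f3)]
    have e6 : B + c2 + 1 ≤ CE * eE k g R u := by
      have f1 : (2 * (1 + L))⁻¹ ≤ eE k g R u := e5.trans e4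
      have f2 : 2 * (1 + L) * (B + c2 + 1) * (2 * (1 + L))⁻¹ ≤ CE * eE k g R u := by
        refine mul_le_mul ?_ f1 (by positivity) hCEpos.le
        linarith
      have f3 : 2 * (1 + L) * (B + c2 + 1) * (2 * (1 + L))⁻¹ = B + c2 + 1 := by
        field_simp
      linarith
    have e7 : c2 / (1 + ‖u‖ ^ 2) ≤ c2 := div_le_self hc2.le (by nlinarith [sq_nonneg ‖u‖])
    unfold ez
    rw [e1]
    linarith
  · push Not at hu
    have hs : 0 < ‖u‖ ^ 2 := by positivity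
    by_cases hj : ∃ j, Yf g j u = 0
    · obtain ⟨a, ha⟩ := on R hR u hu.le hj
      refine ⟨a, fun z hz hZ => ?_⟩
      obtain ⟨j, hj⟩ := hj
      obtain ⟨i, hi, he⟩ := exists_per k (by omega) (fun j => |Yf g j u|)
        (fun j => h.abs_Yf_per u j) j
      have he' : |Yf g i u| = 0 := by
        have : |Yf g j u| = |Yf g i u| := he
        rw [← this, hj, abs_zero]
      have e4 := PC_eE k g hR u hi
      rw [he', add_zero, mul_one] at e4
      have e5 : CE * (1 + ‖u‖ ^ 2)⁻¹ ≤ CE * eE k g R u := mul_le_mul_of_nonneg_left e4 hCEpos.le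
      have e6 := ha z hz hZ
      have e7 : 0 < (CE - C1 - c2) * (1 + ‖u‖ ^ 2)⁻¹ := by
        refine mul_pos ?_ (by positivity)
        linarith
      unfold ez
      rw [div_eq_mul_inv] at e6 ⊢
      nlinarith
    · push Not at hj
      obtain ⟨a, ha⟩ := off R hR u hu.le hj
      refine ⟨a, fun z hz hZ => ?_⟩
      have e6 := ha z hz hZ
      have e7 : c2 / (1 + ‖u‖ ^ 2) < c2 / ‖u‖ ^ 2 :=
        div_lt_div_of_pos_left hc2 hs (by linarith)
      have e8 : CE0 * eE k g R u ≤ CE * eE k g R u := by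
        refine mul_le_mul_of_nonneg_right ?_ hE0
        linarith
      unfold ez
      linarith

end Pool.Agent.MPbd65ca.Pg
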