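import Pool.Agent.Lib.MP_bd65ca_an.Pg.QuadA

/-!
# The Turán problem for polygons: the vector identity of the sides
-/

open MeasureTheory FourierTransform Pointwise Set
open scoped RealInnerProductSpace

namespace Pool.Agent.MPbd65ca.Pg

variable {k : ℕ} {g : ℤ → E 2}

theorem Zon.sum_Sk_vec (h : Zon k g) {z : ℤ → Circle} (hz : Ph k z) {u : E 2}
    (hu : ∀ j, Yf g j u ≠ 0) : ∑ j ∈ Finset.range k, Sk g z u j • g j =
      (∑ j ∈ Finset.range k, xk g z u j) • (!₂[-u 1, u 0] : E 2) := by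
  set F : ℤ → E 2 := fun j => (cr z j / Yf g (j - 1) u) • g (j - 1) with hF
  have hFper : ∀ j, F (j + k) = F j := by
    intro j
    simp only [hF]
    have e : j + k - 1 = j - 1 + k := by ring
    rw [e, cr_per hz, h.Yf_anti, h.anti, smul_neg, div_neg, neg_smul, neg_neg]
  have h1 : ∀ j : ℤ, Sk g z u j • g j = (cr z j / Yf g j u) • g j - F (1 + j) := by
    intro j
    simp only [hF, Sk]
    rw [add_sub_cancel_left, sub_div, sub_smul, add_comm 1 j]
  have h2 : ∑ j ∈ Finset.range k, F (1 + j) = ∑ j ∈ Finset.range k, F j :=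
    sum_window k F hFper 1
  rw [Finset.sum_congr rfl fun (j : ℕ) _ => h1 (j : ℤ), Finset.sum_sub_distrib, h2,
    ← Finset.sum_sub_distrib, Finset.sum_smul]
  refine Finset.sum_congr rfl fun j _ => ?_
  have h3 := inner_rot (g ((j : ℤ) - 1)) (g j) u
  have e1 : ⟪g ((j : ℤ) - 1), u⟫ = Yf g ((j : ℤ) - 1) u := rfl
  have e2 : ⟪g (j : ℤ), u⟫ = Yf g (j : ℤ) u := rfl
  have e3 : dt (g ((j : ℤ) - 1)) (g j) = tau g j := rfl
  rw [e1, e2, e3] at h3
  have hy1 := hu j
  have hy2 := hu ((j : ℤ) - 1)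
  have h4 : xk g z u j = cr z j / (Yf g ((j : ℤ) - 1) u * Yf g j u) * tau g j := by
    unfold xk
    ring
  rw [h4, mul_smul, ← h3, smul_sub, smul_smul, smul_smul]
  simp only [hF]
  congr 2
  · field_simp
  · field_simp

/-- The sides do not vanish. -/
theorem Zon.QuadB_norm_pos (h : Zon k g) (j : ℤ) : 0 < ‖g j‖ := by
  rw [norm_pos_iff]
  intro h0
  have h1 := h.pos j (j + 1) (by omega) (by have := h.hk; omega)
  rw [h0, dt_zero_left] at h1
  exact lt_irrefl _ h1

theorem QuadB_abs_cr (z : ℤ → Circle) (j : ℤ) : |cr z j| ≤ 1 := by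
  unfold cr
  refine (Complex.abs_re_le_norm _).trans ?_
  rw [Circle.norm_coe]

theorem QuadB_Sk_le {z : ℤ → Circle} {u : E 2} {j : ℤ} {c : ℝ} (hc : 0 < c)
    (hj : c ≤ |Yf g j u|) : |Sk g z u j| ≤ 2 / c := by
  unfold Sk
  rw [abs_div]
  have h1 : |cr z j - cr z (j + 1)| ≤ 2 := by
    have h2 := QuadB_abs_cr z j
    have h3 := QuadB_abs_cr z (j + 1)
    have h4 := abs_sub (cr z j) (cr z (j + 1))
    linarith
  exact div_le_div₀ (by norm_num) h1 hc hj

/-- On the zero set the terms of the sides are bounded. -/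
theorem Zon.Sk_bound (h : Zon k g) : ∃ C : ℝ, 0 < C ∧ ∀ (z : ℤ → Circle) (u : E 2), Ph k z →
    (∀ j, Yf g j u ≠ 0) → Zt k g z u = 0 → ∀ j, |Sk g z u j| ≤ C / ‖u‖ := by
  obtain ⟨c0, hc0, htwo⟩ := h.two_forms
  obtain ⟨L, hL0, hL, -⟩ := h.norm_le
  have hk := h.hk
  obtain ⟨i0, hi0, hmin⟩ := Finset.exists_min_image (Finset.range k) (fun i : ℕ => ‖g i‖)
    ⟨0, Finset.mem_range.2 (by omega)⟩
  set m : ℝ := ‖g i0‖ with hm
  have hm0 : 0 < m := h.QuadB_norm_pos _
  have hk0 : (0 : ℝ) < k := by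
    have : 0 < k := by omega
    exact_mod_cast this
  refine ⟨2 / c0 + k * L * (2 / c0) / m, by positivity, fun z u hz hu h0 j => ?_⟩
  have hu0 : 0 < ‖u‖ := by
    rw [norm_pos_iff]
    intro hu1
    apply hu 0
    rw [hu1]
    unfold Yf
    exact inner_zero_right _
  obtain ⟨i, hi, hij⟩ := exists_per k (by omega) (fun j => |Sk g z u j|)
    (fun j => by rw [h.Sk_per hz, abs_neg]) j
  rw [hij]
  have hcu : 0 < c0 * ‖u‖ := mul_pos hc0 hu0
  by_cases hY : c0 * ‖u‖ ≤ |Yf g i u|
  · refine (QuadB_Sk_le hcu hY).trans ?_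
    rw [← div_div]
    apply div_le_div_of_nonneg_right _ hu0.le
    have : 0 ≤ k * L * (2 / c0) / m := by positivity
    linarith
  · push Not at hY
    -- the other forms are large
    have hoth : ∀ l ∈ (Finset.range k).erase i, |Sk g z u l| ≤ 2 / (c0 * ‖u‖) := by
      intro l hl
      rw [Finset.mem_erase, Finset.mem_range] at hl
      apply QuadB_Sk_le hcu
      rcases lt_or_gt_of_ne hl.1 with h1 | h1
      · have h2 := htwo u l i (by exact_mod_cast h1) (by omega)
        rcases le_max_iff.1 h2 with h3 | h3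
        · exact h3
        · exact absurd h3 (not_le.2 hY)
      · have h2 := htwo u i l (by exact_mod_cast h1) (by omega)
        rcases le_max_iff.1 h2 with h3 | h3
        · exact absurd h3 (not_le.2 hY)
        · exact h3
    have hx : ∑ j ∈ Finset.range k, xk g z u j = 0 := by
      have h1 := h.Zt_eq hz hu
      rw [h0] at h1
      have h2 : ∏ l ∈ Finset.range k, Yf g l u ≠ 0 :=
        Finset.prod_ne_zero_iff.2 fun l _ => hu l
      rcases mul_eq_zero.1 h1.symm with h3 | h3
      · exact absurd (neg_eq_zero.1 h3) h2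
      · exact h3
    have hv := h.sum_Sk_vec hz hu
    rw [hx, zero_smul, ← Finset.add_sum_erase _ _ (Finset.mem_range.2 hi)] at hv
    have hv2 : Sk g z u i • g i = -∑ l ∈ (Finset.range k).erase i, Sk g z u l • g l :=
      eq_neg_of_add_eq_zero_left hv
    have hv3 : |Sk g z u i| * ‖g i‖ ≤ k * (2 / (c0 * ‖u‖) * L) := by
      rw [← Real.norm_eq_abs, ← norm_smul, hv2, norm_neg]
      refine (norm_sum_le _ _).trans ?_
      have h1 : ∀ l ∈ (Finset.range k).erase i, ‖Sk g z u l • g l‖ ≤ 2 / (c0 * ‖u‖) * L := by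
        intro l hl
        rw [norm_smul, Real.norm_eq_abs]
        exact mul_le_mul (hoth l hl) (hL l) (norm_nonneg _) (by positivity)
      refine (Finset.sum_le_card_nsmul _ _ _ h1).trans ?_
      rw [nsmul_eq_mul]
      apply mul_le_mul_of_nonneg_right _ (by positivity)
      have : ((Finset.range k).erase i).card ≤ k := by
        refine (Finset.card_erase_le).trans ?_
        rw [Finset.card_range]
      exact_mod_cast this
    have hmi : m ≤ ‖g i‖ := hmin i (Finset.mem_range.2 hi)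
    have hv4 : |Sk g z u i| * m ≤ k * (2 / (c0 * ‖u‖) * L) :=
      (mul_le_mul_of_nonneg_left hmi (abs_nonneg _)).trans hv3
    have hv5 : |Sk g z u i| ≤ k * (2 / (c0 * ‖u‖) * L) / m := by
      rw [le_div_iff₀ hm0]
      exact hv4
    refine hv5.trans ?_
    have h6 : k * (2 / (c0 * ‖u‖) * L) / m = (k * L * (2 / c0) / m) / ‖u‖ := by
      field_simp
    rw [h6]
    apply div_le_div_of_nonneg_right _ hu0.le
    have : 0 < 2 / c0 := by positivity
    linarith

end Pool.Agent.MPbd65ca.Pg
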