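import Pool.Agent.Lib.MP_bd65ca_an.Pg.PoffA
import Pool.Agent.Lib.MP_bd65ca_an.Pg.QuadB
import Pool.Agent.Lib.MP_bd65ca_an.Pg.HbErr
import Pool.Agent.Lib.MP_bd65ca_an.Pg.Gen4

/-!
# The Turán problem for polygons: the inequality away from the singular lines
-/

open MeasureTheory FourierTransform Pointwise Set
open scoped RealInnerProductSpace

namespace Pool.Agent.MPbd65ca.Pg

variable {k : ℕ} {g : ℤ → E 2}

theorem Poff_eE_nonneg (k : ℕ) (g : ℤ → E 2) {R : ℝ} (hR : 1 ≤ R) (u : E 2) :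
    0 ≤ eE k g R u := by
  unfold eE
  have h1 : 0 ≤ (R * (1 + ‖u‖))⁻¹ := by positivity
  have h2 : 0 ≤ ∑ j ∈ Finset.range k, ((1 + ‖u‖ ^ 2) * (1 + |Yf g j u|))⁻¹ :=
    Finset.sum_nonneg fun j _ => by positivity
  linarith

theorem Poff_Sk_mul (z : ℤ → Circle) {u : E 2} (hu : ∀ j, Yf g j u ≠ 0) (j : ℤ) :
    cr z j - cr z (j + 1) = Sk g z u j * Yf g j u := by
  unfold Sk
  field_simp [hu j]

theorem Poff_norm_Phj_le {z : ℤ → Circle} {u : E 2} (hu : ∀ j, Yf g j u ≠ 0) {C : ℝ}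
    (hC : ∀ j, |Sk g z u j| ≤ C) (j : ℤ) :
    ‖Phj g z u j‖ ≤ 2 * C * min |Yf g (j - 1) u| |Yf g (j + 1) u| := by
  have e1 : |cr z (j - 1) - cr z j| ≤ C * |Yf g (j - 1) u| := by
    have h1 := Poff_Sk_mul (g := g) z hu (j - 1)
    rw [sub_add_cancel] at h1
    rw [h1, abs_mul]
    exact mul_le_mul_of_nonneg_right (hC _) (abs_nonneg _)
  have e2 : |cr z (j + 1) - cr z (j + 2)| ≤ C * |Yf g (j + 1) u| := by
    have h1 := Poff_Sk_mul (g := g) z hu (j + 1)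
    have e : j + 1 + 1 = j + 2 := by ring
    rw [e] at h1
    rw [h1, abs_mul]
    exact mul_le_mul_of_nonneg_right (hC _) (abs_nonneg _)
  unfold Phj
  split_ifs with hc
  · rw [min_eq_left hc, norm_mul, Complex.norm_real, Circle.norm_coe, mul_one, Real.norm_eq_abs,
      abs_mul, abs_two, abs_sub_comm]
    linarith
  · rw [min_eq_right (le_of_not_ge hc), norm_mul, Complex.norm_real, Circle.norm_coe, mul_one,
      Real.norm_eq_abs, abs_mul, abs_two]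
    linarith

theorem Zon.poff (h : Zon k g) (c : ℝ) : ∃ CE c2 : ℝ, 0 < CE ∧ 0 < c2 ∧ ∀ R : ℝ, 1 ≤ R →
    ∀ u : E 2, 1 ≤ ‖u‖ → (∀ j, Yf g j u ≠ 0) → ∃ a : Ix → ℂ, ∀ z, Ph k z → Zt k g z u = 0 →
      c2 / ‖u‖ ^ 2 ≤ hp k g c R z u + ip k g a z + CE * eE k g R u := by
  have hk := h.hk
  obtain ⟨l, hl, hgl⟩ := h.exists_side
  obtain ⟨L, hL0, -, hL⟩ := h.norm_le
  obtain ⟨C, hC0, hC⟩ := h.Sk_bound
  obtain ⟨C1, hC10, hC1⟩ := h.hb_err c
  refine ⟨2 * C * C1 * k + 1, 1 / (16 * L ^ 2), by positivity, by positivity,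
    fun R hR u hu1 hu => ?_⟩
  obtain ⟨a, ha⟩ := h.poff_id hl hgl c R hu (1 / (16 * L ^ 2 * ‖u‖ ^ 2))
  refine ⟨a, fun z hz h0 => ?_⟩
  rw [ha z hz h0]
  have hn : 0 < ‖u‖ := by linarith
  have hE := Poff_eE_nonneg k g hR u
  set w : ℤ → ℂ := fun j => hb g c R j u +
    ((1 / 2 * (bq g j / (Yf g (j - 1) u * Yf g (j + 1) u)) : ℝ) : ℂ) with hw
  have hS := hC z u hz hu h0
  -- the error
  have hA : -(2 * C * C1 * k * eE k g R u) ≤
      ∑ j ∈ Finset.range k, (w j * Phj g z u j).re := by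
    have h1 : ∀ j ∈ Finset.range k, -(2 * C * C1 * eE k g R u) ≤ (w (j : ℤ) * Phj g z u j).re := by
      intro j hj
      have h2 : |(w (j : ℤ) * Phj g z u j).re| ≤ ‖w j‖ * ‖Phj g z u j‖ := by
        rw [← norm_mul]
        exact Complex.abs_re_le_norm _
      have h3 := Poff_norm_Phj_le hu hS (j : ℤ)
      have h4 := hC1 R hR u hu1 hu j (Finset.mem_range.mp hj)
      have h5 : ‖w j‖ * ‖Phj g z u j‖ ≤ 2 * C * C1 * eE k g R u := by
        calc ‖w j‖ * ‖Phj g z u j‖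
            ≤ ‖w j‖ * (2 * (C / ‖u‖) * min |Yf g (j - 1) u| |Yf g (j + 1) u|) :=
              mul_le_mul_of_nonneg_left h3 (norm_nonneg _)
          _ = 2 * C * (‖w j‖ * (min |Yf g (j - 1) u| |Yf g (j + 1) u| / ‖u‖)) := by
              field_simp
          _ ≤ 2 * C * (C1 * eE k g R u) :=
              mul_le_mul_of_nonneg_left h4 (by positivity)
          _ = _ := by ring
      have h6 := neg_abs_le (w (j : ℤ) * Phj g z u j).re
      linarith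
    have h2 := Finset.sum_le_sum h1
    rw [Finset.sum_const, Finset.card_range, nsmul_eq_mul] at h2
    linarith
  -- the positive term
  have hB : 1 / (16 * L ^ 2 * ‖u‖ ^ 2) * Wn z l ≤ ∑ j ∈ Finset.range k, Sk g z u j ^ 2 := by
    have h1 := Wn_le (by omega) hz (l : ℤ)
    have h2 : ∑ j ∈ Finset.range k, (cr z j - cr z (j + 1)) ^ 2 ≤
        ∑ j ∈ Finset.range k, L ^ 2 * ‖u‖ ^ 2 * Sk g z u j ^ 2 := by
      refine Finset.sum_le_sum fun j _ => ?_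
      rw [Poff_Sk_mul z hu (j : ℤ), mul_pow, mul_comm]
      refine mul_le_mul_of_nonneg_right ?_ (sq_nonneg _)
      rw [← mul_pow, ← sq_abs (Yf g j u)]
      exact pow_le_pow_left₀ (abs_nonneg _) (hL u j) 2
    rw [← Finset.mul_sum] at h2
    rw [div_mul_eq_mul_div, one_mul, div_le_iff₀ (by positivity)]
    linarith
  have hq : 1 / (16 * L ^ 2) / ‖u‖ ^ 2 = 1 / (16 * L ^ 2 * ‖u‖ ^ 2) := by
    rw [div_div]
  rw [hq]
  have hfin : 1 / (16 * L ^ 2 * ‖u‖ ^ 2) * (1 - Wn z l) =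
      1 / (16 * L ^ 2 * ‖u‖ ^ 2) - 1 / (16 * L ^ 2 * ‖u‖ ^ 2) * Wn z l := by ring
  rw [hfin]
  linarith

end Pool.Agent.MPbd65ca.Pg
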