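import Pool.Agent.Lib.MP_bd65ca_an.Pg.Basic

/-!
# The Turán problem for polygons: the function with positive mean
-/

open MeasureTheory FourierTransform Pointwise Set
open scoped RealInnerProductSpace

namespace Pool.Agent.MPbd65ca.Pg

variable {k : ℕ} {g : ℤ → E 2}

/-- The function with the mean `1`. -/
noncomputable def Wn (z : ℤ → Circle) (l : ℤ) : ℝ :=
  1 - ((z (l + 1) : ℂ) ^ 2 * (((z l)⁻¹ : Circle) : ℂ) ^ 2).re -
    8 * (cr z (l + 1) * cr z (l + 3)) - 8 * (cr z l * cr z (l + 2))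

private theorem Win_sq (z : Circle) : (z : ℂ).re ^ 2 + (z : ℂ).im ^ 2 = 1 := by
  have h := Circle.normSq_coe z
  rw [Complex.normSq_apply] at h
  linarith

private theorem Win_re (w z : Circle) :
    1 - ((w : ℂ) ^ 2 * ((z⁻¹ : Circle) : ℂ) ^ 2).re ≤
      4 * ((z : ℂ).re ^ 2 + (w : ℂ).re ^ 2) := by
  have hw := Win_sq w
  have hz := Win_sq z
  rw [Circle.coe_inv_eq_conj]
  obtain ⟨a, ha⟩ : ∃ a, a = (w : ℂ).re := ⟨_, rfl⟩
  obtain ⟨b, hb⟩ : ∃ b, b = (w : ℂ).im := ⟨_, rfl⟩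
  obtain ⟨c, hc⟩ : ∃ c, c = (z : ℂ).re := ⟨_, rfl⟩
  obtain ⟨d, hd⟩ : ∃ d, d = (z : ℂ).im := ⟨_, rfl⟩
  have h1 : ((w : ℂ) ^ 2 * ((starRingEnd ℂ) (z : ℂ)) ^ 2).re =
      (a * c + b * d) ^ 2 - (b * c - a * d) ^ 2 := by
    simp only [pow_two, Complex.mul_re, Complex.mul_im, Complex.conj_re, Complex.conj_im,
      ← ha, ← hb, ← hc, ← hd]
    ring
  rw [h1, ← ha, ← hc]
  rw [← ha, ← hb] at hw
  rw [← hc, ← hd] at hz
  have h2 : (a * c + b * d) ^ 2 + (b * c - a * d) ^ 2 = 1 := by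
    have : (a * c + b * d) ^ 2 + (b * c - a * d) ^ 2 = (a ^ 2 + b ^ 2) * (c ^ 2 + d ^ 2) := by
      ring
    rw [this, hw, hz, one_mul]
  have h3 : (b * c - a * d) ^ 2 ≤ 2 * (b ^ 2 * c ^ 2 + a ^ 2 * d ^ 2) := by
    nlinarith [sq_nonneg (b * c + a * d)]
  have h4 : b ^ 2 * c ^ 2 ≤ c ^ 2 := by
    nlinarith [sq_nonneg c, sq_nonneg a, mul_nonneg (sq_nonneg a) (sq_nonneg c)]
  have h5 : a ^ 2 * d ^ 2 ≤ a ^ 2 := by
    nlinarith [sq_nonneg c, sq_nonneg a, mul_nonneg (sq_nonneg a) (sq_nonneg c)]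
  linarith

private theorem Win_alg {w c0 c1 c2 c3 : ℝ} (h : w ≤ 4 * (c0 ^ 2 + c1 ^ 2)) :
    w - 8 * (c1 * c3) - 8 * (c0 * c2) ≤
      16 * ((c0 - c1) ^ 2 + (c1 - c2) ^ 2 + (c2 - c3) ^ 2) := by
  have h1 : (c1 - c3) ^ 2 ≤ 2 * ((c1 - c2) ^ 2 + (c2 - c3) ^ 2) := by
    nlinarith [sq_nonneg (c1 - c2 - (c2 - c3))]
  have h2 : (c0 - c2) ^ 2 ≤ 2 * ((c0 - c1) ^ 2 + (c1 - c2) ^ 2) := by
    nlinarith [sq_nonneg (c0 - c1 - (c1 - c2))]
  nlinarith [sq_nonneg c3, sq_nonneg c2, sq_nonneg (c0 - c1), sq_nonneg (c2 - c3)]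

theorem Wn_le (hk : 4 ≤ k) {z : ℤ → Circle} (hz : Ph k z) (l : ℤ) :
    Wn z l ≤ 16 * ∑ j ∈ Finset.range k, (cr z j - cr z (j + 1)) ^ 2 := by
  have h1 := Win_re (z (l + 1)) (z l)
  have h2 := Win_alg (c2 := cr z (l + 2)) (c3 := cr z (l + 3)) h1
  have h3 := sum_window k (fun j : ℤ => (cr z j - cr z (j + 1)) ^ 2) (fun j => by
    have e : j + k + 1 = j + 1 + k := by ring
    rw [e, cr_per hz, cr_per hz]) l
  have h4 : ∑ m ∈ Finset.range 3, (cr z (l + m) - cr z (l + m + 1)) ^ 2 ≤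
      ∑ m ∈ Finset.range k, (cr z (l + m) - cr z (l + m + 1)) ^ 2 :=
    Finset.sum_le_sum_of_subset_of_nonneg (Finset.range_subset_range.2 (by omega))
      fun _ _ _ => sq_nonneg _
  have h5 : ∑ m ∈ Finset.range 3, (cr z (l + m) - cr z (l + m + 1)) ^ 2 =
      (cr z l - cr z (l + 1)) ^ 2 + (cr z (l + 1) - cr z (l + 2)) ^ 2 +
        (cr z (l + 2) - cr z (l + 3)) ^ 2 := by
    rw [Finset.sum_range_succ, Finset.sum_range_succ, Finset.sum_range_one]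
    have e0 : l + ((0 : ℕ) : ℤ) = l := by simp
    have e1 : l + ((1 : ℕ) : ℤ) = l + 1 := by simp
    have e2 : l + ((2 : ℕ) : ℤ) = l + 2 := by simp
    have e3 : l + 1 + 1 = l + 2 := by ring
    have e4 : l + 2 + 1 = l + 3 := by ring
    rw [e0, e1, e2, e3, e4]
  have h6 : Wn z l ≤ 16 * ((cr z l - cr z (l + 1)) ^ 2 + (cr z (l + 1) - cr z (l + 2)) ^ 2 +
      (cr z (l + 2) - cr z (l + 3)) ^ 2) := h2
  linarith

end Pool.Agent.MPbd65ca.Pg
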