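import Pool.Agent.Lib.MP_bd65ca_an.Pg.SelA

/-!
# The Turán problem for polygons: continuous choice of the coefficients
-/

open MeasureTheory FourierTransform Pointwise Set Filter Topology
open scoped RealInnerProductSpace

namespace Pool.Agent.MPbd65ca.Pg

variable {k : ℕ} {g : ℤ → E 2}

private theorem Sel_bound (k : ℕ) (g : ℤ → E 2) {c R CE c2 : ℝ} (hR : 0 < R)
    {Φ : E 2 → ℝ} (hΦ0 : ∀ u, 0 ≤ Φ u)
    (hΦt : Tendsto Φ (cocompact (E 2)) (𝓝 0)) {M : ℝ} (hM : 0 < M) :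
    ∃ S : ℝ, ∀ u z, S < ‖u‖ → 0 < Φ u * (hp k g c R z u + ip k g 0 z + ez k g R CE c2 u) + M := by
  obtain ⟨Bh, hBh⟩ := abs_hp_le k g c R
  obtain ⟨Be, hBe⟩ := abs_ez_le k g hR CE c2
  have hBh0 : 0 ≤ Bh := (abs_nonneg _).trans (hBh (fun _ => 1) 0)
  have hBe0 : 0 ≤ Be := (abs_nonneg _).trans (hBe 0)
  have hB : 0 < Bh + Be + 1 := by positivity
  have h1 : ∀ᶠ u in cocompact (E 2), Φ u < M / (Bh + Be + 1) :=
    hΦt.eventually (gt_mem_nhds (by positivity))
  rw [← Metric.cobounded_eq_cocompact, hasBasis_cobounded_norm.eventually_iff] at h1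
  obtain ⟨S, -, hS⟩ := h1
  refine ⟨S, fun u z hu => ?_⟩
  have h2 : Φ u < M / (Bh + Be + 1) := hS hu.le
  rw [lt_div_iff₀ hB] at h2
  have h3 := abs_le.1 (hBh z u)
  have h4 := abs_le.1 (hBe u)
  have h5 := hΦ0 u
  rw [ip_zero, add_zero]
  nlinarith [mul_nonneg h5 (show 0 ≤ hp k g c R z u + ez k g R CE c2 u + (Bh + Be) by linarith)]

private theorem Sel_swap {X Y Z : Type*} [TopologicalSpace X] [TopologicalSpace Y]
    [TopologicalSpace Z] {f : Y → X → Z} (hf : Continuous fun p : Y × X => f p.1 p.2) :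
    Continuous fun p : X × Y => f p.2 p.1 :=
  hf.comp (continuous_snd.prodMk continuous_fst)

private theorem Sel_snd {X Y W Z : Type*} [TopologicalSpace X] [TopologicalSpace Y]
    [TopologicalSpace W] [TopologicalSpace Z] {f : Y → W → Z}
    (hf : Continuous fun p : Y × W => f p.1 p.2) (w : W) :
    Continuous fun p : X × Y => f p.2 w :=
  hf.comp (continuous_snd.prodMk continuous_const)

private theorem Sel_loc {X Y : Type*} [TopologicalSpace X] [TopologicalSpace Y] {K : Set Y}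
    (hK : IsCompact K) {Z W : X × Y → ℝ} (hZ : Continuous Z) (hW : Continuous W) {x₀ : X}
    (h : ∀ y ∈ K, Z (x₀, y) = 0 → 0 < W (x₀, y)) :
    ∀ᶠ x in 𝓝 x₀, ∀ y ∈ K, Z (x, y) = 0 → 0 < W (x, y) := by
  refine hK.eventually_forall_of_forall_eventually (P := fun x y => Z (x, y) = 0 → 0 < W (x, y)) ?_
  intro y hy
  by_cases hy0 : Z (x₀, y) = 0
  · filter_upwards [hW.continuousAt.eventually_const_lt (h y hy hy0)] with p hp _ using hp
  · filter_upwards [hZ.continuousAt.eventually_ne hy0] with p hp hp0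
    exact absurd hp0 hp

/-- The coefficients can be chosen as continuous functions with compact support. -/
theorem exists_sel (k : ℕ) (g : ℤ → E 2) {c R CE c2 : ℝ} (hR : 0 < R)
    (hPC : ∀ u : E 2, ∃ a : Ix → ℂ, ∀ z, Ph k z → Zt k g z u = 0 →
      0 < hp k g c R z u + ip k g a z + ez k g R CE c2 u)
    {Φ : E 2 → ℝ} (hΦ : Continuous Φ) (hΦ0 : ∀ u, 0 ≤ Φ u)
    (hΦt : Tendsto Φ (cocompact (E 2)) (𝓝 0)) {M : ℝ} (hM : 0 < M) :
    ∃ a : E 2 → Ix → ℂ, Continuous a ∧ (∃ S : ℝ, ∀ u, S ≤ ‖u‖ → a u = 0) ∧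
      ∀ u z, Ph k z → Zt k g z u = 0 →
        0 < Φ u * (hp k g c R z u + ip k g (a u) z + ez k g R CE c2 u) + M := by
  obtain ⟨S, hS⟩ := Sel_bound k g (c := c) (CE := CE) (c2 := c2) hR hΦ0 hΦt hM
  obtain ⟨t, ht⟩ : ∃ t : E 2 → Set (Ix → ℂ), t = fun u => {a | (S + 1 ≤ ‖u‖ → a = 0) ∧
      ∀ z, Ph k z → Zt k g z u = 0 →
        0 < Φ u * (hp k g c R z u + ip k g a z + ez k g R CE c2 u) + M} := ⟨_, rfl⟩
  have hconv : ∀ u, Convex ℝ (t u) := by
    intro u
    rw [ht]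
    rintro a₁ ⟨h1, h2⟩ a₂ ⟨h3, h4⟩ r₁ r₂ hr₁ hr₂ hr
    refine ⟨fun hu => ?_, fun z hz hz0 => ?_⟩
    · rw [h1 hu, h3 hu, smul_zero, smul_zero, add_zero]
    · have h5 := (convex_Ioi (0 : ℝ)) (h2 z hz hz0) (h4 z hz hz0) hr₁ hr₂ hr
      rw [mem_Ioi, smul_eq_mul, smul_eq_mul] at h5
      rw [ip_combo]
      refine h5.trans_eq ?_
      have h6 : r₂ = 1 - r₁ := by linarith
      rw [h6]
      ring
  have hloc : ∀ u₀ : E 2, ∃ a : Ix → ℂ, ∀ᶠ u in 𝓝 u₀, a ∈ t u := by
    intro u₀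
    by_cases hu₀ : S < ‖u₀‖
    · refine ⟨0, ?_⟩
      filter_upwards [continuous_norm.continuousAt.eventually_const_lt hu₀] with u hu
      rw [ht]
      exact ⟨fun _ => rfl, fun z _ _ => hS u z hu⟩
    · push Not at hu₀
      obtain ⟨a, ha⟩ := hPC u₀
      refine ⟨a, ?_⟩
      have hexp : Continuous fun p : E 2 × (ℤ → Circle) =>
          Φ p.1 * (hp k g c R p.2 p.1 + ip k g a p.2 + ez k g R CE c2 p.1) + M := by
        have h1 : Continuous fun p : E 2 × (ℤ → Circle) => hp k g c R p.2 p.1 :=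
          Sel_swap (f := hp k g c R) (continuous_hp k g c R)
        have h2 : Continuous fun p : E 2 × (ℤ → Circle) => ip k g a p.2 :=
          Sel_snd (f := fun z b => ip k g b z) (continuous_ip k g) a
        have h3 : Continuous fun p : E 2 × (ℤ → Circle) => ez k g R CE c2 p.1 :=
          (continuous_ez k g hR CE c2).comp continuous_fst
        exact ((hΦ.comp continuous_fst).mul ((h1.add h2).add h3)).add continuous_const
      have hZ : Continuous fun p : E 2 × (ℤ → Circle) => Zt k g p.2 p.1 :=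
        Sel_swap (f := Zt k g) (continuous_Zt k g)
      have hcpt := Sel_loc (isCompact_Ph k) hZ hexp (x₀ := u₀) (fun z hz hz0 => by
        have h2 := ha z hz hz0
        have h3 := mul_nonneg (hΦ0 u₀) h2.le
        exact add_pos_of_nonneg_of_pos h3 hM)
      have hlt : ‖u₀‖ < S + 1 := by linarith
      filter_upwards [hcpt, continuous_norm.continuousAt.eventually_lt_const hlt] with u h1 h2
      rw [ht]
      exact ⟨fun h3 => absurd h3 (not_le.2 h2), fun z hz hz0 => h1 z hz hz0⟩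
  obtain ⟨f, hf⟩ := exists_continuous_forall_mem_convex_of_local_const hconv hloc
  rw [ht] at hf
  exact ⟨f, f.continuous, ⟨S + 1, fun u hu => (hf u).1 hu⟩, fun u z hz hz0 => (hf u).2 z hz hz0⟩

end Pool.Agent.MPbd65ca.Pg
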