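import Pool.Agent.Lib.MP_bd65ca_an.Pg.Trig

/-!
# The Turán problem for polygons: the profile
-/

open MeasureTheory FourierTransform Pointwise Set Filter Topology
open scoped RealInnerProductSpace

namespace Pool.Agent.MPbd65ca.Pg

/-- The profile with trigonometric polynomials as coefficients. -/
noncomputable def pT (k : ℕ) (g : ℤ → E 2) (c R : ℝ) (s : Ix → Finset (E 2)) (b : Ix → E 2 → ℂ)
    (s0 : Finset (E 2)) (b0 : E 2 → ℂ) (z : ℤ → Circle) (u : E 2) : ℝ :=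
  hp k g c R z u + ip k g (fun n => tp (s n) (b n) u) z + (tp s0 b0 u).re

/-- The properties of the profile. -/
structure Prof (k : ℕ) (g : ℤ → E 2) (c R M S C : ℝ) (Ψ : E 2 → ℝ) (s : Ix → Finset (E 2))
    (b : Ix → E 2 → ℂ) (s0 : Finset (E 2)) (b0 : E 2 → ℂ) : Prop where
  hR : 1 ≤ R
  hC : 0 ≤ C
  cont : Continuous Ψ
  nonneg : ∀ u, 0 ≤ Ψ u
  van1 : Vanish (Metric.closedBall 0 1) (fun x => (Ψ x : ℂ))
  van2 : Vanish (Metric.closedBall 0 1) (fun x => ((Ψ x ^ 2 : ℝ) : ℂ))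
  inn : ∀ u z, ‖u‖ ≤ S → Ph k z →
    0 ≤ Ψ (R⁻¹ • u) * pT k g c R s b s0 b0 z u + M + C * Zt k g z u ^ 2
  out : ∀ u z, S ≤ ‖u‖ → Ph k z → 0 ≤ Ψ (R⁻¹ • u) * pT k g c R s b s0 b0 z u + M
  neg : ∫ u : E 2, (Ψ (R⁻¹ • u) ^ 2 * (tp s0 b0 u).re + M * Ψ (R⁻¹ • u)) < 0

/-- The perturbation. -/
noncomputable def GT (k : ℕ) (g : ℤ → E 2) (c R M : ℝ) (Ψ : E 2 → ℝ) (s : Ix → Finset (E 2))
    (b : Ix → E 2 → ℂ) (s0 : Finset (E 2)) (b0 : E 2 → ℂ) (T : ℝ) (t : E 2) : ℝ :=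
  Ψ (R⁻¹ • T⁻¹ • t) ^ 2 * pT k g c R s b s0 b0 (zc k g t) (T⁻¹ • t) + M * Ψ (R⁻¹ • T⁻¹ • t)

end Pool.Agent.MPbd65ca.Pg
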