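import Pool.Agent.Lib.MP_bd65ca_an.Pg.QuadA

/-!
# The Turán problem for polygons: the quadratic identity on the zero set
-/

open MeasureTheory FourierTransform Pointwise Set
open scoped RealInnerProductSpace

namespace Pool.Agent.MPbd65ca.Pg

variable {k : ℕ} {g : ℤ → E 2}

/-- the three term relation of the sides, paired with `u` -/
theorem QuadC_rel (h : Zon k g) (u : E 2) (j : ℤ) :
    Yf g (j - 1) u / tau g j + Yf g (j + 1) u / tau g (j + 1) = gam g j * Yf g j u := by
  have h1 := congrArg (fun v : E 2 => ⟪v, u⟫) (h.gam_rel j)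
  simp only [inner_add_left, real_inner_smul_left] at h1
  unfold Yf
  rw [← h1]
  ring

/-- the elementary computation of one pair of neighbours -/
theorem QuadC_alg {a b c s t γ p q : ℝ} (ha : a ≠ 0) (hb : b ≠ 0) (hc : c ≠ 0) (hs : s ≠ 0)
    (ht : t ≠ 0) (hr : a / s + c / t = γ * b) :
    (s / (a * b) * p) * (t / (b * c) * q) * ((a ^ 2 + b ^ 2) / s ^ 2 + (b ^ 2 + c ^ 2) / t ^ 2) +
      2 * ((s / (a * b) * p) * (t / (b * c) * q) * (a * c / (s * t))) =
      (s⁻¹ ^ 2 + t⁻¹ ^ 2 + γ ^ 2) * (s * t) / (a * c) * (p * q) := by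
  have hγ : γ = (a / s + c / t) / b := by
    rw [hr]
    field_simp
  rw [hγ]
  field_simp
  ring

/-- splitting a sum over a period -/
theorem QuadC_split (hk : 4 ≤ k) (f : ℕ → ℝ) : ∑ m ∈ Finset.range k, f m =
    f 0 + f 1 + ∑ m ∈ Finset.Ico 2 (k - 1), f m + f (k - 1) := by
  obtain ⟨n, rfl⟩ : ∃ n, k = n + 1 := ⟨k - 1, by omega⟩
  rw [Finset.sum_range_succ, Nat.add_sub_cancel, Finset.range_eq_Ico,
    Finset.sum_eq_sum_Ico_succ_bot (by omega : 0 < n),
    Finset.sum_eq_sum_Ico_succ_bot (by omega : 0 + 1 < n)]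
  ring

theorem Zon.sum_Sk_sq (h : Zon k g) {z : ℤ → Circle} (hz : Ph k z) {u : E 2}
    (hu : ∀ j, Yf g j u ≠ 0) (h0 : Zt k g z u = 0) : ∑ j ∈ Finset.range k, Sk g z u j ^ 2 =
      -(∑ j ∈ Finset.range k, bq g j / (Yf g (j - 1) u * Yf g (j + 1) u) *
        (cr z j * cr z (j + 1))) -
      ∑ i ∈ Finset.range k, ∑ m ∈ Finset.Ico 2 (k - 1),
        Nk g u i * (xk g z u i * xk g z u (i + m)) := by
  have hk := h.hk
  have ht : ∀ j, tau g j ≠ 0 := fun j => (h.tau_pos j).ne'
  -- the sum of the terms vanishes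
  have hx0 : ∑ j ∈ Finset.range k, xk g z u j = 0 := by
    have h1 := h.Zt_eq hz hu
    rw [h0] at h1
    have h2 : (∏ l ∈ Finset.range k, Yf g l u) ≠ 0 := Finset.prod_ne_zero_iff.2 fun l _ => hu l
    rcases mul_eq_zero.1 h1.symm with h3 | h3
    · exact absurd (neg_eq_zero.1 h3) h2
    · exact h3
  have hxi : ∀ i : ℤ, ∑ m ∈ Finset.range k, xk g z u (i + m) = 0 := fun i => by
    rw [sum_window k (xk g z u) (h.xk_per hz u) i, hx0]
  -- the square of one term
  have hS : ∀ j : ℤ, Sk g z u j ^ 2 =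
      xk g z u j ^ 2 * (Yf g (j - 1) u ^ 2 / tau g j ^ 2) +
      xk g z u (j + 1) ^ 2 * (Yf g (j + 1) u ^ 2 / tau g (j + 1) ^ 2) -
      2 * (xk g z u j * xk g z u (j + 1) *
        (Yf g (j - 1) u * Yf g (j + 1) u / (tau g j * tau g (j + 1)))) := by
    intro j
    have e1 : Sk g z u j = xk g z u j * (Yf g (j - 1) u / tau g j) -
        xk g z u (j + 1) * (Yf g (j + 1) u / tau g (j + 1)) := by
      unfold Sk xk
      rw [add_sub_cancel_right]
      have h1 := hu (j - 1)
      have h2 := hu j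
      have h3 := hu (j + 1)
      have h4 := ht j
      have h5 := ht (j + 1)
      field_simp
    rw [e1]
    have h4 := ht j
    have h5 := ht (j + 1)
    field_simp
    ring
  have hB : ∑ j ∈ Finset.range k, xk g z u ((j : ℤ) + 1) ^ 2 *
        (Yf g ((j : ℤ) + 1) u ^ 2 / tau g ((j : ℤ) + 1) ^ 2) =
      ∑ j ∈ Finset.range k, xk g z u j ^ 2 * (Yf g j u ^ 2 / tau g j ^ 2) := by
    have h1 := sum_window k (fun j : ℤ => xk g z u j ^ 2 * (Yf g j u ^ 2 / tau g j ^ 2))
      (fun j => by rw [h.xk_per hz, h.Yf_anti, h.tau_per, neg_sq]) 1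
    rw [← h1]
    refine Finset.sum_congr rfl fun j _ => ?_
    rw [add_comm (1 : ℤ) (j : ℤ)]
  have hsum : ∑ j ∈ Finset.range k, Sk g z u j ^ 2 =
      ∑ j ∈ Finset.range k, Nk g u j * xk g z u j ^ 2 -
      2 * ∑ j ∈ Finset.range k, (xk g z u j * xk g z u (j + 1) *
        (Yf g (j - 1) u * Yf g (j + 1) u / (tau g j * tau g (j + 1)))) := by
    rw [Finset.sum_congr rfl fun (j : ℕ) _ => hS (j : ℤ), Finset.sum_sub_distrib,
      Finset.sum_add_distrib, hB,
      ← Finset.sum_add_distrib, ← Finset.mul_sum]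
    congr 1
    refine Finset.sum_congr rfl fun j _ => ?_
    unfold Nk
    ring
  -- the products with the vanishing sum
  have hN0 : ∑ i ∈ Finset.range k, (Nk g u i * xk g z u i ^ 2 +
      Nk g u i * (xk g z u i * xk g z u (i + 1)) +
      ∑ m ∈ Finset.Ico 2 (k - 1), Nk g u i * (xk g z u i * xk g z u (i + m)) +
      Nk g u i * (xk g z u i * xk g z u (i - 1))) = 0 := by
    refine Finset.sum_eq_zero fun i _ => ?_
    have h1 := QuadC_split hk (fun m : ℕ => xk g z u ((i : ℤ) + m))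
    rw [hxi] at h1
    have h2 : xk g z u ((i : ℤ) + ((k - 1 : ℕ) : ℤ)) = xk g z u ((i : ℤ) - 1) := by
      have e : (i : ℤ) + ((k - 1 : ℕ) : ℤ) = (i : ℤ) - 1 + k := by
        have : ((k - 1 : ℕ) : ℤ) = (k : ℤ) - 1 := by
          have : 1 ≤ k := by omega
          push_cast [this]
          ring
        rw [this]
        ring
      rw [e, h.xk_per hz]
    rw [h2] at h1
    have h3 : ∑ m ∈ Finset.Ico 2 (k - 1), Nk g u i * (xk g z u i * xk g z u (i + m)) =
        Nk g u i * xk g z u i * ∑ m ∈ Finset.Ico 2 (k - 1), xk g z u ((i : ℤ) + m) := by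
      rw [Finset.mul_sum]
      refine Finset.sum_congr rfl fun m _ => ?_
      ring
    rw [h3]
    have h4 : (0 : ℝ) = Nk g u i * xk g z u i * 0 := by ring
    rw [h4, h1]
    simp only [Nat.cast_zero, add_zero, Nat.cast_one]
    ring
  have hM : ∑ i ∈ Finset.range k, Nk g u i * (xk g z u i * xk g z u ((i : ℤ) - 1)) =
      ∑ i ∈ Finset.range k, Nk g u ((i : ℤ) + 1) * (xk g z u ((i : ℤ) + 1) * xk g z u i) := by
    have h1 := sum_window k (fun j : ℤ => Nk g u j * (xk g z u j * xk g z u (j - 1)))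
      (fun j => by
        have e : j + k - 1 = j - 1 + k := by ring
        rw [h.Nk_per, h.xk_per hz, e, h.xk_per hz]) 1
    rw [← h1]
    refine Finset.sum_congr rfl fun j _ => ?_
    rw [add_comm (1 : ℤ) (j : ℤ), add_sub_cancel_right]
  -- the bracket
  have hbr : ∀ j : ℤ, Nk g u j * (xk g z u j * xk g z u (j + 1)) +
      Nk g u (j + 1) * (xk g z u (j + 1) * xk g z u j) +
      2 * (xk g z u j * xk g z u (j + 1) *
        (Yf g (j - 1) u * Yf g (j + 1) u / (tau g j * tau g (j + 1)))) =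
      bq g j / (Yf g (j - 1) u * Yf g (j + 1) u) * (cr z j * cr z (j + 1)) := by
    intro j
    have h1 := QuadC_alg (p := cr z j) (q := cr z (j + 1)) (hu (j - 1)) (hu j) (hu (j + 1)) (ht j)
      (ht (j + 1)) (QuadC_rel h u j)
    unfold Nk xk bq
    rw [add_sub_cancel_right]
    rw [← h1]
    ring
  rw [Finset.sum_add_distrib, Finset.sum_add_distrib, Finset.sum_add_distrib, hM] at hN0
  rw [hsum, ← Finset.sum_congr rfl fun (j : ℕ) _ => hbr (j : ℤ), Finset.sum_add_distrib,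
    Finset.sum_add_distrib, ← Finset.mul_sum]
  linarith

end Pool.Agent.MPbd65ca.Pg
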