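import Pool.Agent.Lib.MP_bd65ca_an.Pg.Half
import Pool.Agent.Lib.MP_bd65ca_an.Gen.SpxCos

/-!
# The Turán problem for polygons: the polygon as a union of triangles
-/

open MeasureTheory FourierTransform Pointwise Set
open scoped RealInnerProductSpace

namespace Pool.Agent.MPbd65ca.Pg

variable {k : ℕ} {g : ℤ → E 2}

theorem Tri_mem_spx (p q y : E 2) : y ∈ spx 0 ![p, q] ↔
    ∃ a b : ℝ, 0 ≤ a ∧ 0 ≤ b ∧ a + b ≤ 1 ∧ y = a • p + b • q := by
  unfold spx stdS
  constructor
  · rintro ⟨t, ⟨ht0, ht1⟩, rfl⟩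
    refine ⟨t 0, t 1, ht0 0, ht0 1, ?_, ?_⟩
    · rwa [Fin.sum_univ_two] at ht1
    · rw [Fin.sum_univ_two]
      simp
  · rintro ⟨a, b, ha, hb, hab, rfl⟩
    refine ⟨![a, b], ⟨?_, ?_⟩, ?_⟩
    · intro i
      fin_cases i
      · exact ha
      · exact hb
    · rw [Fin.sum_univ_two]
      exact hab
    · rw [Fin.sum_univ_two]
      simp

/-- The determinant with a fixed vector as a linear form. -/
noncomputable def Tri_dtl (w : E 2) : E 2 →ₗ[ℝ] ℝ where
  toFun y := dt w y
  map_add' := dt_add_right w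
  map_smul' r y := dt_smul_right r w y

theorem Tri_null {w z : E 2} (hz : dt w z ≠ 0) : ∀ᵐ y : E 2, dt w y ≠ 0 := by
  have h1 : (LinearMap.ker (Tri_dtl w)) ≠ ⊤ := by
    intro h
    have : z ∈ LinearMap.ker (Tri_dtl w) := by
      rw [h]
      trivial
    exact hz this
  have h2 := Measure.addHaar_submodule (volume : Measure (E 2)) _ h1
  rw [ae_iff]
  convert h2 using 2
  ext y
  simp [Tri_dtl]

theorem Zon.Tri_vx_per (h : Zon k g) (j : ℤ) : vx k g (j + (2 * k : ℕ)) = vx k g j := by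
  have e : j + ((2 * k : ℕ) : ℤ) = j + k + k := by push_cast; ring
  rw [e, h.vx_anti, h.vx_anti, neg_neg]

theorem Zon.Tri_pos (h : Zon k g) (j : ℤ) : 0 < dt (vx k g j) (vx k g (j + 1)) :=
  h.dt_vx_vx (by omega) (by have := h.hk; omega)

theorem Zon.Tri_ae (h : Zon k g) : ∀ᵐ y : E 2, ∀ j : ℤ, dt (vx k g j) y ≠ 0 := by
  rw [ae_all_iff]
  intro j
  exact Tri_null (h.Tri_pos j).ne'

/-- Signs of the determinants of the points of a cone. -/
theorem Zon.Tri_sign (h : Zon k g) {i : ℤ} {a b : ℝ} (ha : 0 < a) (hb : 0 < b) {y : E 2}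
    (hy : y = a • vx k g i + b • vx k g (i + 1)) {r : ℤ} (h1 : 1 ≤ r) (h2 : r ≤ k) :
    dt (vx k g (i + r)) y < 0 := by
  rw [hy, dt_add_right, dt_smul_right, dt_smul_right]
  rcases eq_or_lt_of_le h1 with h3 | h3
  · rw [← h3, dt_self, dt_swap (vx k g i) (vx k g (i + 1))]
    have := mul_pos ha (h.Tri_pos i)
    linarith
  · rcases eq_or_lt_of_le h2 with h4 | h4
    · rw [h4, h.vx_anti, dt_neg_left, dt_neg_left, dt_self]
      have := mul_pos hb (h.Tri_pos i)
      linarith
    · have e1 : 0 < dt (vx k g i) (vx k g (i + r)) := h.dt_vx_vx (by omega) (by omega)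
      have e2 : 0 < dt (vx k g (i + 1)) (vx k g (i + r)) := h.dt_vx_vx (by omega) (by omega)
      rw [dt_swap (vx k g i) (vx k g (i + r)), dt_swap (vx k g (i + 1)) (vx k g (i + r))]
      have e3 := mul_pos ha e1
      have e4 := mul_pos hb e2
      linarith

/-- The coefficients are positive. -/
theorem Zon.Tri_coef (_h : Zon k g) {i : ℤ} {a b : ℝ} (ha : 0 ≤ a) (hb : 0 ≤ b) {y : E 2}
    (hy : y = a • vx k g i + b • vx k g (i + 1)) (hne : ∀ j : ℤ, dt (vx k g j) y ≠ 0) :
    0 < a ∧ 0 < b := by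
  constructor
  · refine lt_of_le_of_ne ha fun h0 => hne (i + 1) ?_
    rw [hy, ← h0, zero_smul, zero_add, dt_smul_right, dt_self, mul_zero]
  · refine lt_of_le_of_ne hb fun h0 => hne i ?_
    rw [hy, ← h0, zero_smul, add_zero, dt_smul_right, dt_self, mul_zero]

/-- Only one cone contains a point. -/
theorem Zon.Tri_unique (h : Zon k g) {y : E 2} (hne : ∀ j : ℤ, dt (vx k g j) y ≠ 0) {i j : ℕ}
    (hi : i < 2 * k) (hj : j < 2 * k) {a b a' b' : ℝ} (ha : 0 ≤ a) (hb : 0 ≤ b) (ha' : 0 ≤ a')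
    (hb' : 0 ≤ b') (hy : y = a • vx k g i + b • vx k g (i + 1))
    (hy' : y = a' • vx k g j + b' • vx k g (j + 1)) : j = i := by
  obtain ⟨ha0, hb0⟩ := h.Tri_coef ha hb hy hne
  obtain ⟨ha0', hb0'⟩ := h.Tri_coef ha' hb' hy' hne
  have hf : ∀ l : ℤ, dt (vx k g (l + k)) y = -dt (vx k g l) y := by
    intro l
    rw [h.vx_anti, dt_neg_left]
  have hS : ∀ r : ℤ, 1 ≤ r → r ≤ k → dt (vx k g (i + r)) y < 0 := fun r h1 h2 =>
    h.Tri_sign ha0 hb0 hy h1 h2
  have hS' : ∀ r : ℤ, 1 ≤ r → r ≤ k → dt (vx k g (j + r)) y < 0 := fun r h1 h2 =>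
    h.Tri_sign ha0' hb0' hy' h1 h2
  have hk := h.hk
  rcases lt_trichotomy i j with hij | hij | hij
  · exfalso
    by_cases hc : (j : ℤ) - i ≤ k
    · have e1 := hS (j - i) (by omega) hc
      have e2 := hS' k (by omega) le_rfl
      rw [hf] at e2
      have e3 : (i : ℤ) + (j - i) = j := by ring
      rw [e3] at e1
      linarith
    · have e1 := hS (j - i + 1 - k) (by omega) (by omega)
      have e2 := hS' 1 (by omega) (by omega)
      have e3 : (j : ℤ) + 1 = i + (j - i + 1 - k) + k := by ring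
      rw [e3, hf] at e2
      linarith
  · exact hij.symm
  · exfalso
    by_cases hc : (i : ℤ) - j ≤ k
    · have e1 := hS' (i - j) (by omega) hc
      have e2 := hS k (by omega) le_rfl
      rw [hf] at e2
      have e3 : (j : ℤ) + (i - j) = i := by ring
      rw [e3] at e1
      linarith
    · have e1 := hS' (i - j + 1 - k) (by omega) (by omega)
      have e2 := hS 1 (by omega) (by omega)
      have e3 : (i : ℤ) + 1 = j + (i - j + 1 - k) + k := by ring
      rw [e3, hf] at e2
      linarith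

/-- The polygon is the union of `2 k` triangles without common interior points. -/
theorem Zon.ind (h : Zon k g) : ∀ᵐ y : E 2, (zg k g).indicator (fun _ => (1 : ℝ)) y =
    ∑ j ∈ Finset.range (2 * k),
      (spx 0 ![vx k g j, vx k g (j + 1)]).indicator (fun _ => (1 : ℝ)) y := by
  filter_upwards [h.Tri_ae] with y hne
  have hk := h.hk
  obtain ⟨j, a, b, ha, hb, hy⟩ := h.exists_cone y
  obtain ⟨i, m, hi, hj⟩ := exists_range (2 * k) (by omega) j
  have e1 : vx k g j = vx k g i := by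
    rw [hj]
    exact per_mul (2 * k) (vx k g) h.Tri_vx_per _ _
  have e2 : vx k g (j + 1) = vx k g (i + 1) := by
    have : j + 1 = (i : ℤ) + 1 + m * ((2 * k : ℕ) : ℤ) := by rw [hj]; ring
    rw [this]
    exact per_mul (2 * k) (vx k g) h.Tri_vx_per _ _
  rw [e1, e2] at hy
  rw [Finset.sum_eq_single i]
  · have hiff : y ∈ zg k g ↔ y ∈ spx 0 ![vx k g i, vx k g (i + 1)] := by
      rw [Tri_mem_spx]
      constructor
      · intro hz
        rw [hy, h.cone_mem i ha hb] at hz
        exact ⟨a, b, ha, hb, hz, hy⟩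
      · rintro ⟨a', b', ha', hb', hab, hy'⟩
        rw [hy', h.cone_mem i ha' hb']
        exact hab
    by_cases hz : y ∈ zg k g
    · rw [indicator_of_mem hz, indicator_of_mem (hiff.1 hz)]
    · rw [indicator_of_notMem hz, indicator_of_notMem fun hc => hz (hiff.2 hc)]
  · intro l hl hli
    refine indicator_of_notMem (fun hmem => hli ?_) _
    obtain ⟨a', b', ha', hb', -, hy'⟩ := (Tri_mem_spx _ _ _).1 hmem
    exact h.Tri_unique hne hi (Finset.mem_range.1 hl) ha hb ha' hb' hy hy'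
  · intro hi'
    exact absurd (Finset.mem_range.2 hi) hi'

theorem Tri_even (p q : E 2) (f : E 2 → ℝ) (hf : ∀ y, f (-y) = f y) :
    ∫ y in spx 0 ![-p, -q], f y = ∫ y in spx 0 ![p, q], f y := by
  have h := (Measure.measurePreserving_neg (volume : Measure (E 2))).setIntegral_preimage_emb
    (MeasurableEquiv.neg (E 2)).measurableEmbedding f (spx 0 ![p, q])
  have h2 : (Neg.neg : E 2 → E 2) ⁻¹' (spx 0 ![p, q]) = spx 0 ![-p, -q] := by
    ext y
    rw [mem_preimage, Tri_mem_spx, Tri_mem_spx]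
    constructor
    · rintro ⟨a, b, ha, hb, hab, hy⟩
      refine ⟨a, b, ha, hb, hab, ?_⟩
      rw [smul_neg, smul_neg, ← neg_add, ← hy, neg_neg]
    · rintro ⟨a, b, ha, hb, hab, hy⟩
      refine ⟨a, b, ha, hb, hab, ?_⟩
      rw [hy, smul_neg, smul_neg, ← neg_add, neg_neg]
  rw [h2] at h
  simpa only [hf] using h

theorem Zon.cosT_sum (h : Zon k g) (x : E 2) : cosT (zg k g) x =
    2 * ∑ j ∈ Finset.range k, ∫ y in spx 0 ![vx k g j, vx k g (j + 1)],
      Real.cos (2 * Real.pi * ⟪x, y⟫) := by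
  set f : E 2 → ℝ := fun y => Real.cos (2 * Real.pi * ⟪x, y⟫) with hf
  have hfc : Continuous f := by
    rw [hf]
    fun_prop
  have hfe : ∀ y, f (-y) = f y := by
    intro y
    simp only [hf, inner_neg_right, mul_neg, Real.cos_neg]
  have hm : ∀ p q : E 2, MeasurableSet (spx 0 ![p, q]) := fun p q =>
    (isCompact_spx 0 ![p, q]).isClosed.measurableSet
  have hzm : MeasurableSet (zg k g) := (isCompact_zg k g).isClosed.measurableSet
  have h1 : cosT (zg k g) x = ∫ y, (zg k g).indicator (fun _ => (1 : ℝ)) y * f y := by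
    unfold cosT
    rw [← integral_indicator hzm]
    congr 1
    funext y
    by_cases hy : y ∈ zg k g
    · rw [indicator_of_mem hy, indicator_of_mem hy, one_mul]
    · rw [indicator_of_notMem hy, indicator_of_notMem hy, zero_mul]
  have h2 : ∫ y, (zg k g).indicator (fun _ => (1 : ℝ)) y * f y =
      ∫ y, ∑ j ∈ Finset.range (2 * k),
        (spx 0 ![vx k g j, vx k g (j + 1)]).indicator f y := by
    apply integral_congr_ae
    filter_upwards [h.ind] with y hy
    rw [hy, Finset.sum_mul]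
    refine Finset.sum_congr rfl fun j _ => ?_
    by_cases hy : y ∈ spx 0 ![vx k g j, vx k g (j + 1)]
    · rw [indicator_of_mem hy, indicator_of_mem hy, one_mul]
    · rw [indicator_of_notMem hy, indicator_of_notMem hy, zero_mul]
  have h3 : ∫ y, ∑ j ∈ Finset.range (2 * k),
      (spx 0 ![vx k g j, vx k g (j + 1)]).indicator f y =
      ∑ j ∈ Finset.range (2 * k), ∫ y in spx 0 ![vx k g j, vx k g (j + 1)], f y := by
    rw [integral_finsetSum]
    · exact Finset.sum_congr rfl fun j _ => integral_indicator (hm _ _)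
    · intro j _
      rw [integrable_indicator_iff (hm _ _)]
      exact hfc.continuousOn.integrableOn_compact (isCompact_spx _ _)
  rw [h1, h2, h3, two_mul, Finset.sum_range_add, two_mul]
  congr 1
  refine Finset.sum_congr rfl fun j _ => ?_
  have e1 : vx k g ((k + j : ℕ) : ℤ) = -vx k g j := by
    have : ((k + j : ℕ) : ℤ) = j + k := by push_cast; ring
    rw [this, h.vx_anti]
  have e2 : vx k g (((k + j : ℕ) : ℤ) + 1) = -vx k g (j + 1) := by
    have : ((k + j : ℕ) : ℤ) + 1 = (j + 1 : ℤ) + k := by push_cast; ring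
    rw [this, h.vx_anti]
  rw [e1, e2]
  exact Tri_even _ _ f hfe

end Pool.Agent.MPbd65ca.Pg
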