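import Pool.Agent.Lib.MP_bd65ca_an.Pg.Defs

/-!
# The Turán problem for polygons: approximation by bounded trigonometric polynomials
-/

open MeasureTheory FourierTransform Pointwise Set Filter Topology
open scoped RealInnerProductSpace

namespace Pool.Agent.MPbd65ca.Pg

/-- The trigonometric polynomial with the frequencies `s` and the coefficients `b`. -/
noncomputable def tp (s : Finset (E 2)) (b : E 2 → ℂ) (u : E 2) : ℂ :=
  ∑ μ ∈ s, b μ * (Real.fourierChar ⟪u, μ⟫ : ℂ)

/-- The projection to the torus with the period `L`. -/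
private noncomputable def Trig_q (L : ℝ) (u : E 2) : UnitAddTorus (Fin 2) :=
  fun i => ((u i / L : ℝ) : UnitAddCircle)

private theorem Trig_q_cont (L : ℝ) : Continuous (Trig_q L) := by
  refine continuous_pi fun i => ?_
  exact (AddCircle.continuous_mk' 1).comp (by fun_prop)

private theorem Trig_q_inj {R L : ℝ} (hR : 0 ≤ R) (hL : L = 4 * (R + 1)) {u v : E 2}
    (hu : ‖u‖ ≤ R) (hv : ‖v‖ ≤ R) (h : Trig_q L u = Trig_q L v) : u = v := by
  have hL0 : 0 < L := by rw [hL]; linarith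
  have key : ∀ w : E 2, ‖w‖ ≤ R → ∀ i, w i / L ∈ Ico (-(1 / 2) : ℝ) (-(1 / 2) + 1) := by
    intro w hw i
    have h1 : |w i| ≤ R := by
      have h2 := PiLp.norm_apply_le w i
      rw [Real.norm_eq_abs] at h2
      exact h2.trans hw
    have h3 := abs_le.1 h1
    constructor
    · rw [le_div_iff₀ hL0]
      nlinarith [h3.1, h3.2]
    · rw [div_lt_iff₀ hL0]
      nlinarith [h3.1, h3.2]
  ext i
  have hi : ((u i / L : ℝ) : UnitAddCircle) = ((v i / L : ℝ) : UnitAddCircle) := congrFun h i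
  have h5 := (AddCircle.coe_eq_coe_iff_of_mem_Ico (key u hu i) (key v hv i)).1 hi
  exact (div_left_inj' hL0.ne').1 h5

/-- The frequency of the index `n`. -/
private noncomputable def Trig_nu (L : ℝ) (n : Fin 2 → ℤ) : E 2 :=
  WithLp.toLp 2 (fun i => (n i : ℝ) / L)

private theorem Trig_nu_inj {L : ℝ} (hL : L ≠ 0) : Function.Injective (Trig_nu L) := by
  intro n m h
  funext i
  have h1 : (n i : ℝ) / L = (m i : ℝ) / L := congrFun (congrArg (fun w : E 2 => (w : Fin 2 → ℝ)) h) i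
  have h2 := (div_left_inj' hL).1 h1
  exact_mod_cast h2

private theorem Trig_mF (L : ℝ) (n : Fin 2 → ℤ) (u : E 2) :
    UnitAddTorus.mFourier n (Trig_q L u) = (Real.fourierChar ⟪u, Trig_nu L n⟫ : ℂ) := by
  have h1 : UnitAddTorus.mFourier n (Trig_q L u) =
      ∏ i : Fin 2, fourier (n i) ((u i / L : ℝ) : UnitAddCircle) := rfl
  have h2 : (⟪u, Trig_nu L n⟫ : ℝ) = u 0 * (n 0 / L) + u 1 * (n 1 / L) := by
    have h3 : (⟪u, Trig_nu L n⟫ : ℝ) = ∑ i : Fin 2, ⟪u i, (Trig_nu L n) i⟫ := rfl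
    rw [h3, Fin.sum_univ_two]
    have h4 : ∀ i, (Trig_nu L n) i = (n i : ℝ) / L := fun i => rfl
    rw [h4, h4]
    simp only [RCLike.inner_apply, conj_trivial]
    ring
  rw [h1, Fin.prod_univ_two, fourier_coe_apply, fourier_coe_apply, Real.fourierChar_apply, h2,
    ← Complex.exp_add]
  congr 1
  push_cast
  ring

theorem exists_trig {f : E 2 → ℂ} (hf : Continuous f) {B : ℝ} (hB : ∀ u, ‖f u‖ ≤ B) (S : ℝ)
    {ε : ℝ} (hε : 0 < ε) : ∃ (s : Finset (E 2)) (b : E 2 → ℂ),
      (∀ u, ‖u‖ ≤ S → ‖tp s b u - f u‖ ≤ ε) ∧ ∀ u, ‖tp s b u‖ ≤ 2 * B + ε := by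
  classical
  have hB0 : 0 ≤ B := (norm_nonneg _).trans (hB 0)
  obtain ⟨L, hL⟩ : ∃ L : ℝ, L = 4 * (|S| + 1) := ⟨_, rfl⟩
  have hL0 : 0 < L := by
    rw [hL]
    have := abs_nonneg S
    linarith
  have : CompactSpace (Metric.closedBall (0 : E 2) |S|) :=
    isCompact_iff_compactSpace.1 (isCompact_closedBall 0 |S|)
  let e : Metric.closedBall (0 : E 2) |S| → UnitAddTorus (Fin 2) := fun x => Trig_q L x
  have he : IsClosedEmbedding e := by
    refine Continuous.isClosedEmbedding ((Trig_q_cont L).comp continuous_subtype_val) ?_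
    intro x y hxy
    exact Subtype.ext (Trig_q_inj (abs_nonneg S) hL (mem_closedBall_zero_iff.1 x.2)
      (mem_closedBall_zero_iff.1 y.2) hxy)
  let f1 : BoundedContinuousFunction (Metric.closedBall (0 : E 2) |S|) ℝ :=
    BoundedContinuousFunction.ofNormedAddCommGroup (fun x => (f x).re)
      (Complex.continuous_re.comp (hf.comp continuous_subtype_val)) B
      (fun x => (Complex.abs_re_le_norm _).trans (hB x))
  let f2 : BoundedContinuousFunction (Metric.closedBall (0 : E 2) |S|) ℝ :=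
    BoundedContinuousFunction.ofNormedAddCommGroup (fun x => (f x).im)
      (Complex.continuous_im.comp (hf.comp continuous_subtype_val)) B
      (fun x => (Complex.abs_im_le_norm _).trans (hB x))
  have hf1 : ‖f1‖ ≤ B := BoundedContinuousFunction.norm_ofNormedAddCommGroup_le _ hB0 _
  have hf2 : ‖f2‖ ≤ B := BoundedContinuousFunction.norm_ofNormedAddCommGroup_le _ hB0 _
  obtain ⟨g1, hg1, hg1e⟩ := BoundedContinuousFunction.exists_extension_norm_eq_of_isClosedEmbedding
    f1 he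
  obtain ⟨g2, hg2, hg2e⟩ := BoundedContinuousFunction.exists_extension_norm_eq_of_isClosedEmbedding
    f2 he
  let F : C(UnitAddTorus (Fin 2), ℂ) :=
    ⟨fun y => (g1 y : ℂ) + (g2 y : ℂ) * Complex.I, by
      have c1 := g1.continuous
      have c2 := g2.continuous
      fun_prop⟩
  have hFn : ∀ y, ‖F y‖ ≤ 2 * B := by
    intro y
    have h1 : ‖(g1 y : ℂ)‖ ≤ B := by
      rw [Complex.norm_real]
      exact (g1.norm_coe_le_norm y).trans (hg1.le.trans hf1)
    have h2 : ‖(g2 y : ℂ)‖ ≤ B := by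
      rw [Complex.norm_real]
      exact (g2.norm_coe_le_norm y).trans (hg2.le.trans hf2)
    calc ‖F y‖ ≤ ‖(g1 y : ℂ)‖ + ‖(g2 y : ℂ) * Complex.I‖ := norm_add_le _ _
      _ = ‖(g1 y : ℂ)‖ + ‖(g2 y : ℂ)‖ := by rw [norm_mul, Complex.norm_I, mul_one]
      _ ≤ 2 * B := by linarith
  have hFe : ∀ u : E 2, ‖u‖ ≤ |S| → F (Trig_q L u) = f u := by
    intro u hu
    have hm : u ∈ Metric.closedBall (0 : E 2) |S| := mem_closedBall_zero_iff.2 hu
    have h1 : g1 (Trig_q L u) = (f u).re := congrFun hg1e ⟨u, hm⟩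
    have h2 : g2 (Trig_q L u) = (f u).im := congrFun hg2e ⟨u, hm⟩
    show (g1 (Trig_q L u) : ℂ) + (g2 (Trig_q L u) : ℂ) * Complex.I = f u
    rw [h1, h2]
    exact Complex.re_add_im (f u)
  have hcl : F ∈ (Submodule.span ℂ (range (UnitAddTorus.mFourier (d := Fin 2)))).topologicalClosure
      := by
    rw [UnitAddTorus.span_mFourier_closure_eq_top]
    trivial
  have hcl' : F ∈ closure ((Submodule.span ℂ (range (UnitAddTorus.mFourier (d := Fin 2))) :
      Submodule ℂ C(UnitAddTorus (Fin 2), ℂ)) : Set C(UnitAddTorus (Fin 2), ℂ)) := hcl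
  obtain ⟨P, hP, hFP⟩ := Metric.mem_closure_iff.1 hcl' ε hε
  obtain ⟨c, hc⟩ := Finsupp.mem_span_range_iff_exists_finsupp.1 hP
  have hd : ∀ y, ‖P y - F y‖ ≤ ε := by
    intro y
    rw [← dist_eq_norm, dist_comm]
    exact (ContinuousMap.dist_apply_le_dist y).trans hFP.le
  have hPy : ∀ y, P y = ∑ n ∈ c.support, c n * UnitAddTorus.mFourier n y := by
    intro y
    rw [← hc, Finsupp.sum, ContinuousMap.sum_apply]
    rfl
  refine ⟨c.support.image (Trig_nu L), Function.extend (Trig_nu L) c 0, ?_⟩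
  have htp : ∀ u, tp (c.support.image (Trig_nu L)) (Function.extend (Trig_nu L) c 0) u =
      P (Trig_q L u) := by
    intro u
    rw [tp, Finset.sum_image (fun a _ b _ h => Trig_nu_inj hL0.ne' h), hPy]
    refine Finset.sum_congr rfl fun n _ => ?_
    rw [(Trig_nu_inj hL0.ne').extend_apply, Trig_mF]
  refine ⟨fun u hu => ?_, fun u => ?_⟩
  · rw [htp, ← hFe u (hu.trans (le_abs_self S))]
    exact hd _
  · rw [htp]
    calc ‖P (Trig_q L u)‖ = ‖F (Trig_q L u) + (P (Trig_q L u) - F (Trig_q L u))‖ := by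
          congr 1
          ring
      _ ≤ ‖F (Trig_q L u)‖ + ‖P (Trig_q L u) - F (Trig_q L u)‖ := norm_add_le _ _
      _ ≤ 2 * B + ε := add_le_add (hFn _) (hd _)

end Pool.Agent.MPbd65ca.Pg
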