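import Pool.Agent.Lib.MP_bd65ca_an.Pg.Trig

/-!
# The Turán problem for polygons: the spectrum of scaled functions
-/

open MeasureTheory FourierTransform Pointwise Set Filter Topology
open scoped RealInnerProductSpace

namespace Pool.Agent.MPbd65ca.Pg

variable {d : ℕ}

theorem vanish_scale {ρ : ℝ} {f : E d → ℂ} (hf : Vanish (Metric.closedBall 0 ρ) f) {T : ℝ}
    (hT : 0 < T) : Vanish (Metric.closedBall 0 (ρ / T)) (fun x => f (T⁻¹ • x)) := by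
  refine ⟨hf.1.comp_smul (inv_ne_zero hT.ne'), fun ξ hξ => ?_⟩
  have h1 : T • ξ ∉ Metric.closedBall (0 : E d) ρ := by
    intro h
    apply hξ
    rw [mem_closedBall_zero_iff] at h ⊢
    rw [norm_smul, Real.norm_of_nonneg hT.le] at h
    rw [le_div_iff₀ hT]
    linarith [mul_comm T ‖ξ‖]
  have h2 := hf.2 _ h1
  rw [Real.fourier_eq] at h2 ⊢
  have h3 : ∀ v : E d, 𝐞 (-⟪v, ξ⟫) • f (T⁻¹ • v) =
      (fun y => 𝐞 (-⟪y, T • ξ⟫) • f y) (T⁻¹ • v) := by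
    intro v
    have h4 : ⟪T⁻¹ • v, T • ξ⟫ = ⟪v, ξ⟫ := by
      rw [real_inner_smul_left, real_inner_smul_right, ← mul_assoc, inv_mul_cancel₀ hT.ne',
        one_mul]
    simp only [h4]
  rw [integral_congr_ae (Eventually.of_forall h3)]
  have h5 := Measure.integral_comp_inv_smul (volume : Measure (E d))
    (fun y => 𝐞 (-⟪y, T • ξ⟫) • f y) T
  rw [h2, smul_zero] at h5
  exact h5

theorem VanA_conj {K : Set (E d)} (hK : ∀ x ∈ K, -x ∈ K) {f : E d → ℂ} (hf : Vanish K f) :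
    Vanish K (fun x => (starRingEnd ℂ) (f x)) := by
  refine ⟨?_, fun ξ hξ => ?_⟩
  · exact (LinearIsometryEquiv.integrable_comp_iff (Complex.conjLIE)).2 hf.1
  · have h1 : -ξ ∉ K := fun h => hξ (by simpa using hK _ h)
    have h2 := hf.2 _ h1
    rw [Real.fourier_eq] at h2 ⊢
    have h3 : ∀ v : E d, 𝐞 (-⟪v, ξ⟫) • (starRingEnd ℂ) (f v) =
        (starRingEnd ℂ) (𝐞 (-⟪v, -ξ⟫) • f v) := by
      intro v
      rw [Circle.smul_def, Circle.smul_def, smul_eq_mul, smul_eq_mul, map_mul,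
        ← Circle.coe_inv_eq_conj, ← AddChar.map_neg_eq_inv, inner_neg_right, neg_neg]
    simp_rw [h3]
    rw [integral_conj, h2, map_zero]

theorem vanish_re {K : Set (E d)} (hK : ∀ x ∈ K, -x ∈ K) {f : E d → ℂ} (hf : Vanish K f) :
    Vanish K (fun x => ((f x).re : ℂ)) := by
  refine ((hf.add (VanA_conj hK hf)).const_mul (1 / 2)).congr fun x => ?_
  rw [Complex.add_conj]
  push_cast
  ring

/-- The terms with frequencies in the interior. -/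
theorem vanish_tp {ρ : ℝ} {Φ : E 2 → ℂ} (hΦ : Vanish (Metric.closedBall 0 ρ) Φ)
    (s : Finset (E 2)) (b : E 2 → ℂ) (f : E 2) {r : ℝ} (hr : 0 < r) :
    ∃ T₀ : ℝ, 0 < T₀ ∧ ∀ T : ℝ, T₀ ≤ T → Vanish (Metric.closedBall f r)
      (fun t => Φ (T⁻¹ • t) * tp s b (T⁻¹ • t) * (Real.fourierChar ⟪t, f⟫ : ℂ)) := by
  have hA : 0 < |ρ| + ∑ μ ∈ s, ‖μ‖ + 1 := by
    have h1 : 0 ≤ ∑ μ ∈ s, ‖μ‖ := Finset.sum_nonneg fun _ _ => norm_nonneg _
    have h2 := abs_nonneg ρ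
    linarith
  refine ⟨(|ρ| + ∑ μ ∈ s, ‖μ‖ + 1) / r, div_pos hA hr, fun T hT => ?_⟩
  have hTp : 0 < T := lt_of_lt_of_le (div_pos hA hr) hT
  have hTr : |ρ| + ∑ μ ∈ s, ‖μ‖ + 1 ≤ r * T := by
    rw [div_le_iff₀ hr] at hT
    linarith [mul_comm T r]
  have hterm : ∀ μ ∈ s, Vanish (Metric.closedBall f r)
      (fun t => b μ * (𝐞 ⟪t, f + T⁻¹ • μ⟫ • Φ (T⁻¹ • t))) := by
    intro μ hμ
    refine (((vanish_scale hΦ hTp).modulate (f + T⁻¹ • μ)).mono ?_).const_mul (b μ)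
    intro ξ hξ
    rw [mem_closedBall_iff_norm] at hξ ⊢
    have h1 : ξ - f = (ξ - (f + T⁻¹ • μ)) + T⁻¹ • μ := by abel
    have h2 : ‖T⁻¹ • μ‖ = ‖μ‖ / T := by
      rw [norm_smul, norm_inv, Real.norm_of_nonneg hTp.le, inv_mul_eq_div]
    have h3 : ‖μ‖ ≤ ∑ μ ∈ s, ‖μ‖ :=
      Finset.single_le_sum (f := fun μ : E 2 => ‖μ‖) (fun _ _ => norm_nonneg _) hμ
    rw [h1]
    refine (norm_add_le _ _).trans ?_
    rw [h2]
    calc ‖ξ - (f + T⁻¹ • μ)‖ + ‖μ‖ / T ≤ ρ / T + ‖μ‖ / T := by linarith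
      _ = (ρ + ‖μ‖) / T := by ring
      _ ≤ r := by
        rw [div_le_iff₀ hTp]
        have := le_abs_self ρ
        linarith
  refine (Vanish.sum s _ hterm).congr fun t => ?_
  rw [tp, Finset.mul_sum, Finset.sum_mul]
  refine Finset.sum_congr rfl fun μ _ => ?_
  have h5 : (𝐞 ⟪t, f + T⁻¹ • μ⟫ : ℂ) = (𝐞 ⟪t, f⟫ : ℂ) * (𝐞 ⟪T⁻¹ • t, μ⟫ : ℂ) := by
    rw [← Circle.coe_mul, ← AddChar.map_add_eq_mul, inner_add_right, real_inner_smul_left,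
      real_inner_smul_right]
  rw [Circle.smul_def, smul_eq_mul, h5]
  ring

end Pool.Agent.MPbd65ca.Pg
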